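import Pool.Agent.H227R3.Lat.Sys

set_option autoImplicit false

/-!
The system attached to a chain of subgroups, Sidon sets, and a partial spread.
-/

namespace Pool.Agent.H227R3.Lat

structure Dat (G : Type) [Group G] where
  m : ℕ
  F : ℕ → Subgroup G
  F_mono : Monotone F
  e : ℕ
  D : Fin e → Set G
  w : ℕ
  H : Fin w → Subgroup G
  x : Fin w → G
  hD_ne : ∀ i, (D i).Nonempty
  hD : ∀ i, ∀ g g' : G, g ≠ g' →
    ({y | ∃ z ∈ D i, y = g * z} ∩ {y | ∃ z ∈ D i, y = g' * z}).Subsingleton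
  hH : ∀ i j, i ≠ j → ∀ h ∈ H i, h ∈ H j → h = 1
  hHx : ∀ i j, i ≠ j → ∀ h ∈ H i, ∀ h' ∈ H j, (x i)⁻¹ * h * x i = (x j)⁻¹ * h' * x j → h = 1

namespace Dat

inductive Srt (m e w : ℕ) : Type
  | ch (i : Fin (m + 1))
  | p0
  | p1
  | p2
  | pd (i : Fin e)
  | nj (j : Fin w)
  | q (i : Fin e)

inductive Typ (m e w : ℕ) : Type
  | c0
  | cs (i : Fin m)
  | l1
  | l2
  | ld (i : Fin e)
  | j1 (j : Fin w)
  | j2 (j : Fin w)
  | q0 (i : Fin e)
  | qd (i : Fin e)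

variable {G : Type} [Group G] (X : Dat G)

def W : Srt X.m X.e X.w → Type
  | .ch i => G ⧸ X.F i.1
  | .p0 => G
  | .p1 => G
  | .p2 => G
  | .pd _ => G
  | .nj j => G ⧸ X.H j
  | .q _ => G

def act : ∀ i, MulAction G (X.W i)
  | .ch i => inferInstanceAs (MulAction G (G ⧸ X.F i.1))
  | .p0 => inferInstanceAs (MulAction G G)
  | .p1 => inferInstanceAs (MulAction G G)
  | .p2 => inferInstanceAs (MulAction G G)
  | .pd _ => inferInstanceAs (MulAction G G)
  | .nj j => inferInstanceAs (MulAction G (G ⧸ X.H j))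
  | .q _ => inferInstanceAs (MulAction G G)

def co : Srt X.m X.e X.w → ℕ
  | .ch i => X.m - i.1
  | .p0 => X.m + 1
  | .p1 => X.m + 2
  | .p2 => X.m + 3
  | .pd i => X.m + 4 + i.1
  | .nj j => X.m + 4 + X.e + j.1
  | .q i => X.m + 4 + X.e + X.w + i.1

def nm : Typ X.m X.e X.w → Srt X.m X.e X.w
  | .c0 => .p0
  | .cs i => .ch i.castSucc
  | .l1 => .p1
  | .l2 => .p2
  | .ld i => .pd i
  | .j1 j => .nj j
  | .j2 j => .nj j
  | .q0 i => .q i
  | .qd i => .q i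

def tg : Typ X.m X.e X.w → Srt X.m X.e X.w
  | .c0 => .ch 0
  | .cs i => .ch i.succ
  | .l1 => .p0
  | .l2 => .p0
  | .ld _ => .p0
  | .j1 _ => .p1
  | .j2 _ => .p2
  | .q0 _ => .p0
  | .qd i => .pd i

def R : ∀ k : Typ X.m X.e X.w, X.W (X.nm k) → X.W (X.tg k) → Prop
  | .c0 => fun (g : G) (d : G ⧸ X.F 0) => d = (g : G ⧸ X.F 0)
  | .cs i => fun (c : G ⧸ X.F i.castSucc.1) (d : G ⧸ X.F i.succ.1) =>
      ∃ g : G, c = (g : G ⧸ X.F i.castSucc.1) ∧ d = (g : G ⧸ X.F i.succ.1)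
  | .l1 => fun (g : G) (d : G) => d = g
  | .l2 => fun (g : G) (d : G) => d = g
  | .ld _ => fun (g : G) (d : G) => d = g
  | .j1 j => fun (c : G ⧸ X.H j) (d : G) => c = (d : G ⧸ X.H j)
  | .j2 j => fun (c : G ⧸ X.H j) (d : G) => ∃ g : G, c = (g : G ⧸ X.H j) ∧ d = g * X.x j
  | .q0 _ => fun (g : G) (d : G) => d = g
  | .qd i => fun (g : G) (d : G) => ∃ z ∈ X.D i, d = g * z

lemma co_inj : Function.Injective X.co := by
  intro a b h
  cases a <;> cases b <;> simp only [co] at h <;> first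
    | rfl
    | (exfalso; omega)
    | (congr 1; apply Fin.ext; omega)

lemma R_ex (k : Typ X.m X.e X.w) (c : X.W (X.nm k)) : ∃ d, X.R k c d := by
  cases k with
  | c0 => exact ⟨_, rfl⟩
  | cs i =>
    obtain ⟨g, hg⟩ := QuotientGroup.mk_surjective (s := X.F i.castSucc.1) c
    exact ⟨(g : G ⧸ X.F i.succ.1), g, hg.symm, rfl⟩
  | l1 => exact ⟨_, rfl⟩
  | l2 => exact ⟨_, rfl⟩
  | ld i => exact ⟨_, rfl⟩
  | j1 j =>
    obtain ⟨g, hg⟩ := QuotientGroup.mk_surjective (s := X.H j) c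
    exact ⟨g, hg.symm⟩
  | j2 j =>
    obtain ⟨g, hg⟩ := QuotientGroup.mk_surjective (s := X.H j) c
    exact ⟨g * X.x j, g, hg.symm, rfl⟩
  | q0 i => exact ⟨_, rfl⟩
  | qd i =>
    obtain ⟨z, hz⟩ := X.hD_ne i
    exact ⟨(show G from c) * z, z, hz, rfl⟩

/-- target part -/
def tpp (k : Typ X.m X.e X.w) (c : X.W (X.nm k)) : Set (Σ i, X.W i) :=
  {x | ∃ d, X.R k c d ∧ x = ⟨X.tg k, d⟩}

lemma tpp_fst {k : Typ X.m X.e X.w} {c : X.W (X.nm k)} {x : Σ i, X.W i} (h : x ∈ X.tpp k c) :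
    x.1 = X.tg k := by
  obtain ⟨d, -, rfl⟩ := h; rfl

/-- function-like types -/
lemma tpp_sub (k : Typ X.m X.e X.w) (c : X.W (X.nm k))
    (h1 : ∀ j, k ≠ .j1 j) (h2 : ∀ j, k ≠ .j2 j) (h3 : ∀ j, k ≠ .qd j) :
    (X.tpp k c).Subsingleton := by
  rintro _ ⟨d, hd, rfl⟩ _ ⟨d', hd', rfl⟩
  have : d = d' := by
    cases k with
    | c0 => exact hd.trans hd'.symm
    | cs i =>
      obtain ⟨g, hg, rfl⟩ := hd
      obtain ⟨g', hg', rfl⟩ := hd'
      have : (g : G ⧸ X.F i.castSucc.1) = (g' : G ⧸ X.F i.castSucc.1) := hg.symm.trans hg'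
      rw [QuotientGroup.eq] at this
      apply QuotientGroup.eq.2
      exact X.F_mono (by simp) this
    | l1 => exact hd.trans hd'.symm
    | l2 => exact hd.trans hd'.symm
    | ld i => exact hd.trans hd'.symm
    | j1 j => exact absurd rfl (h1 j)
    | j2 j => exact absurd rfl (h2 j)
    | q0 i => exact hd.trans hd'.symm
    | qd i => exact absurd rfl (h3 i)
  rw [this]

lemma inter (k : Typ X.m X.e X.w) (c : X.W (X.nm k)) (l : Typ X.m X.e X.w) (c' : X.W (X.nm l))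
    (hne : (⟨k, c⟩ : Σ k, X.W (X.nm k)) ≠ ⟨l, c'⟩) :
    (X.tpp k c ∩ X.tpp l c').Subsingleton := by
  by_cases hk : (X.tpp k c).Subsingleton
  · exact hk.anti Set.inter_subset_left
  by_cases hl : (X.tpp l c').Subsingleton
  · exact hl.anti Set.inter_subset_right
  by_cases htg : X.tg k = X.tg l
  swap
  · intro x hx
    exact absurd ((X.tpp_fst hx.1).symm.trans (X.tpp_fst hx.2)) htg
  cases k with
  | c0 => exact absurd (X.tpp_sub _ c (by intro j h; cases h) (by intro j h; cases h) (by intro j h; cases h)) hk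
  | cs i => exact absurd (X.tpp_sub _ c (by intro j h; cases h) (by intro j h; cases h) (by intro j h; cases h)) hk
  | l1 => exact absurd (X.tpp_sub _ c (by intro j h; cases h) (by intro j h; cases h) (by intro j h; cases h)) hk
  | l2 => exact absurd (X.tpp_sub _ c (by intro j h; cases h) (by intro j h; cases h) (by intro j h; cases h)) hk
  | ld i => exact absurd (X.tpp_sub _ c (by intro j h; cases h) (by intro j h; cases h) (by intro j h; cases h)) hk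
  | q0 i => exact absurd (X.tpp_sub _ c (by intro j h; cases h) (by intro j h; cases h) (by intro j h; cases h)) hk
  | j1 j =>
    cases l with
    | j1 j' =>
      rintro _ ⟨⟨d, hd, rfl⟩, ⟨d', hd', e1⟩⟩ _ ⟨⟨f, hf, rfl⟩, ⟨f', hf', e2⟩⟩
      have e1 : d = d' := eq_of_heq (Sigma.mk.inj_iff.1 e1).2
      have e2 : f = f' := eq_of_heq (Sigma.mk.inj_iff.1 e2).2
      subst e1
      subst e2
      have q1 : ((show G from d : G) : G ⧸ X.H j) = ((show G from f : G) : G ⧸ X.H j) :=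
        hd.symm.trans hf
      have q2 : ((show G from d : G) : G ⧸ X.H j') = ((show G from f : G) : G ⧸ X.H j') :=
        hd'.symm.trans hf'
      have hjj : j ≠ j' := by
        intro h
        subst h
        apply hne
        have : c = c' := hd.trans hd'.symm
        rw [this]
      rw [QuotientGroup.eq] at q1 q2
      have := X.hH j j' hjj _ q1 q2
      have hdf : (show G from d) = (show G from f) := inv_mul_eq_one.1 this
      have hdf' : d = f := hdf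
      rw [hdf']
    | j2 j' => cases htg
    | qd j' => cases htg
    | c0 => cases htg
    | cs i => cases htg
    | l1 => cases htg
    | l2 => cases htg
    | ld i => cases htg
    | q0 i => cases htg
  | j2 j =>
    cases l with
    | j2 j' =>
      rintro _ ⟨⟨d, hd, rfl⟩, ⟨d', hd', e1⟩⟩ _ ⟨⟨f, hf, rfl⟩, ⟨f', hf', e2⟩⟩
      have e1 : d = d' := eq_of_heq (Sigma.mk.inj_iff.1 e1).2
      have e2 : f = f' := eq_of_heq (Sigma.mk.inj_iff.1 e2).2
      subst e1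
      subst e2
      obtain ⟨g1, hg1, r1⟩ := hd
      obtain ⟨g2, hg2, r2⟩ := hd'
      obtain ⟨g3, hg3, r3⟩ := hf
      obtain ⟨g4, hg4, r4⟩ := hf'
      have q1 : (g1 : G ⧸ X.H j) = (g3 : G ⧸ X.H j) := hg1.symm.trans hg3
      have q2 : (g2 : G ⧸ X.H j') = (g4 : G ⧸ X.H j') := hg2.symm.trans hg4
      have hjj : j ≠ j' := by
        intro h
        subst h
        apply hne
        have h1 : g1 = g2 := mul_right_cancel (r1.symm.trans r2)
        have : c = c' := by rw [hg1, hg2, h1]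
        rw [this]
      rw [QuotientGroup.eq] at q1 q2
      have key : (X.x j)⁻¹ * (g1⁻¹ * g3) * X.x j = (X.x j')⁻¹ * (g2⁻¹ * g4) * X.x j' := by
        have s1 : (X.x j)⁻¹ * (g1⁻¹ * g3) * X.x j = (g1 * X.x j)⁻¹ * (g3 * X.x j) := by group
        have s2 : (X.x j')⁻¹ * (g2⁻¹ * g4) * X.x j' = (g2 * X.x j')⁻¹ * (g4 * X.x j') := by group
        rw [s1, s2, ← r1, ← r2, ← r3, ← r4]
      have := X.hHx j j' hjj _ q1 _ q2 key
      have hdf : g1 = g3 := inv_mul_eq_one.1 this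
      have : d = f := by rw [r1, r3, hdf]
      rw [this]
    | j1 j' => cases htg
    | qd j' => cases htg
    | c0 => cases htg
    | cs i => cases htg
    | l1 => cases htg
    | l2 => cases htg
    | ld i => cases htg
    | q0 i => cases htg
  | qd j =>
    cases l with
    | qd j' =>
      have hj : j = j' := by
        have : Srt.pd j = Srt.pd j' := htg
        cases this; rfl
      subst hj
      have hcc : (show G from c) ≠ (show G from c') := by
        intro h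
        apply hne
        have : c = c' := h
        rw [this]
      rintro _ ⟨⟨d, hd, rfl⟩, ⟨d', hd', e1⟩⟩ _ ⟨⟨f, hf, rfl⟩, ⟨f', hf', e2⟩⟩
      have e1 : d = d' := eq_of_heq (Sigma.mk.inj_iff.1 e1).2
      have e2 : f = f' := eq_of_heq (Sigma.mk.inj_iff.1 e2).2
      subst e1
      subst e2
      have : d = f := X.hD j _ _ hcc ⟨hd, hd'⟩ ⟨hf, hf'⟩
      rw [this]
    | j1 j' => cases htg
    | j2 j' => cases htg
    | c0 => cases htg
    | cs i => cases htg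
    | l1 => cases htg
    | l2 => cases htg
    | ld i => cases htg
    | q0 i => cases htg

/-- the system -/
def sys : Sys G where
  ι := Srt X.m X.e X.w
  W := X.W
  act := X.act
  co := X.co
  co_inj := X.co_inj
  s := X.m + 4 + 2 * X.e + X.w
  co_lt i := by cases i <;> simp only [co] <;> omega
  K := Typ X.m X.e X.w
  nm := X.nm
  tg := X.tg
  tn k := by
    cases k with
    | cs i => simp only [co, tg, nm, Fin.val_succ, Fin.val_castSucc]; omega
    | _ => simp only [co, tg, nm, Fin.val_zero] <;> omega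
  pair k l h1 h2 := by
    cases k <;> cases l <;> simp only [nm, tg, reduceCtorEq] at h1 h2 <;>
      first
        | rfl
        | (injection h1 with h1; subst h1; rfl)
        | (injection h2 with h2; congr 1; exact Fin.succ_injective _ h2)
  R := X.R
  R_ex := X.R_ex
  R_eq k g c d h := by
    cases k with
    | c0 => 
      have h' : (show G ⧸ X.F 0 from d) = ((show G from c : G) : G ⧸ X.F 0) := h
      show g • (show G ⧸ X.F 0 from d) = (((g * (show G from c) : G)) : G ⧸ X.F 0)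
      rw [h']; rfl
    | cs i =>
      obtain ⟨a, rfl, rfl⟩ := h
      exact ⟨g * a, rfl, rfl⟩
    | l1 => exact congrArg (fun y : G => g * y) h
    | l2 => exact congrArg (fun y : G => g * y) h
    | ld i => exact congrArg (fun y : G => g * y) h
    | j1 j => exact congrArg (fun y : G ⧸ X.H j => g • y) h
    | j2 j =>
      obtain ⟨a, rfl, rfl⟩ := h
      exact ⟨g * a, rfl, (mul_assoc _ _ _).symm⟩
    | q0 i => exact congrArg (fun y : G => g * y) h
    | qd i =>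
      obtain ⟨z, hz, rfl⟩ := h
      exact ⟨z, hz, (mul_assoc _ _ _).symm⟩
  inter := X.inter

/-! ### automorphisms -/

section aut

variable (π : Equiv.Perm X.sys.V) (hcol : ∀ v, X.sys.toPLS.col (π v) = X.sys.toPLS.col v)
  (hbl : ∀ b ∈ X.sys.toPLS.blocks, π '' b ∈ X.sys.toPLS.blocks)

/-- a point of sort `i` -/
def pnt (i : Srt X.m X.e X.w) (c : X.W i) : X.sys.V := ⟨i, c⟩

lemma pnt_inj (i : Srt X.m X.e X.w) (c d : X.W i) (h : X.pnt i c = X.pnt i d) : c = d :=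
  eq_of_heq (Sigma.mk.inj_iff.1 h).2

include hcol in
lemma ex_phi (i : Srt X.m X.e X.w) (c : X.W i) : ∃ c' : X.W i, π (X.pnt i c) = X.pnt i c' :=
  X.sys.sort_preserved π hcol i c

include hbl in
lemma relp (k : Typ X.m X.e X.w) (c c' : X.W (X.nm k)) (d d' : X.W (X.tg k)) (hR : X.R k c d)
    (h1 : π (X.pnt (X.nm k) c) = X.pnt (X.nm k) c')
    (h2 : π (X.pnt (X.tg k) d) = X.pnt (X.tg k) d') : X.R k c' d' :=
  X.sys.rel_preserved π hbl k c c' d d' hR h1 h2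

include hcol hbl in
theorem aut_main : ∃ φ : G → G,
    (∀ g : G, π (X.pnt .p0 g) = X.pnt .p0 (φ g)) ∧
    (∀ g : G, π (X.pnt .p1 g) = X.pnt .p1 (φ g)) ∧
    (∀ g : G, π (X.pnt .p2 g) = X.pnt .p2 (φ g)) ∧
    (∀ (i : Fin X.e) (g : G), π (X.pnt (.pd i) g) = X.pnt (.pd i) (φ g)) ∧
    (∀ (i : Fin X.e) (g : G), π (X.pnt (.q i) g) = X.pnt (.q i) (φ g)) ∧
    (∀ (j : Fin X.w) (g : G), π (X.pnt (.nj j) (g : G ⧸ X.H j)) =
      X.pnt (.nj j) (φ g : G ⧸ X.H j)) ∧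
    (∀ (i : ℕ) (hi : i < X.m + 1) (g : G), π (X.pnt (.ch ⟨i, hi⟩) (g : G ⧸ X.F i)) =
      X.pnt (.ch ⟨i, hi⟩) (φ g : G ⧸ X.F i)) ∧
    (∀ (j : Fin X.w) (g : G), ∃ h ∈ X.H j, φ (g * X.x j) = φ g * h * X.x j) ∧
    (∀ (i : Fin X.e) (g : G), ∀ z ∈ X.D i, ∃ z' ∈ X.D i, φ (g * z) = φ g * z') := by
  have h0 : ∀ g : G, ∃ g' : G, π (X.pnt .p0 g) = X.pnt .p0 g' := fun g => X.ex_phi π hcol .p0 g
  choose φ hφ using h0
  have h1 : ∀ g : G, π (X.pnt .p1 g) = X.pnt .p1 (φ g) := by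
    intro g
    obtain ⟨a, ha⟩ := X.ex_phi π hcol .p1 g
    have : (φ g : G) = a := X.relp π hbl .l1 g a g (φ g) rfl ha (hφ g)
    rw [this]; exact ha
  have h2 : ∀ g : G, π (X.pnt .p2 g) = X.pnt .p2 (φ g) := by
    intro g
    obtain ⟨a, ha⟩ := X.ex_phi π hcol .p2 g
    have : (φ g : G) = a := X.relp π hbl .l2 g a g (φ g) rfl ha (hφ g)
    rw [this]; exact ha
  have h3 : ∀ (i : Fin X.e) (g : G), π (X.pnt (.pd i) g) = X.pnt (.pd i) (φ g) := by
    intro i g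
    obtain ⟨a, ha⟩ := X.ex_phi π hcol (.pd i) g
    have : (φ g : G) = a := X.relp π hbl (.ld i) g a g (φ g) rfl ha (hφ g)
    rw [this]; exact ha
  have h4 : ∀ (i : Fin X.e) (g : G), π (X.pnt (.q i) g) = X.pnt (.q i) (φ g) := by
    intro i g
    obtain ⟨a, ha⟩ := X.ex_phi π hcol (.q i) g
    have : (φ g : G) = a := X.relp π hbl (.q0 i) g a g (φ g) rfl ha (hφ g)
    rw [this]; exact ha
  have h5 : ∀ (j : Fin X.w) (g : G), π (X.pnt (.nj j) (g : G ⧸ X.H j)) =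
      X.pnt (.nj j) (φ g : G ⧸ X.H j) := by
    intro j g
    obtain ⟨a, ha⟩ := X.ex_phi π hcol (.nj j) (g : G ⧸ X.H j)
    have : a = (φ g : G ⧸ X.H j) :=
      X.relp π hbl (.j1 j) (g : G ⧸ X.H j) a g (φ g) rfl ha (h1 g)
    rw [← this]; exact ha
  have h6 : ∀ (i : ℕ) (hi : i < X.m + 1) (g : G), π (X.pnt (.ch ⟨i, hi⟩) (g : G ⧸ X.F i)) =
      X.pnt (.ch ⟨i, hi⟩) (φ g : G ⧸ X.F i) := by
    intro i
    induction i with
    | zero =>
      intro hi g
      obtain ⟨a, ha⟩ := X.ex_phi π hcol (.ch 0) (g : G ⧸ X.F 0)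
      have : a = (φ g : G ⧸ X.F 0) :=
        X.relp π hbl .c0 g (φ g) (g : G ⧸ X.F 0) a rfl (hφ g) ha
      rw [← this]; exact ha
    | succ i ih =>
      intro hi g
      have hi' : i < X.m := by omega
      obtain ⟨a, ha⟩ := X.ex_phi π hcol (.ch ⟨i + 1, hi⟩) (g : G ⧸ X.F (i + 1))
      have : ∃ g' : G, (φ g : G ⧸ X.F i) = (g' : G ⧸ X.F i) ∧ a = (g' : G ⧸ X.F (i + 1)) :=
        X.relp π hbl (.cs ⟨i, hi'⟩) (g : G ⧸ X.F i) (φ g : G ⧸ X.F i) (g : G ⧸ X.F (i + 1)) a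
          ⟨g, rfl, rfl⟩ (ih (by omega) g) ha
      obtain ⟨g', e1, e2⟩ := this
      have e3 : (φ g : G ⧸ X.F (i + 1)) = (g' : G ⧸ X.F (i + 1)) := by
        rw [QuotientGroup.eq] at e1 ⊢
        exact X.F_mono (Nat.le_succ i) e1
      rw [ha, e2, e3]
  refine ⟨φ, hφ, h1, h2, h3, h4, h5, h6, ?_, ?_⟩
  · intro j g
    have : ∃ g' : G, (φ g : G ⧸ X.H j) = (g' : G ⧸ X.H j) ∧ φ (g * X.x j) = g' * X.x j :=
      X.relp π hbl (.j2 j) (g : G ⧸ X.H j) (φ g : G ⧸ X.H j) (g * X.x j : G) (φ (g * X.x j))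
        ⟨g, rfl, rfl⟩ (h5 j g) (h2 _)
    obtain ⟨g', e1, e2⟩ := this
    rw [QuotientGroup.eq] at e1
    refine ⟨_, e1, ?_⟩
    rw [e2]; group
  · intro i g z hz
    exact X.relp π hbl (.qd i) g (φ g) (g * z : G) (φ (g * z)) ⟨z, hz, rfl⟩ (h4 i g) (h3 i _)

end aut

/-! ### cardinalities -/

section card

variable [Finite G]

instance (i : Srt X.m X.e X.w) : Finite (X.W i) := by
  cases i <;> simp only [W] <;> infer_instance

abbrev PSrc : Type := (Fin 3 × G) ⊕ (Fin X.e × G) ⊕ (Fin X.e × G) ⊕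
  (Σ i : Fin (X.m + 1), G ⧸ X.F i.1) ⊕ (Σ j : Fin X.w, G ⧸ X.H j)

def pmap : X.PSrc → X.sys.V
  | .inl (0, g) => X.pnt .p0 g
  | .inl (1, g) => X.pnt .p1 g
  | .inl (2, g) => X.pnt .p2 g
  | .inr (.inl (i, g)) => X.pnt (.pd i) g
  | .inr (.inr (.inl (i, g))) => X.pnt (.q i) g
  | .inr (.inr (.inr (.inl ⟨i, c⟩))) => X.pnt (.ch i) c
  | .inr (.inr (.inr (.inr ⟨j, c⟩))) => X.pnt (.nj j) c

omit [Finite G] in
lemma pmap_surj : Function.Surjective X.pmap := by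
  rintro ⟨i, c⟩
  cases i with
  | ch i => exact ⟨.inr (.inr (.inr (.inl ⟨i, c⟩))), rfl⟩
  | p0 => exact ⟨.inl (0, c), rfl⟩
  | p1 => exact ⟨.inl (1, c), rfl⟩
  | p2 => exact ⟨.inl (2, c), rfl⟩
  | pd i => exact ⟨.inr (.inl (i, c)), rfl⟩
  | nj j => exact ⟨.inr (.inr (.inr (.inr ⟨j, c⟩))), rfl⟩
  | q i => exact ⟨.inr (.inr (.inl (i, c))), rfl⟩

instance : Finite X.sys.V := Finite.of_surjective _ X.pmap_surj

abbrev BSrc : Type := (Fin 3 × G) ⊕ (Fin X.e × G) ⊕ (Fin X.e × G) ⊕ (Fin X.e × G) ⊕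
  (Σ i : Fin (X.m + 1), G ⧸ X.F i.1) ⊕ (Σ j : Fin X.w, G ⧸ X.H j) ⊕ (Σ j : Fin X.w, G ⧸ X.H j)

def bmk (k : Typ X.m X.e X.w) (c : X.W (X.nm k)) : X.sys.toPLS.blocks :=
  ⟨X.sys.blk k c, k, c, rfl⟩

def bmap : X.BSrc → X.sys.toPLS.blocks
  | .inl (0, g) => X.bmk .c0 g
  | .inl (1, g) => X.bmk .l1 g
  | .inl (2, g) => X.bmk .l2 g
  | .inr (.inl (i, g)) => X.bmk (.ld i) g
  | .inr (.inr (.inl (i, g))) => X.bmk (.q0 i) g
  | .inr (.inr (.inr (.inl (i, g)))) => X.bmk (.qd i) g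
  | .inr (.inr (.inr (.inr (.inl ⟨i, c⟩)))) =>
      if h : i.1 < X.m then X.bmk (.cs ⟨i.1, h⟩) c else X.bmk .c0 (1 : G)
  | .inr (.inr (.inr (.inr (.inr (.inl ⟨j, c⟩))))) => X.bmk (.j1 j) c
  | .inr (.inr (.inr (.inr (.inr (.inr ⟨j, c⟩))))) => X.bmk (.j2 j) c

omit [Finite G] in
lemma bmap_surj : Function.Surjective X.bmap := by
  rintro ⟨_, k, c, rfl⟩
  cases k with
  | c0 => exact ⟨.inl (0, c), rfl⟩
  | l1 => exact ⟨.inl (1, c), rfl⟩
  | l2 => exact ⟨.inl (2, c), rfl⟩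
  | ld i => exact ⟨.inr (.inl (i, c)), rfl⟩
  | q0 i => exact ⟨.inr (.inr (.inl (i, c))), rfl⟩
  | qd i => exact ⟨.inr (.inr (.inr (.inl (i, c)))), rfl⟩
  | cs i =>
    refine ⟨.inr (.inr (.inr (.inr (.inl ⟨i.castSucc, c⟩)))), ?_⟩
    show (if h : i.castSucc.1 < X.m then X.bmk (.cs ⟨i.castSucc.1, h⟩) c else X.bmk .c0 (1 : G)) = _
    rw [dif_pos (show i.castSucc.1 < X.m from i.2)]
    rfl
  | j1 j => exact ⟨.inr (.inr (.inr (.inr (.inr (.inl ⟨j, c⟩))))), rfl⟩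
  | j2 j => exact ⟨.inr (.inr (.inr (.inr (.inr (.inr ⟨j, c⟩))))), rfl⟩

/-- total size of the chain -/
noncomputable def sF : ℕ := ∑ i : Fin (X.m + 1), Nat.card (G ⧸ X.F i.1)

noncomputable def sH : ℕ := ∑ j : Fin X.w, Nat.card (G ⧸ X.H j)

lemma card_V : Nat.card X.sys.V ≤ (3 + 2 * X.e) * Nat.card G + X.sF + X.sH := by
  refine (Nat.card_le_card_of_surjective _ X.pmap_surj).trans ?_
  unfold PSrc sF sH
  simp only [Nat.card_sum, Nat.card_prod, Nat.card_sigma, Nat.card_eq_fintype_card (α := Fin _), Fintype.card_fin]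
  apply le_of_eq
  ring

lemma card_B : Nat.card X.sys.toPLS.blocks ≤ (3 + 3 * X.e) * Nat.card G + X.sF + 2 * X.sH := by
  refine (Nat.card_le_card_of_surjective _ X.bmap_surj).trans ?_
  unfold BSrc sF sH
  simp only [Nat.card_sum, Nat.card_prod, Nat.card_sigma, Nat.card_eq_fintype_card (α := Fin _), Fintype.card_fin]
  apply le_of_eq
  ring

/-- the lattice theorem for the data `X` -/
theorem exists_lattice
    (rig : ∀ φ : G → G, Function.Bijective φ →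
      (∀ i ≤ X.m, ∀ g g' : G, g⁻¹ * g' ∈ X.F i ↔ (φ g)⁻¹ * φ g' ∈ X.F i) →
      (∀ (j : Fin X.w) (g : G), ∃ h ∈ X.H j, φ (g * X.x j) = φ g * h * X.x j) →
      (∀ (i : Fin X.e) (g : G), ∀ z ∈ X.D i, ∃ z' ∈ X.D i, φ (g * z) = φ g * z') →
      ∃ a : G, ∀ g, φ g = a * g) :
    ∃ (L : Type) (_ : Lattice L) (_ : Finite L),
      Nat.card L ≤ (17 + 9 * X.e) * Nat.card G + 4 * X.sF + 5 * X.sH ∧
      Nonempty ((L ≃o L) ≃* G) := by
  obtain ⟨L, hL1, hL2, hL3, hL4⟩ := X.sys.toPLS.exists_lattice G X.sys.col_smul X.sys.blk_smul (by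
    intro g hg
    have h1 : X.pnt .p0 (g * 1 : G) = X.pnt .p0 (1 : G) := hg (X.pnt .p0 (1 : G))
    have h2 : (g * 1 : G) = 1 := X.pnt_inj .p0 _ _ h1
    simpa using h2) (by
    intro π hcol hbl
    obtain ⟨φ, h0, h1, h2, h3, h4, h5, h6, h7, h8⟩ := X.aut_main π hcol hbl
    have hbij : Function.Bijective φ := by
      apply Finite.injective_iff_bijective.1
      intro g g' h
      have : π (X.pnt .p0 g) = π (X.pnt .p0 g') := by rw [h0, h0, h]
      exact X.pnt_inj .p0 _ _ (π.injective this)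
    have hF : ∀ i ≤ X.m, ∀ g g' : G, g⁻¹ * g' ∈ X.F i ↔ (φ g)⁻¹ * φ g' ∈ X.F i := by
      intro i hi g g'
      rw [← QuotientGroup.eq, ← QuotientGroup.eq]
      have e1 := h6 i (Nat.lt_succ_iff.2 hi) g
      have e2 := h6 i (Nat.lt_succ_iff.2 hi) g'
      constructor
      · intro h
        rw [h] at e1
        exact X.pnt_inj (.ch ⟨i, _⟩) _ _ (e1.symm.trans e2)
      · intro h
        rw [h] at e1
        exact X.pnt_inj (.ch ⟨i, _⟩) _ _ (π.injective (e1.trans e2.symm))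
    obtain ⟨a, ha⟩ := rig φ hbij hF h7 h8
    refine ⟨a, ?_⟩
    rintro ⟨i, c⟩
    cases i with
    | p0 => exact (h0 c).trans (congrArg (X.pnt .p0) (ha c))
    | p1 => exact (h1 c).trans (congrArg (X.pnt .p1) (ha c))
    | p2 => exact (h2 c).trans (congrArg (X.pnt .p2) (ha c))
    | pd i => exact (h3 i c).trans (congrArg (X.pnt (.pd i)) (ha c))
    | q i => exact (h4 i c).trans (congrArg (X.pnt (.q i)) (ha c))
    | nj j =>
      obtain ⟨g, rfl⟩ := QuotientGroup.mk_surjective (s := X.H j) c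
      refine (h5 j g).trans ?_
      rw [ha g]; rfl
    | ch i =>
      obtain ⟨g, rfl⟩ := QuotientGroup.mk_surjective (s := X.F i.1) c
      refine (h6 i.1 i.2 g).trans ?_
      rw [ha g]; rfl)
  refine ⟨L, hL1, hL2, ?_, hL4⟩
  have c1 := X.card_V
  have c2 := X.card_B
  have hs : X.sys.toPLS.s = X.m + 4 + 2 * X.e + X.w := rfl
  rw [hs] at hL3
  have c3 : X.m + 1 ≤ X.sF := by
    unfold sF
    calc X.m + 1 = ∑ i : Fin (X.m + 1), 1 := by simp
      _ ≤ _ := Finset.sum_le_sum (fun i _ => Nat.card_pos)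
  have c4 : X.w ≤ X.sH := by
    unfold sH
    calc X.w = ∑ i : Fin X.w, 1 := by simp
      _ ≤ _ := Finset.sum_le_sum (fun i _ => Nat.card_pos)
  have c5 : 1 ≤ Nat.card G := Nat.card_pos
  have c6 : X.e ≤ X.e * Nat.card G := Nat.le_mul_of_pos_right _ c5
  nlinarith [hL3, c1, c2, c3, c4, c5, c6]

end card

end Dat

end Pool.Agent.H227R3.Lat
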