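import Mathlib

set_option autoImplicit false

/-!
Lattices from coloured partial linear spaces.
-/

namespace Pool.Agent.H227R3.Lat

/-- A coloured partial linear space on the point set `V`. -/
structure PLS (V : Type) where
  col : V → ℕ
  s : ℕ
  col_lt : ∀ v, col v < s
  blocks : Set (Set V)
  two : ∀ b ∈ blocks, ∃ x ∈ b, ∃ y ∈ b, x ≠ y
  inter : ∀ b ∈ blocks, ∀ b' ∈ blocks, b ≠ b' → (b ∩ b').Subsingleton
  thr : ∀ b ∈ blocks, ∀ i : ℕ, b ⊆ {v | i ≤ col v} ∨ (b ∩ {v | i ≤ col v}).Subsingleton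

namespace PLS

variable {V : Type} (X : PLS V)

/-- upper colour class -/
def U (i : ℕ) : Set V := {v | i ≤ X.col v}

lemma U_s : X.U X.s = ∅ := by
  ext v
  simp only [U, Set.mem_ofPred_eq, Set.mem_empty_iff_false, iff_false, not_le]
  exact X.col_lt v

/-- membership in the lattice -/
def Mem (M : ℕ) (x : Set V × ℕ) : Prop :=
  (∃ v, x = ({v}, 0)) ∨ (∃ b ∈ X.blocks, x = (b, 0)) ∨ (∃ t, t ≤ M ∧ x = (∅, t)) ∨
    (∃ i, i ≤ X.s ∧ x = (X.U i, M))

lemma mem_of_subsingleton {M : ℕ} {A : Set V} (h : A.Subsingleton) : X.Mem M (A, 0) := by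
  rcases h.eq_empty_or_singleton with h | ⟨v, h⟩
  · subst h; exact Or.inr (Or.inr (Or.inl ⟨0, Nat.zero_le _, rfl⟩))
  · subst h; exact Or.inl ⟨v, rfl⟩

lemma mem_inf_sing {M : ℕ} (v : V) (y : Set V × ℕ) : X.Mem M (({v}, 0) ⊓ y) := by
  have : (({v}, 0) ⊓ y : Set V × ℕ) = ({v} ∩ y.1, 0) := by
    ext1
    · rfl
    · simp
  rw [this]
  exact X.mem_of_subsingleton (Set.subsingleton_singleton.anti Set.inter_subset_left)

lemma mem_inf_empty {M : ℕ} (t : ℕ) (ht : t ≤ M) (y : Set V × ℕ) : X.Mem M ((∅, t) ⊓ y) := by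
  have : ((∅, t) ⊓ y : Set V × ℕ) = (∅, min t y.2) := by
    ext1
    · simp
    · rfl
  rw [this]
  exact Or.inr (Or.inr (Or.inl ⟨_, (min_le_left _ _).trans ht, rfl⟩))

lemma mem_inf_block {M : ℕ} (b : Set V) (hb : b ∈ X.blocks) (y : Set V × ℕ) (hy : X.Mem M y) :
    X.Mem M ((b, 0) ⊓ y) := by
  rcases hy with ⟨v, rfl⟩ | ⟨b', hb', rfl⟩ | ⟨t, ht, rfl⟩ | ⟨i, hi, rfl⟩
  · rw [inf_comm]; exact X.mem_inf_sing v _
  · by_cases h : b = b'
    · subst h; rw [inf_idem]; exact Or.inr (Or.inl ⟨b, hb, rfl⟩)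
    · have : ((b, 0) ⊓ (b', 0) : Set V × ℕ) = (b ∩ b', 0) := by
        ext1
        · rfl
        · simp
      rw [this]
      exact X.mem_of_subsingleton (X.inter b hb b' hb' h)
  · rw [inf_comm]; exact X.mem_inf_empty t ht _
  · have : ((b, 0) ⊓ (X.U i, M) : Set V × ℕ) = (b ∩ X.U i, 0) := by
      ext1
      · rfl
      · simp
    rw [this]
    rcases X.thr b hb i with h | h
    · rw [Set.inter_eq_left.2 (show b ⊆ X.U i from h)]; exact Or.inr (Or.inl ⟨b, hb, rfl⟩)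
    · exact X.mem_of_subsingleton h

lemma mem_inf {M : ℕ} (x y : Set V × ℕ) (hx : X.Mem M x) (hy : X.Mem M y) :
    X.Mem M (x ⊓ y) := by
  rcases hx with ⟨v, rfl⟩ | ⟨b, hb, rfl⟩ | ⟨t, ht, rfl⟩ | ⟨i, hi, rfl⟩
  · exact X.mem_inf_sing v _
  · exact X.mem_inf_block b hb y hy
  · exact X.mem_inf_empty t ht _
  · rcases hy with ⟨v, rfl⟩ | ⟨b', hb', rfl⟩ | ⟨t, ht, rfl⟩ | ⟨j, hj, rfl⟩
    · rw [inf_comm]; exact X.mem_inf_sing v _
    · rw [inf_comm]; exact X.mem_inf_block b' hb' _ (Or.inr (Or.inr (Or.inr ⟨i, hi, rfl⟩)))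
    · rw [inf_comm]; exact X.mem_inf_empty t ht _
    · have : ((X.U i, M) ⊓ (X.U j, M) : Set V × ℕ) = (X.U (max i j), M) := by
        ext1
        · ext v; simp [U]
        · simp
      rw [this]
      exact Or.inr (Or.inr (Or.inr ⟨_, max_le hi hj, rfl⟩))

/-- the lattice -/
abbrev L (M : ℕ) : Type := {x : Set V × ℕ // X.Mem M x}

lemma le_def {M : ℕ} (x y : X.L M) : x ≤ y ↔ x.1 ≤ y.1 := Iff.rfl

instance instInf (M : ℕ) : SemilatticeInf (X.L M) :=
  { (inferInstance : PartialOrder (X.L M)) with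
    inf := fun x y => ⟨x.1 ⊓ y.1, X.mem_inf _ _ x.2 y.2⟩
    inf_le_left := fun x y => (inf_le_left : x.1 ⊓ y.1 ≤ x.1)
    inf_le_right := fun x y => (inf_le_right : x.1 ⊓ y.1 ≤ y.1)
    le_inf := fun x y z h1 h2 => (le_inf h1 h2 : x.1 ≤ y.1 ⊓ z.1) }

lemma mem_le_M {M : ℕ} (x : X.L M) : x.1.2 ≤ M := by
  obtain ⟨x, hx⟩ := x
  rcases hx with ⟨v, rfl⟩ | ⟨b, hb, rfl⟩ | ⟨t, ht, rfl⟩ | ⟨i, hi, rfl⟩ <;> simp_all

/-- spine elements -/
def sp {M : ℕ} (i : ℕ) (hi : i ≤ X.s) : X.L M := ⟨(X.U i, M), Or.inr (Or.inr (Or.inr ⟨i, hi, rfl⟩))⟩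

def pt (M : ℕ) (v : V) : X.L M := ⟨({v}, 0), Or.inl ⟨v, rfl⟩⟩

def bl (M : ℕ) (b : Set V) (hb : b ∈ X.blocks) : X.L M := ⟨(b, 0), Or.inr (Or.inl ⟨b, hb, rfl⟩)⟩

def ch {M : ℕ} (t : ℕ) (ht : t ≤ M) : X.L M := ⟨(∅, t), Or.inr (Or.inr (Or.inl ⟨t, ht, rfl⟩))⟩

instance (M : ℕ) : OrderTop (X.L M) where
  top := X.sp 0 (Nat.zero_le _)
  le_top x := by
    rw [le_def]
    refine ⟨fun v _ => ?_, X.mem_le_M x⟩
    simp [sp, U]

variable [Finite V]

instance : Finite X.blocks := inferInstance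

/-- the enumeration map -/
def enum (M : ℕ) : V ⊕ X.blocks ⊕ Fin (M + 1) ⊕ Fin (X.s + 1) → X.L M
  | Sum.inl v => X.pt M v
  | Sum.inr (Sum.inl b) => X.bl M b.1 b.2
  | Sum.inr (Sum.inr (Sum.inl t)) => X.ch t.1 (Nat.lt_succ_iff.1 t.2)
  | Sum.inr (Sum.inr (Sum.inr i)) => X.sp i.1 (Nat.lt_succ_iff.1 i.2)

omit [Finite V] in
lemma enum_surj (M : ℕ) : Function.Surjective (X.enum M) := by
  rintro ⟨x, hx⟩
  rcases hx with ⟨v, rfl⟩ | ⟨b, hb, rfl⟩ | ⟨t, ht, rfl⟩ | ⟨i, hi, rfl⟩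
  · exact ⟨Sum.inl v, rfl⟩
  · exact ⟨Sum.inr (Sum.inl ⟨b, hb⟩), rfl⟩
  · exact ⟨Sum.inr (Sum.inr (Sum.inl ⟨t, Nat.lt_succ_iff.2 ht⟩)), rfl⟩
  · exact ⟨Sum.inr (Sum.inr (Sum.inr ⟨i, Nat.lt_succ_iff.2 hi⟩)), rfl⟩

instance (M : ℕ) : Finite (X.L M) := Finite.of_surjective _ (X.enum_surj M)

lemma card_L (M : ℕ) : Nat.card (X.L M) ≤ Nat.card V + Nat.card X.blocks + (M + 1) + (X.s + 1) := by
  have := Nat.card_le_card_of_surjective _ (X.enum_surj M)
  refine this.trans ?_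
  rw [Nat.card_sum, Nat.card_sum, Nat.card_sum]
  simp only [Nat.card_eq_fintype_card, Fintype.card_fin]
  omega


open Classical in
noncomputable instance instLat (M : ℕ) : Lattice (X.L M) :=
  letI : Fintype (X.L M) := Fintype.ofFinite _
  { (inferInstance : SemilatticeInf (X.L M)) with
    sup := fun a b => (Finset.univ.filter (fun c => a ≤ c ∧ b ≤ c)).inf id
    le_sup_left := fun _ _ => Finset.le_inf (fun _ hc => (Finset.mem_filter.1 hc).2.1)
    le_sup_right := fun _ _ => Finset.le_inf (fun _ hc => (Finset.mem_filter.1 hc).2.2)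
    sup_le := fun _ _ _ h1 h2 => Finset.inf_le (f := id) (Finset.mem_filter.2 ⟨Finset.mem_univ _, h1, h2⟩) }

/-! ### automorphisms -/

/-- number of elements below -/
noncomputable def ht {M : ℕ} (x : X.L M) : ℕ := Nat.card (Set.Iic x)

lemma ht_map {M : ℕ} (φ : X.L M ≃o X.L M) (x : X.L M) : X.ht (φ x) = X.ht x := by
  unfold ht
  refine Nat.card_congr ⟨fun y => ⟨φ.symm y.1, ?_⟩, fun y => ⟨φ y.1, ?_⟩, ?_, ?_⟩
  · have := y.2
    simp only [Set.mem_Iic] at this ⊢
    rwa [OrderIso.symm_apply_le]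
  · have := y.2
    simp only [Set.mem_Iic] at this ⊢
    exact φ.monotone this
  · intro y; simp
  · intro y; simp

lemma ht_lt {M : ℕ} {x y : X.L M} (h : x < y) : X.ht x < X.ht y := by
  unfold ht
  have h1 : Set.Iic x ⊂ Set.Iic y := by
    refine ⟨Set.Iic_subset_Iic.2 h.le, fun h2 => ?_⟩
    exact absurd (h2 (Set.mem_Iic.2 le_rfl)) (by simpa using h.not_ge)
  exact Set.ncard_lt_ncard h1 (Set.toFinite _)

lemma fix_of_comparable {M : ℕ} (φ : X.L M ≃o X.L M) (x : X.L M) (h : x ≤ φ x ∨ φ x ≤ x) :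
    φ x = x := by
  rcases h with h | h
  · rcases h.lt_or_eq with h | h
    · exact absurd (X.ht_lt h) (by rw [X.ht_map]; exact lt_irrefl _)
    · exact h.symm
  · rcases h.lt_or_eq with h | h
    · exact absurd (X.ht_lt h) (by rw [X.ht_map]; exact lt_irrefl _)
    · exact h

lemma ht_big {M : ℕ} (x : X.L M) (hx : x.1.2 = M) : M + 1 ≤ X.ht x := by
  unfold ht
  have : Function.Injective (fun t : Fin (M + 1) => (⟨X.ch t.1 (Nat.lt_succ_iff.1 t.2), by
      rw [Set.mem_Iic, le_def]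
      refine ⟨by simp [ch], ?_⟩
      rw [hx]; exact Nat.lt_succ_iff.1 t.2⟩ : Set.Iic x)) := by
    intro s t h
    have h' := congrArg (fun z : Set.Iic x => z.1.1.2) h
    simp only [ch] at h'
    exact Fin.ext h'
  have := Nat.card_le_card_of_injective _ this
  rw [Nat.card_eq_fintype_card, Fintype.card_fin] at this
  exact this

open Classical in
lemma ht_small {M : ℕ} (hM : Nat.card V + 2 ≤ M) (x : X.L M) (hx : x.1.2 ≠ M) : X.ht x ≤ M := by
  unfold ht
  have key : ∀ (A : Set V), x.1 = (A, 0) → Nat.card (Set.Iic x) ≤ M := by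
    intro A hA
    have hinj : Function.Surjective (fun o : Option (Option V) => (match o with
      | none => (⟨x, Set.mem_Iic.2 le_rfl⟩ : Set.Iic x)
      | some none => ⟨X.ch 0 (Nat.zero_le _), by
          rw [Set.mem_Iic, le_def, hA]; exact ⟨by simp [ch], le_rfl⟩⟩
      | some (some v) => if h : v ∈ A then ⟨X.pt M v, by
          rw [Set.mem_Iic, le_def, hA]
          exact ⟨Set.singleton_subset_iff.2 h, le_rfl⟩⟩ else (⟨x, Set.mem_Iic.2 le_rfl⟩ : Set.Iic x))) := by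
      rintro ⟨y, hy⟩
      rw [Set.mem_Iic, le_def, hA] at hy
      have hy2 : y.1.2 = 0 := Nat.le_zero.1 hy.2
      obtain ⟨y, hym⟩ := y
      rcases hym with ⟨v, rfl⟩ | ⟨b, hb, rfl⟩ | ⟨t, ht, rfl⟩ | ⟨i, hi, rfl⟩
      · have hv : v ∈ A := Set.singleton_subset_iff.1 hy.1
        refine ⟨some (some v), ?_⟩
        simp only [hv, dif_pos]
        rfl
      · refine ⟨none, ?_⟩
        have hbA : b = A := by
          obtain ⟨x, hxm⟩ := x
          simp only at hA
          subst hA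
          rcases hxm with ⟨v, hv⟩ | ⟨b', hb', hv⟩ | ⟨t, ht, hv⟩ | ⟨i, hi, hv⟩
          · exfalso
            simp only [Prod.mk.injEq, and_true] at hv
            subst hv
            obtain ⟨p, hp, q, hq, hpq⟩ := X.two b hb
            exact hpq ((Set.mem_singleton_iff.1 (hy.1 hp)).trans (Set.mem_singleton_iff.1 (hy.1 hq)).symm)
          · simp only [Prod.mk.injEq, and_true] at hv
            subst hv
            by_contra hne
            obtain ⟨p, hp, q, hq, hpq⟩ := X.two b hb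
            exact hpq (X.inter b hb A hb' hne ⟨hp, hy.1 hp⟩ ⟨hq, hy.1 hq⟩)
          · exfalso
            simp only [Prod.mk.injEq] at hv
            obtain ⟨rfl, -⟩ := hv
            obtain ⟨p, hp, q, hq, hpq⟩ := X.two b hb
            exact hy.1 hp
          · exfalso
            simp only [Prod.mk.injEq] at hv
            exact hx hv.2
        subst hbA
        apply Subtype.ext
        apply Subtype.ext
        exact hA
      · refine ⟨some none, ?_⟩
        apply Subtype.ext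
        apply Subtype.ext
        simp only [ch]
        simp only at hy2
        rw [hy2]
      · exfalso
        simp only at hy2
        omega
    have h6 : Nat.card (Set.Iic x) ≤ Nat.card (Option (Option V)) :=
      Nat.card_le_card_of_surjective _ hinj
    have h7 : Nat.card (Option (Option V)) = Nat.card V + 2 := by
      rw [Finite.card_option, Finite.card_option]
    rw [h7] at h6
    exact h6.trans hM
  obtain ⟨x, hxm⟩ := x
  rcases hxm with ⟨v, rfl⟩ | ⟨b, hb, rfl⟩ | ⟨t, ht, rfl⟩ | ⟨i, hi, rfl⟩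
  · exact key _ rfl
  · exact key _ rfl
  · have htM : t < M := lt_of_le_of_ne ht hx
    have hinj : Function.Injective (fun y : Set.Iic (⟨(∅, t), Or.inr (Or.inr (Or.inl ⟨t, ht, rfl⟩))⟩ : X.L M) =>
        (⟨y.1.1.2, Nat.lt_succ_iff.2 y.2.2⟩ : Fin (t + 1))) := by
      intro y z h
      have h2 : y.1.1.2 = z.1.1.2 := congrArg Fin.val h
      have h1 : y.1.1.1 = z.1.1.1 := by
        have e1 : y.1.1.1 = ∅ := Set.subset_empty_iff.1 y.2.1
        have e2 : z.1.1.1 = ∅ := Set.subset_empty_iff.1 z.2.1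
        rw [e1, e2]
      exact Subtype.ext (Subtype.ext (Prod.ext h1 h2))
    have := Nat.card_le_card_of_injective _ hinj
    rw [Nat.card_eq_fintype_card (α := Fin (t + 1)), Fintype.card_fin] at this
    omega
  · exact absurd rfl hx

lemma fix_big {M : ℕ} (hM : Nat.card V + 2 ≤ M) (φ : X.L M ≃o X.L M) (x : X.L M)
    (hx : x.1.2 = M) : φ x = x := by
  have h2 : (φ x).1.2 = M := by
    by_contra h
    have h1 := X.ht_small hM (φ x) h
    rw [X.ht_map] at h1
    have := X.ht_big x hx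
    omega
  apply X.fix_of_comparable
  have hMpos : M ≠ 0 := by omega
  have key : ∀ y : X.L M, y.1.2 = M → ∃ i, i ≤ X.s ∧ y.1 = (X.U i, M) := by
    rintro ⟨y, hy⟩ h
    rcases hy with ⟨v, rfl⟩ | ⟨b, hb, rfl⟩ | ⟨t, ht, rfl⟩ | ⟨i, hi, rfl⟩
    · exact absurd h.symm hMpos
    · exact absurd h.symm hMpos
    · exact ⟨X.s, le_rfl, by rw [X.U_s]; exact Prod.ext rfl h⟩
    · exact ⟨i, hi, rfl⟩
  obtain ⟨i, hi, ei⟩ := key x hx
  obtain ⟨j, hj, ej⟩ := key _ h2
  rw [le_def, le_def, ei, ej]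
  rcases le_total i j with h | h
  · right
    exact ⟨fun v (hv : j ≤ X.col v) => (h.trans hv : i ≤ X.col v), le_rfl⟩
  · left
    exact ⟨fun v (hv : i ≤ X.col v) => (h.trans hv : j ≤ X.col v), le_rfl⟩

lemma fix_ch {M : ℕ} (hM : Nat.card V + 2 ≤ M) (φ : X.L M ≃o X.L M) (x : X.L M)
    (hx : x.1.1 = ∅) : φ x = x := by
  have h1 : φ (X.ch M le_rfl) = X.ch M le_rfl := X.fix_big hM φ _ rfl
  have h2 : φ x ≤ X.ch M le_rfl := by
    rw [← h1]
    apply φ.monotone
    rw [le_def]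
    exact ⟨by rw [hx]; exact Set.empty_subset _, X.mem_le_M x⟩
  have h3 : (φ x).1.1 = ∅ := Set.subset_empty_iff.1 h2.1
  apply X.fix_of_comparable
  rw [le_def, le_def]
  rcases le_total x.1.2 (φ x).1.2 with h | h
  · left; exact ⟨by rw [hx]; exact Set.empty_subset _, h⟩
  · right; exact ⟨by rw [h3]; exact Set.empty_subset _, h⟩

lemma not_empty_of {M : ℕ} (hM : Nat.card V + 2 ≤ M) (φ : X.L M ≃o X.L M) (x : X.L M)
    (hx : x.1.1 ≠ ∅) : (φ x).1.1 ≠ ∅ := by
  intro h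
  have := X.fix_ch hM φ.symm (φ x) h
  simp only [OrderIso.symm_apply_apply] at this
  rw [this] at hx
  exact hx h

lemma not_big_of {M : ℕ} (hM : Nat.card V + 2 ≤ M) (φ : X.L M ≃o X.L M) (x : X.L M)
    (hx : x.1.2 ≠ M) : (φ x).1.2 ≠ M := by
  intro h
  have := X.fix_big hM φ.symm (φ x) h
  simp only [OrderIso.symm_apply_apply] at this
  rw [this] at hx
  exact hx h

lemma map_pt_aux {M : ℕ} (hM : Nat.card V + 2 ≤ M) (φ : X.L M ≃o X.L M) (v : V) :
    ∃ w, φ (X.pt M v) = X.pt M w := by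
  have h1 : (φ (X.pt M v)).1.1 ≠ ∅ := X.not_empty_of hM φ _ (by simp [pt])
  have h2 : (φ (X.pt M v)).1.2 ≠ M := X.not_big_of hM φ _ (by simp [pt]; omega)
  generalize hy : φ (X.pt M v) = y at *
  obtain ⟨y, hym⟩ := y
  rcases hym with ⟨w, rfl⟩ | ⟨b, hb, rfl⟩ | ⟨t, ht, rfl⟩ | ⟨i, hi, rfl⟩
  · exact ⟨w, rfl⟩
  · exfalso
    obtain ⟨p, hp, q, hq, hpq⟩ := X.two b hb
    have hlt : X.pt M p ≤ φ (X.pt M v) := by
      rw [hy, le_def]; exact ⟨Set.singleton_subset_iff.2 hp, le_rfl⟩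
    have hne : X.pt M p ≠ φ (X.pt M v) := by
      rw [hy]
      intro h
      have := congrArg (fun z : X.L M => z.1.1) h
      simp only [pt] at this
      rw [← this] at hq
      exact hpq (Set.mem_singleton_iff.1 hq).symm
    have h3 : φ.symm (X.pt M p) ≤ X.pt M v := by rwa [OrderIso.symm_apply_le]
    have h4 : (φ.symm (X.pt M p)).1.1 ≠ ∅ := X.not_empty_of hM φ.symm _ (by simp [pt])
    have h5 : (φ.symm (X.pt M p)).1.1 = {v} := by
      rcases Set.subset_singleton_iff_eq.1 h3.1 with h | h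
      · exact absurd h h4
      · exact h
    have h6 : (φ.symm (X.pt M p)).1.2 = 0 := Nat.le_zero.1 h3.2
    have h7 : φ.symm (X.pt M p) = X.pt M v := Subtype.ext (Prod.ext h5 h6)
    apply hne
    rw [← h7]; simp
  · exact absurd rfl h1
  · exact absurd rfl h2

/-- the induced map on points -/
noncomputable def pm {M : ℕ} (hM : Nat.card V + 2 ≤ M) (φ : X.L M ≃o X.L M) (v : V) : V :=
  (X.map_pt_aux hM φ v).choose

lemma pm_spec {M : ℕ} (hM : Nat.card V + 2 ≤ M) (φ : X.L M ≃o X.L M) (v : V) :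
    φ (X.pt M v) = X.pt M (X.pm hM φ v) := (X.map_pt_aux hM φ v).choose_spec

omit [Finite V] in
lemma pt_inj {M : ℕ} {v w : V} (h : X.pt M v = X.pt M w) : v = w := by
  have := congrArg (fun z : X.L M => z.1.1) h
  simpa [pt] using this

noncomputable def pe {M : ℕ} (hM : Nat.card V + 2 ≤ M) (φ : X.L M ≃o X.L M) : Equiv.Perm V where
  toFun := X.pm hM φ
  invFun := X.pm hM φ.symm
  left_inv v := by
    apply X.pt_inj (M := M)
    rw [← X.pm_spec, ← X.pm_spec]; simp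
  right_inv v := by
    apply X.pt_inj (M := M)
    rw [← X.pm_spec, ← X.pm_spec]; simp

omit [Finite V] in
lemma pt_le_sp {M : ℕ} (v : V) (i : ℕ) (hi : i ≤ X.s) : X.pt M v ≤ X.sp i hi ↔ i ≤ X.col v := by
  rw [le_def]
  constructor
  · intro h
    have h1 : ({v} : Set V) ⊆ X.U i := h.1
    have h2 : v ∈ X.U i := Set.singleton_subset_iff.1 h1
    exact h2
  · intro h
    have h1 : ({v} : Set V) ⊆ X.U i := Set.singleton_subset_iff.2 h
    exact ⟨h1, Nat.zero_le _⟩

lemma pm_col {M : ℕ} (hM : Nat.card V + 2 ≤ M) (φ : X.L M ≃o X.L M) (v : V) :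
    X.col (X.pm hM φ v) = X.col v := by
  have key : ∀ i, i ≤ X.s → (i ≤ X.col (X.pm hM φ v) ↔ i ≤ X.col v) := by
    intro i hi
    rw [← X.pt_le_sp (M := M) _ i hi, ← X.pt_le_sp (M := M) _ i hi, ← X.pm_spec]
    conv_lhs => rw [← X.fix_big hM φ (X.sp i hi) rfl]
    exact φ.le_iff_le
  apply le_antisymm
  · exact (key _ (X.col_lt _).le).1 le_rfl
  · exact (key _ (X.col_lt _).le).2 le_rfl

lemma map_bl {M : ℕ} (hM : Nat.card V + 2 ≤ M) (φ : X.L M ≃o X.L M) (b : Set V)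
    (hb : b ∈ X.blocks) :
    ∃ h : X.pe hM φ '' b ∈ X.blocks, φ (X.bl M b hb) = X.bl M (X.pe hM φ '' b) h := by
  have h1 : (φ (X.bl M b hb)).1.1 ≠ ∅ := X.not_empty_of hM φ _ (by
    obtain ⟨p, hp, -⟩ := X.two b hb
    exact Set.Nonempty.ne_empty ⟨p, hp⟩)
  have h2 : (φ (X.bl M b hb)).1.2 ≠ M := X.not_big_of hM φ _ (by simp [bl]; omega)
  generalize hy : φ (X.bl M b hb) = y at *
  obtain ⟨y, hym⟩ := y
  rcases hym with ⟨w, rfl⟩ | ⟨b', hb', rfl⟩ | ⟨t, ht, rfl⟩ | ⟨i, hi, rfl⟩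
  · exfalso
    have h3 : X.bl M b hb = φ.symm (X.pt M w) := by
      rw [eq_comm, OrderIso.symm_apply_eq, hy]; rfl
    rw [X.pm_spec hM] at h3
    obtain ⟨p, hp, q, hq, hpq⟩ := X.two b hb
    have h4 := congrArg (fun z : X.L M => z.1.1) h3
    simp only [bl, pt] at h4
    rw [h4] at hp hq
    exact hpq ((Set.mem_singleton_iff.1 hp).trans (Set.mem_singleton_iff.1 hq).symm)
  · have key : X.pe hM φ '' b = b' := by
      ext w
      constructor
      · rintro ⟨v, hv, rfl⟩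
        have : X.pt M v ≤ X.bl M b hb := by
          rw [le_def]; exact ⟨Set.singleton_subset_iff.2 hv, le_rfl⟩
        have := φ.monotone this
        rw [hy, X.pm_spec hM] at this
        exact Set.singleton_subset_iff.1 this.1
      · intro hw
        refine ⟨(X.pe hM φ).symm w, ?_, by simp⟩
        have h3 : X.pt M w ≤ φ (X.bl M b hb) := by
          rw [hy, le_def]; exact ⟨Set.singleton_subset_iff.2 hw, le_rfl⟩
        have h4 : φ.symm (X.pt M w) ≤ X.bl M b hb := by rwa [OrderIso.symm_apply_le]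
        rw [X.pm_spec hM] at h4
        exact Set.singleton_subset_iff.1 h4.1
    subst key
    exact ⟨hb', rfl⟩
  · exact absurd rfl h1
  · exact absurd rfl h2

/-! ### the group action -/

section act

variable (G : Type) [Group G] [MulAction G V]
  (hcol : ∀ (g : G) (v : V), X.col (g • v) = X.col v)
  (hbl : ∀ (g : G), ∀ b ∈ X.blocks, (fun v => g • v) '' b ∈ X.blocks)

include hcol hbl in
omit [Finite V] in
lemma act_mem {M : ℕ} (g : G) (x : Set V × ℕ) (hx : X.Mem M x) :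
    X.Mem M ((fun v => g • v) '' x.1, x.2) := by
  rcases hx with ⟨v, rfl⟩ | ⟨b, hb, rfl⟩ | ⟨t, ht, rfl⟩ | ⟨i, hi, rfl⟩
  · exact Or.inl ⟨g • v, by simp⟩
  · exact Or.inr (Or.inl ⟨_, hbl g b hb, rfl⟩)
  · exact Or.inr (Or.inr (Or.inl ⟨t, ht, by simp⟩))
  · refine Or.inr (Or.inr (Or.inr ⟨i, hi, ?_⟩))
    refine Prod.ext ?_ rfl
    ext w
    constructor
    · rintro ⟨v, hv, rfl⟩
      have hv' : i ≤ X.col v := hv
      show i ≤ X.col (g • v)
      rw [hcol]; exact hv'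
    · intro hw
      have hw' : i ≤ X.col w := hw
      refine ⟨g⁻¹ • w, ?_, by simp⟩
      show i ≤ X.col (g⁻¹ • w)
      rw [hcol]; exact hw'

omit [Finite V] in
lemma image_smul_smul (g h : G) (A : Set V) :
    (fun v => g • v) '' ((fun v => h • v) '' A) = (fun v => (g * h) • v) '' A := by
  rw [Set.image_image]
  simp only [mul_smul]

/-- the action as order isomorphisms -/
def actIso {M : ℕ} (g : G) : X.L M ≃o X.L M where
  toFun x := ⟨((fun v => g • v) '' x.1.1, x.1.2), X.act_mem G hcol hbl g x.1 x.2⟩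
  invFun x := ⟨((fun v => g⁻¹ • v) '' x.1.1, x.1.2), X.act_mem G hcol hbl g⁻¹ x.1 x.2⟩
  left_inv x := by
    apply Subtype.ext
    apply Prod.ext
    · show (fun v => g⁻¹ • v) '' ((fun v => g • v) '' x.1.1) = x.1.1
      rw [image_smul_smul]; simp
    · rfl
  right_inv x := by
    apply Subtype.ext
    apply Prod.ext
    · show (fun v => g • v) '' ((fun v => g⁻¹ • v) '' x.1.1) = x.1.1
      rw [image_smul_smul]; simp
    · rfl
  map_rel_iff' := by
    intro x y
    show ((fun v => g • v) '' x.1.1 ⊆ (fun v => g • v) '' y.1.1 ∧ x.1.2 ≤ y.1.2) ↔ x.1.1 ⊆ y.1.1 ∧ x.1.2 ≤ y.1.2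
    rw [Set.image_subset_image_iff (MulAction.injective g)]

def actHom {M : ℕ} : G →* (X.L M ≃o X.L M) where
  toFun g := X.actIso G hcol hbl g
  map_one' := by
    refine RelIso.ext fun x => ?_
    apply Subtype.ext
    apply Prod.ext
    · show (fun v => (1 : G) • v) '' x.1.1 = x.1.1
      simp
    · rfl
  map_mul' g h := by
    refine RelIso.ext fun x => ?_
    apply Subtype.ext
    apply Prod.ext
    · show (fun v => (g * h) • v) '' x.1.1 = (fun v => g • v) '' ((fun v => h • v) '' x.1.1)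
      rw [image_smul_smul]
    · rfl

end act

theorem exists_lattice (G : Type) [Group G] [MulAction G V]
    (hcol : ∀ (g : G) (v : V), X.col (g • v) = X.col v)
    (hbl : ∀ (g : G), ∀ b ∈ X.blocks, (fun v => g • v) '' b ∈ X.blocks)
    (hfaith : ∀ g : G, (∀ v : V, g • v = v) → g = 1)
    (hfull : ∀ π : Equiv.Perm V, (∀ v, X.col (π v) = X.col v) →
      (∀ b ∈ X.blocks, π '' b ∈ X.blocks) → ∃ g : G, ∀ v, π v = g • v) :
    ∃ (L : Type) (_ : Lattice L) (_ : Finite L),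
      Nat.card L ≤ 2 * Nat.card V + Nat.card X.blocks + X.s + 4 ∧ Nonempty ((L ≃o L) ≃* G) := by
  set M := Nat.card V + 2 with hMdef
  have hM : Nat.card V + 2 ≤ M := le_rfl
  refine ⟨X.L M, X.instLat M, inferInstance, ?_, ?_⟩
  · have := X.card_L M
    omega
  · refine ⟨(MulEquiv.ofBijective (X.actHom G hcol hbl (M := M)) ⟨?_, ?_⟩).symm⟩
    · rw [injective_iff_map_eq_one]
      intro g hg
      apply hfaith
      intro v
      have h1 : X.actHom G hcol hbl (M := M) g (X.pt M v) = X.pt M v := by rw [hg]; rfl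
      have h2 := congrArg (fun z : X.L M => z.1.1) h1
      have h3 : (fun v => g • v) '' {v} = ({v} : Set V) := h2
      rw [Set.image_singleton] at h3
      exact Set.singleton_eq_singleton_iff.1 h3
    · intro φ
      obtain ⟨g, hg⟩ := hfull (X.pe hM φ) (fun v => X.pm_col hM φ v)
        (fun b hb => (X.map_bl hM φ b hb).1)
      refine ⟨g, ?_⟩
      refine RelIso.ext fun x => ?_
      obtain ⟨x, hx⟩ := x
      have e : (fun v => g • v) = (X.pe hM φ : V → V) := funext (fun v => (hg v).symm)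
      rcases hx with ⟨v, rfl⟩ | ⟨b, hb, rfl⟩ | ⟨t, ht, rfl⟩ | ⟨i, hi, rfl⟩
      · have h1 : φ (X.pt M v) = X.pt M (X.pm hM φ v) := X.pm_spec hM φ v
        show X.actHom G hcol hbl g (X.pt M v) = φ (X.pt M v)
        rw [h1]
        apply Subtype.ext
        apply Prod.ext
        · show (fun v => g • v) '' {v} = {X.pm hM φ v}
          rw [e, Set.image_singleton]; rfl
        · rfl
      · obtain ⟨h1, h2⟩ := X.map_bl hM φ b hb
        show X.actHom G hcol hbl g (X.bl M b hb) = φ (X.bl M b hb)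
        rw [h2]
        apply Subtype.ext
        apply Prod.ext
        · show (fun v => g • v) '' b = X.pe hM φ '' b
          rw [e]
        · rfl
      · show X.actHom G hcol hbl g (X.ch t ht) = φ (X.ch t ht)
        rw [X.fix_ch hM φ _ rfl]
        apply Subtype.ext
        apply Prod.ext
        · show (fun v => g • v) '' ∅ = ∅
          simp
        · rfl
      · show X.actHom G hcol hbl g (X.sp i hi) = φ (X.sp i hi)
        rw [X.fix_big hM φ _ rfl, X.fix_big hM _ _ rfl]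

end PLS

end Pool.Agent.H227R3.Lat
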