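import Mathlib

set_option autoImplicit false

/-!
Sidon sets from irredundant generating sets of odd prime power order elements.
-/

namespace Pool.Agent.H227R3.Lat

lemma sq_ne_one_aux {G : Type} [Group G] (X w : G) (k l : ℕ) (hkl : k < l)
    (hcop : (l - k).Coprime (orderOf X)) (h1 : (X ^ k * w) ^ 2 = 1) (h2 : (X ^ l * w) ^ 2 = 1) :
    w ^ 2 = 1 := by
  set z := X ^ k * w with hz
  have hzz : z * z = 1 := by rw [← sq]; exact h1
  have hzi : z⁻¹ = z := inv_eq_of_mul_eq_one_left hzz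
  set d := l - k with hd
  have h3 : X ^ l * w = X ^ d * z := by
    rw [hz, ← mul_assoc, ← pow_add]; congr 2; omega
  rw [h3, sq] at h2
  have h4 : z * X ^ d * z⁻¹ = (X ^ d)⁻¹ := by
    rw [hzi]
    have : X ^ d * (z * X ^ d * z) = 1 := by rw [← h2]; group
    exact (inv_eq_of_mul_eq_one_right this).symm
  obtain ⟨c, hc⟩ := exists_pow_eq_self_of_coprime hcop
  have h5 : z * X * z⁻¹ = X⁻¹ := by
    calc z * X * z⁻¹ = z * (X ^ d) ^ c * z⁻¹ := by rw [hc]
      _ = (z * X ^ d * z⁻¹) ^ c := (conj_pow).symm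
      _ = ((X ^ d)⁻¹) ^ c := by rw [h4]
      _ = X⁻¹ := by rw [inv_pow, hc]
  have h6 : z * (X ^ k)⁻¹ * z⁻¹ = X ^ k := by
    have : z * (X ^ k)⁻¹ * z⁻¹ = ((z * X * z⁻¹) ^ k)⁻¹ := by rw [conj_pow]; group
    rw [this, h5]; simp
  have hw : w = (X ^ k)⁻¹ * z := by rw [hz]; group
  rw [sq, hw]
  calc (X ^ k)⁻¹ * z * ((X ^ k)⁻¹ * z) = (X ^ k)⁻¹ * (z * (X ^ k)⁻¹ * z⁻¹) * (z * z) := by group
    _ = 1 := by rw [h6, hzz]; group

lemma exists_powers {G : Type} [Group G] (y : ℕ → G) (P : Finset ℕ) :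
    (∀ p ∈ P, p.Prime ∧ p ≠ 2) → (∀ p ∈ P, ∃ e, orderOf (y p) = p ^ e) → (∀ p ∈ P, y p ≠ 1) →
    ∃ k : ℕ → ℕ, (∀ p ∈ P, 1 ≤ k p ∧ k p < p) ∧
      ∀ p ∈ P, ∀ q ∈ P, p ≠ q → (y p ^ k p * (y q ^ k q)⁻¹) ^ 2 ≠ 1 := by
  classical
  induction P using Finset.induction_on_max with
  | empty => intro _ _ _; exact ⟨fun _ => 1, by simp, by simp⟩
  | insert a s hlt ih =>
    intro hP hy hy1
    obtain ⟨k, hk1, hk2⟩ := ih (fun p hp => hP p (Finset.mem_insert_of_mem hp))
      (fun p hp => hy p (Finset.mem_insert_of_mem hp)) (fun p hp => hy1 p (Finset.mem_insert_of_mem hp))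
    have has : a ∉ s := fun h => lt_irrefl _ (hlt a h)
    have haP := hP a (Finset.mem_insert_self a s)
    obtain ⟨ea, hea⟩ := hy a (Finset.mem_insert_self a s)
    obtain ⟨ka, hka, hka2⟩ : ∃ ka ∈ Finset.Ico 1 a, ∀ q ∈ s, (y a ^ ka * (y q ^ k q)⁻¹) ^ 2 ≠ 1 := by
      by_contra hcon
      push Not at hcon
      choose! f hf1 hf2 using hcon
      have hcards : s.card ≤ a - 3 := by
        have : s ⊆ Finset.Ico 3 a := by
          intro q hq
          rw [Finset.mem_Ico]
          refine ⟨?_, hlt q hq⟩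
          have h1 := hP q (Finset.mem_insert_of_mem hq)
          have h2 := h1.1.two_le
          have h3 := h1.2
          omega
        have := Finset.card_le_card this
        rwa [Nat.card_Ico] at this
      have ha3 : 3 ≤ a := by
        have h2 := haP.1.two_le
        have h3 := haP.2
        omega
      have hlt' : s.card < (Finset.Ico 1 a).card := by
        rw [Nat.card_Ico]; omega
      obtain ⟨u, hu, v, hv, huv, hfe⟩ := Finset.exists_ne_map_eq_of_card_lt_of_maps_to hlt'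
        (fun x hx => hf1 x hx)
      have main : ∀ u v : ℕ, u ∈ Finset.Ico 1 a → v ∈ Finset.Ico 1 a → u < v → f u = f v → False := by
        intro u v hu hv huv hfe
        rw [Finset.mem_Ico] at hu hv
        set q := f u with hq
        have hqs : q ∈ s := hf1 u (Finset.mem_Ico.2 hu)
        have g1 := hf2 u (Finset.mem_Ico.2 hu)
        have g2 := hf2 v (Finset.mem_Ico.2 hv)
        rw [← hfe] at g2
        have hcop : (v - u).Coprime (orderOf (y a)) := by
          rw [hea]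
          apply Nat.Coprime.pow_right
          apply Nat.Coprime.symm
          rw [haP.1.coprime_iff_not_dvd]
          intro hd
          have := Nat.le_of_dvd (by omega) hd
          omega
        have hw := sq_ne_one_aux (y a) (y q ^ k q)⁻¹ u v huv hcop g1 g2
        rw [inv_pow, inv_eq_one] at hw
        have hqP := hP q (Finset.mem_insert_of_mem hqs)
        obtain ⟨eq, heq⟩ := hy q (Finset.mem_insert_of_mem hqs)
        have h2 : (y q ^ k q) ^ (q ^ eq) = 1 := by
          rw [← pow_mul, mul_comm, pow_mul, ← heq, pow_orderOf_eq_one, one_pow]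
        have hcop2 : Nat.Coprime 2 (q ^ eq) := by
          apply Nat.Coprime.pow_right
          rw [Nat.coprime_primes Nat.prime_two hqP.1]
          exact fun h => hqP.2 h.symm
        have h3 : y q ^ k q = 1 := by
          have h4 : orderOf (y q ^ k q) ∣ 1 := by
            rw [← hcop2]
            exact Nat.dvd_gcd (orderOf_dvd_of_pow_eq_one hw) (orderOf_dvd_of_pow_eq_one h2)
          exact orderOf_eq_one_iff.1 (Nat.dvd_one.1 h4)
        have h5 : orderOf (y q) ∣ k q := orderOf_dvd_of_pow_eq_one h3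
        have hk := hk1 q hqs
        have hcop3 : Nat.Coprime (q ^ eq) (k q) := by
          apply Nat.Coprime.pow_left
          rw [hqP.1.coprime_iff_not_dvd]
          intro hd
          have := Nat.le_of_dvd (by omega) hd
          omega
        rw [heq] at h5
        have h6 : q ^ eq = 1 := Nat.Coprime.eq_one_of_dvd hcop3 h5
        rw [h6] at heq
        exact hy1 q (Finset.mem_insert_of_mem hqs) (orderOf_eq_one_iff.1 heq)
      rcases lt_or_gt_of_ne huv with h | h
      · exact main u v hu hv h hfe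
      · exact main v u hv hu h hfe.symm
    rw [Finset.mem_Ico] at hka
    have hsymm : ∀ u v : G, (u * v⁻¹) ^ 2 ≠ 1 → (v * u⁻¹) ^ 2 ≠ 1 := by
      intro u v h h'
      apply h
      have : u * v⁻¹ = (v * u⁻¹)⁻¹ := by group
      rw [this, inv_pow, h', inv_one]
    refine ⟨Function.update k a ka, ?_, ?_⟩
    · intro p hp
      by_cases hpa : p = a
      · subst hpa; rw [Function.update_self]; exact hka
      · rw [Function.update_of_ne hpa]
        exact hk1 p ((Finset.mem_insert.1 hp).resolve_left hpa)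
    · intro p hp q hq hpq
      by_cases hpa : p = a
      · subst hpa
        rw [Function.update_self, Function.update_of_ne (Ne.symm hpq)]
        exact hka2 q ((Finset.mem_insert.1 hq).resolve_left (Ne.symm hpq))
      · rw [Function.update_of_ne hpa]
        have hp' := (Finset.mem_insert.1 hp).resolve_left hpa
        by_cases hqa : q = a
        · subst hqa
          rw [Function.update_self]
          exact hsymm _ _ (hka2 p hp')
        · rw [Function.update_of_ne hqa]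
          exact hk2 p hp' q ((Finset.mem_insert.1 hq).resolve_left hqa) hpq

lemma sidon {G : Type} [Group G] {n : ℕ} (z : Fin n → G)
    (irr : ∀ i, z i ∉ Subgroup.closure (z '' {j | j ≠ i}))
    (I : Set (Fin n)) (hI : ∀ i ∈ I, ∀ j ∈ I, i ≠ j → (z i * (z j)⁻¹) ^ 2 ≠ 1) (g g' : G)
    (hgg : g ≠ g') :
    ({y | ∃ w ∈ z '' I, y = g * w} ∩ {y | ∃ w ∈ z '' I, y = g' * w}).Subsingleton := by
  have hmem : ∀ i j, j ≠ i → z j ∈ Subgroup.closure (z '' {j | j ≠ i}) := fun i j h =>
    Subgroup.subset_closure ⟨j, h, rfl⟩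
  rintro a ⟨⟨_, ⟨i1, h1, rfl⟩, e1⟩, ⟨_, ⟨i2, h2, rfl⟩, e2⟩⟩ b
    ⟨⟨_, ⟨i3, h3, rfl⟩, e3⟩, ⟨_, ⟨i4, h4, rfl⟩, e4⟩⟩
  by_contra hab
  have n13 : i1 ≠ i3 := fun h => hab (by rw [e1, e3, h])
  have n24 : i2 ≠ i4 := fun h => hab (by rw [e2, e4, h])
  have n12 : i1 ≠ i2 := fun h => hgg (by
    have := e1.symm.trans e2
    rw [h] at this
    exact mul_right_cancel this)
  have n34 : i3 ≠ i4 := fun h => hgg (by
    have := e3.symm.trans e4
    rw [h] at this
    exact mul_right_cancel this)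
  have q1 : g'⁻¹ * g = z i2 * (z i1)⁻¹ := by
    have := e1.symm.trans e2
    calc g'⁻¹ * g = g'⁻¹ * (g * z i1) * (z i1)⁻¹ := by group
      _ = g'⁻¹ * (g' * z i2) * (z i1)⁻¹ := by rw [this]
      _ = _ := by group
  have q2 : g'⁻¹ * g = z i4 * (z i3)⁻¹ := by
    have := e3.symm.trans e4
    calc g'⁻¹ * g = g'⁻¹ * (g * z i3) * (z i3)⁻¹ := by group
      _ = g'⁻¹ * (g' * z i4) * (z i3)⁻¹ := by rw [this]
      _ = _ := by group
  have q3 : z i2 * (z i1)⁻¹ = z i4 * (z i3)⁻¹ := q1.symm.trans q2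
  have n23 : i2 = i3 := by
    by_contra h
    apply irr i2
    have : z i2 = z i4 * (z i3)⁻¹ * z i1 := by rw [← q3]; group
    have h' := Subgroup.mul_mem _ (Subgroup.mul_mem _ (hmem i2 i4 (Ne.symm n24))
      (Subgroup.inv_mem _ (hmem i2 i3 (Ne.symm h)))) (hmem i2 i1 n12)
    rw [← this] at h'
    exact h'
  have n41 : i4 = i1 := by
    by_contra h
    apply irr i4
    have : z i4 = z i2 * (z i1)⁻¹ * z i3 := by rw [q3]; group
    have h' := Subgroup.mul_mem _ (Subgroup.mul_mem _ (hmem i4 i2 n24)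
      (Subgroup.inv_mem _ (hmem i4 i1 (Ne.symm h)))) (hmem i4 i3 n34)
    rw [← this] at h'
    exact h'
  subst n23
  subst n41
  apply hI i4 h4 i2 h2 n12
  rw [sq]
  calc z i4 * (z i2)⁻¹ * (z i4 * (z i2)⁻¹) = z i4 * (z i2)⁻¹ * (z i2 * (z i4)⁻¹) := by rw [q3]
    _ = 1 := by group

lemma card_chain {G : Type} [Group G] [Finite G] {n : ℕ} (z : Fin n → G)
    (irr : ∀ i, z i ∉ Subgroup.closure (z '' {j | j ≠ i})) :
    ∀ i ≤ n, 2 ^ i ≤ Nat.card (Subgroup.closure (z '' {j : Fin n | j.1 < i})) := by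
  intro i
  induction i with
  | zero => intro _; rw [pow_zero]; exact Nat.card_pos
  | succ i ih =>
    intro hi
    have h1 := ih (by omega)
    set F0 := Subgroup.closure (z '' {j : Fin n | j.1 < i}) with hF0
    set F1 := Subgroup.closure (z '' {j : Fin n | j.1 < i + 1}) with hF1
    have hle : F0 ≤ F1 := Subgroup.closure_mono (Set.image_mono (fun j (hj : j.1 < i) => (by omega : j.1 < i + 1)))
    have hz1 : z ⟨i, by omega⟩ ∈ F1 := Subgroup.subset_closure ⟨⟨i, by omega⟩, Nat.lt_succ_self i, rfl⟩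
    have hz0 : z ⟨i, by omega⟩ ∉ F0 := by
      intro h
      apply irr ⟨i, by omega⟩
      refine Subgroup.closure_mono (Set.image_mono ?_) h
      intro j hj hji
      have hj' : j.1 < i := hj
      rw [hji] at hj'
      exact lt_irrefl _ hj'
    have hmul : Nat.card F0 * F0.relIndex F1 = Nat.card F1 := by
      have := Subgroup.card_mul_index (F0.subgroupOf F1)
      rw [Nat.card_congr (Subgroup.subgroupOfEquivOfLe hle).toEquiv] at this
      exact this
    have hne1 : F0.relIndex F1 ≠ 1 := by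
      intro h
      exact hz0 (Subgroup.relIndex_eq_one.1 h hz1)
    have hne0 : F0.relIndex F1 ≠ 0 := by
      intro h
      rw [h, mul_zero] at hmul
      exact (Nat.card_pos (α := F1)).ne hmul
    have h2 : 2 ≤ F0.relIndex F1 := by omega
    rw [pow_succ, ← hmul]
    exact Nat.mul_le_mul h1 h2

/-- main lemma for the low-rank odd primes -/
theorem low_lemma {G : Type} [Group G] [Finite G] (B0 : Subgroup G) (P : Finset ℕ)
    (hP : ∀ p ∈ P, p.Prime ∧ p ≠ 2) (c : ℕ) (y : ℕ → Fin c → G)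
    (hy : ∀ p ∈ P, ∀ l, ∃ e, orderOf (y p l) = p ^ e)
    (hgen : B0 ⊔ Subgroup.closure {g | ∃ p ∈ P, ∃ l, g = y p l} = ⊤) :
    ∃ (n : ℕ) (z : Fin n → G) (lab : Fin n → Fin c),
      B0 ⊔ Subgroup.closure (Set.range z) = ⊤ ∧
      (∀ i, z i ∉ Subgroup.closure (z '' {j | j ≠ i})) ∧
      (∀ i j, i ≠ j → lab i = lab j → (z i * (z j)⁻¹) ^ 2 ≠ 1) := by
  classical
  let Λ : Type := P × Fin c
  let yy : Λ → G := fun q => y q.1.1 q.2
  let 𝒮 : Set (Set Λ) := {T | B0 ⊔ Subgroup.closure (yy '' T) = ⊤}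
  have hne : 𝒮.Nonempty := by
    refine ⟨Set.univ, ?_⟩
    show B0 ⊔ Subgroup.closure (yy '' Set.univ) = ⊤
    rw [← hgen]
    congr 2
    ext g
    constructor
    · rintro ⟨⟨p, l⟩, -, rfl⟩
      exact ⟨p.1, p.2, l, rfl⟩
    · rintro ⟨p, hp, l, rfl⟩
      exact ⟨(⟨p, hp⟩, l), trivial, rfl⟩
  obtain ⟨T, hT, hmin⟩ := 𝒮.toFinite.exists_minimal hne
  have hirr : ∀ i ∈ T, yy i ∉ Subgroup.closure (yy '' (T \ {i})) := by
    intro i hi hcon
    have h1 : B0 ⊔ Subgroup.closure (yy '' (T \ {i})) = ⊤ := by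
      rw [eq_top_iff, ← show B0 ⊔ Subgroup.closure (yy '' T) = ⊤ from hT]
      refine sup_le le_sup_left ?_
      rw [Subgroup.closure_le]
      rintro _ ⟨j, hj, rfl⟩
      by_cases hji : j = i
      · subst hji; exact Subgroup.mem_sup_right hcon
      · exact Subgroup.mem_sup_right (Subgroup.subset_closure ⟨j, ⟨hj, hji⟩, rfl⟩)
    have h2 := hmin (show T \ {i} ∈ 𝒮 from h1) Set.sdiff_subset
    exact (h2 hi).2 rfl
  have hne1 : ∀ i ∈ T, yy i ≠ 1 := by
    intro i hi h
    apply hirr i hi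
    rw [h]; exact Subgroup.one_mem _
  -- choose powers
  have hpow : ∀ l : Fin c, ∃ k : ℕ → ℕ,
      (∀ p ∈ P.filter (fun p => ∃ hp : p ∈ P, ((⟨p, hp⟩, l) : Λ) ∈ T), 1 ≤ k p ∧ k p < p) ∧
      ∀ p ∈ P.filter (fun p => ∃ hp : p ∈ P, ((⟨p, hp⟩, l) : Λ) ∈ T),
      ∀ q ∈ P.filter (fun p => ∃ hp : p ∈ P, ((⟨p, hp⟩, l) : Λ) ∈ T), p ≠ q →
      (y p l ^ k p * (y q l ^ k q)⁻¹) ^ 2 ≠ 1 := by
    intro l
    apply exists_powers (fun p => y p l)
    · intro p hp; exact hP p (Finset.mem_filter.1 hp).1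
    · intro p hp; exact hy p (Finset.mem_filter.1 hp).1 l
    · intro p hp
      obtain ⟨h1, h2, h3⟩ := Finset.mem_filter.1 hp
      exact hne1 _ h3
  choose k hk1 hk2 using hpow
  let zz : Λ → G := fun q => y q.1.1 q.2 ^ k q.2 q.1.1
  have hz_mem : ∀ i ∈ T, ∀ K : Subgroup G, zz i ∈ K → yy i ∈ K := by
    rintro ⟨⟨p, hp⟩, l⟩ hi K hK
    have h1 := hk1 l p (Finset.mem_filter.2 ⟨hp, hp, hi⟩)
    obtain ⟨e, he⟩ := hy p hp l
    have hcop : (k l p).Coprime (orderOf (y p l)) := by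
      rw [he]
      apply Nat.Coprime.pow_right
      apply Nat.Coprime.symm
      rw [(hP p hp).1.coprime_iff_not_dvd]
      intro hd
      have := Nat.le_of_dvd (by omega) hd
      omega
    obtain ⟨m, hm⟩ := exists_pow_eq_self_of_coprime hcop
    show y p l ∈ K
    rw [← hm]
    exact K.pow_mem hK m
  have hzy : ∀ i, ∀ K : Subgroup G, yy i ∈ K → zz i ∈ K := by
    intro i K hK
    exact K.pow_mem hK _
  -- enumerate T
  haveI : Fintype T := Fintype.ofFinite _
  let n := Fintype.card T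
  let en : Fin n ≃ T := (Fintype.equivFin T).symm
  refine ⟨n, fun i => zz (en i).1, fun i => (en i).1.2, ?_, ?_, ?_⟩
  · rw [eq_top_iff, ← show B0 ⊔ Subgroup.closure (yy '' T) = ⊤ from hT]
    refine sup_le le_sup_left ?_
    rw [Subgroup.closure_le]
    rintro _ ⟨j, hj, rfl⟩
    apply Subgroup.mem_sup_right
    apply hz_mem j hj
    apply Subgroup.subset_closure
    refine ⟨en.symm ⟨j, hj⟩, ?_⟩
    simp
  · intro i hcon
    have h1 : yy (en i).1 ∈ Subgroup.closure ((fun i => zz (en i).1) '' {j | j ≠ i}) :=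
      hz_mem _ (en i).2 _ hcon
    apply hirr _ (en i).2
    have h2 : Subgroup.closure ((fun i => zz (en i).1) '' {j | j ≠ i}) ≤
        Subgroup.closure (yy '' (T \ {(en i).1})) := by
      rw [Subgroup.closure_le]
      rintro _ ⟨j, hj, rfl⟩
      apply hzy
      apply Subgroup.subset_closure
      refine ⟨(en j).1, ⟨(en j).2, ?_⟩, rfl⟩
      intro h
      exact hj (en.injective (Subtype.ext h))
    exact h2 h1
  · intro i j hij hlab
    have hne2 : (en i).1 ≠ (en j).1 := fun h => hij (en.injective (Subtype.ext h))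
    have key : ∀ a b : T, a.1 ≠ b.1 → a.1.2 = b.1.2 → (zz a.1 * (zz b.1)⁻¹) ^ 2 ≠ 1 := by
      rintro ⟨⟨⟨p, hp⟩, l⟩, ha⟩ ⟨⟨⟨q, hq⟩, l'⟩, hb⟩ hne2 hlab
      have hlab' : l = l' := hlab
      subst hlab'
      have hpq : p ≠ q := by
        intro h
        subst h
        exact hne2 rfl
      exact hk2 l p (Finset.mem_filter.2 ⟨hp, hp, ha⟩) q (Finset.mem_filter.2 ⟨hq, hq, hb⟩) hpq
    exact key (en i) (en j) hne2 hlab

end Pool.Agent.H227R3.Lat
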