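import Pool.Agent.H227R3.Lat.Spread
import Pool.Agent.H227R3.Lat.Pow

set_option autoImplicit false

/-!
The data attached to each prime.
-/

namespace Pool.Agent.H227R3.Lat

def c0 : ℕ := 30000

/-- low rank alternative -/
def Low (G : Type) [Group G] (p : ℕ) (S : Subgroup G) : Prop :=
  ∃ y : Fin c0 → G, (∀ l, ∃ e, orderOf (y l) = p ^ e) ∧ S ≤ Subgroup.closure (Set.range y)

/-- high rank alternative -/
def High (G : Type) [Group G] (p : ℕ) (S : Subgroup G) : Prop :=
  ∃ (w : ℕ) (H : Fin w → Subgroup G) (x : Fin w → G),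
    S ≤ Subgroup.closure (Set.range x) ∧
    (∀ i, ∃ j, j ≠ i ∧ x j = x i) ∧
    (∀ i, ∀ g ∈ H i, ∃ e, orderOf g = p ^ e) ∧
    (∀ i, w * p ^ 2 ≤ Nat.card (H i)) ∧
    (∀ i j, i ≠ j → (∀ g ∈ H i, g ∈ H j → g = 1) ∧
      ∀ g ∈ H i, ∀ g' ∈ H j, (x i)⁻¹ * g * x i = (x j)⁻¹ * g' * x j → g = 1)

lemma numeric (h : ℕ) (hh : 25 ≤ h) : 2 * (3 * (4 * h + 3) ^ 2 + (4 * h + 3)) ≤ 2 ^ (h - 2) := by
  induction h, hh using Nat.le_induction with
  | base => norm_num
  | succ h hh ih =>
    have : 2 ^ (h + 1 - 2) = 2 * 2 ^ (h - 2) := by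
      rw [← pow_succ']; congr 1; omega
    rw [this]
    nlinarith [ih, hh]

lemma prime_data (G : Type) [Group G] [Finite G] (p : ℕ) (hp : p.Prime) :
    ∃ S : Subgroup G, p ^ (Nat.card G).factorization p ∣ Nat.card S ∧ (Low G p S ∨ High G p S) := by
  haveI : Fact p.Prime := ⟨hp⟩
  let P : Sylow p G := default
  refine ⟨P, ?_, ?_⟩
  · rw [Sylow.card_eq_multiplicity]
  obtain ⟨r, E0, hE1, hE2, hE3, hgen⟩ := rank_theorem (p := p) (S := (P : Subgroup G)) P.isPGroup'
  obtain ⟨d, hd⟩ : ∃ d, d = 3 * r ^ 2 + r := ⟨_, rfl⟩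
  rw [← hd] at hgen
  obtain ⟨y0, hy0⟩ := hgen
  -- map to G
  let E : Subgroup G := E0.map (P : Subgroup G).subtype
  have hEc : Nat.card E = p ^ r := by
    rw [← hE3]
    exact (Nat.card_congr (E0.equivMapOfInjective _ (P : Subgroup G).subtype_injective).toEquiv).symm
  have hEp : ∀ a ∈ E, a ^ p = 1 := by
    rintro _ ⟨a, ha, rfl⟩
    rw [← map_pow, hE1 a ha, map_one]
  have hEcomm : ∀ a ∈ E, ∀ b ∈ E, a * b = b * a := by
    rintro _ ⟨a, ha, rfl⟩ _ ⟨b, hb, rfl⟩
    rw [← map_mul, hE2 a ha b hb, map_mul]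
  let y : Fin d → G := fun i => (y0 i).1
  have hy : (P : Subgroup G) = Subgroup.closure (Set.range y) := by
    have h1 : (Subgroup.closure (Set.range y0)).map (P : Subgroup G).subtype = (P : Subgroup G) := by
      rw [hy0, ← MonoidHom.range_eq_map, Subgroup.range_subtype]
    rw [← h1, MonoidHom.map_closure]
    congr 1
    ext g
    constructor
    · rintro ⟨_, ⟨i, rfl⟩, rfl⟩; exact ⟨i, rfl⟩
    · rintro ⟨i, rfl⟩; exact ⟨_, ⟨i, rfl⟩, rfl⟩
  have hyo : ∀ i, ∃ e, orderOf (y i) = p ^ e := by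
    intro i
    obtain ⟨e, he⟩ := (IsPGroup.iff_orderOf.1 P.isPGroup') (y0 i)
    exact ⟨e, by rw [← he]; exact Subgroup.orderOf_coe (y0 i)⟩
  by_cases hr : r < 100
  · left
    have hlt : d ≤ c0 := by
      rw [hd]; unfold c0
      have h1 : r ≤ 99 := by omega
      have h2 : r ^ 2 ≤ 99 ^ 2 := Nat.pow_le_pow_left h1 2
      omega
    refine ⟨fun l => if h : l.1 < d then y ⟨l.1, h⟩ else 1, ?_, ?_⟩
    · intro l
      by_cases h : l.1 < d
      · simp only [h, dif_pos]; exact hyo _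
      · simp only [h, dif_neg, not_false_eq_true]; exact ⟨0, by simp⟩
    · rw [hy]
      apply Subgroup.closure_mono
      rintro _ ⟨i, rfl⟩
      refine ⟨⟨i.1, lt_of_lt_of_le i.2 hlt⟩, ?_⟩
      simp only [i.2, dif_pos]
  · right
    have hr' : 100 ≤ r := by omega
    have hdpos : 0 < d := by rw [hd]; positivity
    set h := r / 4 with hh
    have hh25 : 25 ≤ h := by omega
    have hr4 : r ≤ 4 * h + 3 := by omega
    have hr5 : 4 * h ≤ r := by omega
    have hw2 : 2 * d ≤ 2 ^ (h - 2) := by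
      refine le_trans ?_ (numeric h hh25)
      rw [hd]
      have := Nat.pow_le_pow_left hr4 2
      omega
    have hp2 : 2 ≤ p := hp.two_le
    have hwp : 2 * d * p ^ 2 ≤ p ^ h := by
      calc 2 * d * p ^ 2 ≤ 2 ^ (h - 2) * p ^ 2 := by gcongr
        _ ≤ p ^ (h - 2) * p ^ 2 := by gcongr
        _ = p ^ h := by rw [← pow_add]; congr 1; omega
    have hsp : (2 * (2 * d) + 1) * p ^ (2 * h) ≤ Nat.card E := by
      rw [hEc]
      calc (2 * (2 * d) + 1) * p ^ (2 * h) ≤ 2 ^ h * p ^ (2 * h) := by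
            apply Nat.mul_le_mul_right
            have e1 : 2 ^ h = 4 * 2 ^ (h - 2) := by
              rw [show (4 : ℕ) = 2 ^ 2 by norm_num, ← pow_add]; congr 1; omega
            have e2 : 1 ≤ 2 ^ (h - 2) := Nat.one_le_two_pow
            omega
        _ ≤ p ^ h * p ^ (2 * h) := by gcongr
        _ = p ^ (3 * h) := by rw [← pow_add]; congr 1; ring
        _ ≤ p ^ r := Nat.pow_le_pow_right hp.pos (by omega)
    let x : ℕ → G := fun i => if hi : i / 2 < d then y ⟨i / 2, hi⟩ else 1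
    obtain ⟨H, hH1, hH2⟩ := spread hp E hEp hEcomm h x (2 * d) hsp
    refine ⟨2 * d, fun i => H i.1, fun i => x i.1, ?_, ?_, ?_, ?_, ?_⟩
    · rw [hy]
      apply Subgroup.closure_mono
      rintro _ ⟨i, rfl⟩
      have hi := i.2
      refine ⟨⟨2 * i.1, by omega⟩, ?_⟩
      show (if hi : 2 * i.1 / 2 < d then y ⟨2 * i.1 / 2, hi⟩ else 1) = y i
      have e : 2 * i.1 / 2 = i.1 := by omega
      rw [dif_pos (by omega)]
      congr 1
      exact Fin.ext e
    · intro i
      have hi := i.2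
      rcases Nat.even_or_odd' i.1 with ⟨c, hc | hc⟩
      · refine ⟨⟨2 * c + 1, by omega⟩, ?_, ?_⟩
        · intro h
          have := congrArg Fin.val h
          simp only at this; omega
        · show x (2 * c + 1) = x i.1
          rw [hc]
          have e : (2 * c + 1) / 2 = 2 * c / 2 := by omega
          simp only [x, e]
      · refine ⟨⟨2 * c, by omega⟩, ?_, ?_⟩
        · intro h
          have := congrArg Fin.val h
          simp only at this; omega
        · show x (2 * c) = x i.1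
          rw [hc]
          have e : (2 * c + 1) / 2 = 2 * c / 2 := by omega
          simp only [x, e]
    · intro i g hg
      have h1 : IsPGroup p (H i.1) := IsPGroup.of_card (hH1 i.1 i.2).2
      obtain ⟨e, he⟩ := (IsPGroup.iff_orderOf.1 h1) ⟨g, hg⟩
      exact ⟨e, by rw [← he]; exact Subgroup.orderOf_coe (⟨g, hg⟩ : H i.1)⟩
    · intro i
      rw [(hH1 i.1 i.2).2]
      exact hwp
    · intro i j hij
      exact hH2 i.1 i.2 j.1 j.2 (fun h => hij (Fin.ext h))

/-- a subgroup containing Sylow-size subgroups for all primes is everything -/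
lemma eq_top_of_sylow {G : Type} [Group G] [Finite G] (K : Subgroup G)
    (hK : ∀ p : ℕ, p.Prime → p ∣ Nat.card G → ∃ S : Subgroup G, S ≤ K ∧
      p ^ (Nat.card G).factorization p ∣ Nat.card S) : K = ⊤ := by
  have hdvd : Nat.card G ∣ Nat.card K := by
    rw [← Nat.factorization_prime_le_iff_dvd Nat.card_pos.ne' Nat.card_pos.ne']
    intro p hp
    by_cases hpd : p ∣ Nat.card G
    · obtain ⟨S, hS1, hS2⟩ := hK p hp hpd
      have h1 : p ^ (Nat.card G).factorization p ∣ Nat.card K :=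
        hS2.trans (Subgroup.card_dvd_of_le hS1)
      exact (hp.pow_dvd_iff_le_factorization Nat.card_pos.ne').1 h1
    · rw [Nat.factorization_eq_zero_of_not_dvd hpd]; exact Nat.zero_le _
  exact Subgroup.eq_top_of_le_card K (Nat.le_of_dvd Nat.card_pos hdvd)

end Pool.Agent.H227R3.Lat
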