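import Pool.Agent.H227R3.Lat.App
import Pool.Agent.H227R3.Lat.Prime

set_option autoImplicit false

/-!
Every finite group of order `n` is the automorphism group of a lattice with `O(n)` elements.
-/

namespace Pool.Agent.H227R3.Lat

lemma sum_sq_le (n : ℕ) (P : Finset ℕ) (hP : ∀ p ∈ P, 2 ≤ p) (s : ℕ → ℕ)
    (hs : ∀ p ∈ P, p ^ 2 * s p ≤ n) : ∑ p ∈ P, s p ≤ n := by
  have h1 : (∑ p ∈ P, (s p : ℝ)) ≤ n := by
    have h2 : ∀ p ∈ P, (s p : ℝ) ≤ n * ((p : ℝ) ^ 2)⁻¹ := by
      intro p hp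
      have hp2 : (0 : ℝ) < (p : ℝ) ^ 2 := by
        have := hP p hp
        positivity
      rw [← div_eq_mul_inv, le_div_iff₀ hp2]
      have := hs p hp
      have h3 : ((p ^ 2 * s p : ℕ) : ℝ) ≤ (n : ℝ) := by exact_mod_cast this
      push_cast at h3
      linarith
    refine (Finset.sum_le_sum h2).trans ?_
    rw [← Finset.mul_sum]
    set M := P.sup id + 1 with hM
    have hsub : P ⊆ Finset.Ioc 1 M := by
      intro p hp
      rw [Finset.mem_Ioc]
      refine ⟨by have := hP p hp; omega, ?_⟩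
      have : p ≤ P.sup id := Finset.le_sup (f := id) hp
      omega
    have h3 : ∑ p ∈ P, ((p : ℝ) ^ 2)⁻¹ ≤ ∑ p ∈ Finset.Ioc 1 M, ((p : ℝ) ^ 2)⁻¹ :=
      Finset.sum_le_sum_of_subset_of_nonneg hsub (fun i _ _ => by positivity)
    have h4 := sum_Ioc_inv_sq_le_sub (α := ℝ) (k := 1) (n := M) one_ne_zero (by omega)
    have h5 : (0 : ℝ) ≤ (M : ℝ)⁻¹ := by positivity
    have h6 : ∑ p ∈ P, ((p : ℝ) ^ 2)⁻¹ ≤ 1 := by
      refine h3.trans (h4.trans ?_)
      simp only [Nat.cast_one, inv_one]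
      linarith
    calc (n : ℝ) * ∑ p ∈ P, ((p : ℝ) ^ 2)⁻¹ ≤ n * 1 := by gcongr
      _ = n := mul_one _
  exact_mod_cast h1

lemma geom_le (n m : ℕ) (c : ℕ → ℕ) (hc : ∀ i ≤ m, 2 ^ i * c i ≤ n) :
    ∑ i ∈ Finset.range (m + 1), c i ≤ 2 * n := by
  have h1 : (∑ i ∈ Finset.range (m + 1), (c i : ℝ)) ≤ 2 * n := by
    have h2 : ∀ i ∈ Finset.range (m + 1), (c i : ℝ) ≤ n * (1 / (2 : ℝ)) ^ i := by
      intro i hi
      rw [Finset.mem_range] at hi
      have := hc i (by omega)
      have h3 : ((2 ^ i * c i : ℕ) : ℝ) ≤ (n : ℝ) := by exact_mod_cast this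
      push_cast at h3
      have h4 : (0 : ℝ) < 2 ^ i := by positivity
      rw [one_div, inv_pow, ← div_eq_mul_inv, le_div_iff₀ h4]
      linarith
    refine (Finset.sum_le_sum h2).trans ?_
    rw [← Finset.mul_sum]
    have := sum_geometric_two_le (m + 1)
    calc (n : ℝ) * ∑ i ∈ Finset.range (m + 1), (1 / (2 : ℝ)) ^ i ≤ n * 2 := by gcongr
      _ = 2 * n := mul_comm _ _
  exact_mod_cast h1

lemma coprime_orders {G : Type} [Group G] {p q : ℕ} (hp : p.Prime) (hq : q.Prime) (hpq : p ≠ q)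
    (g g' x x' : G) (hg : ∃ e, orderOf g = p ^ e) (hg' : ∃ e, orderOf g' = q ^ e)
    (h : x⁻¹ * g * x = x'⁻¹ * g' * x') : g = 1 := by
  obtain ⟨e, he⟩ := hg
  obtain ⟨e', he'⟩ := hg'
  have h1 : orderOf (x⁻¹ * g * x) = orderOf g := by
    have := MulEquiv.orderOf_eq (MulAut.conj x⁻¹) g
    simpa [MulAut.conj_apply] using this
  have h2 : orderOf (x'⁻¹ * g' * x') = orderOf g' := by
    have := MulEquiv.orderOf_eq (MulAut.conj x'⁻¹) g'
    simpa [MulAut.conj_apply] using this
  rw [h, h2, he, he'] at h1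
  have hcop : Nat.Coprime (p ^ e) (q ^ e') := Nat.Coprime.pow _ _ ((Nat.coprime_primes hp hq).2 hpq)
  rw [h1] at hcop
  have h3 : p ^ e = 1 := by
    have := (Nat.coprime_self _).1 hcop
    exact this
  rw [h3] at he
  exact orderOf_eq_one_iff.1 he

theorem main (G : Type) [Group G] [Finite G] :
    ∃ (L : Type) (_ : Lattice L) (_ : Finite L),
      Nat.card L ≤ (30 + 18 * c0) * Nat.card G ∧ Nonempty ((L ≃o L) ≃* G) := by
  classical
  choose S hS1 hS2 using prime_data G
  let LowP : ℕ → Prop := fun p => ∃ hp : p.Prime, Low G p (S p hp)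
  let PF := (Nat.card G).primeFactors
  let PH := PF.filter (fun p => ¬ LowP p)
  let PL := PF.filter (fun p => LowP p ∧ p ≠ 2)
  have hPHp : ∀ p ∈ PH, p.Prime := fun p hp => Nat.prime_of_mem_primeFactors (Finset.mem_filter.1 hp).1
  have hPLp : ∀ p ∈ PL, p.Prime := fun p hp => Nat.prime_of_mem_primeFactors (Finset.mem_filter.1 hp).1
  have hHigh : ∀ p : PH, High G p.1 (S p.1 (hPHp p.1 p.2)) := by
    intro p
    rcases hS2 p.1 (hPHp p.1 p.2) with h | h
    · exact absurd ⟨hPHp p.1 p.2, h⟩ (Finset.mem_filter.1 p.2).2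
    · exact h
  choose w H x hx1 hx2 hx3 hx4 hx5 using hHigh
  have hLow : ∀ p ∈ PL, ∃ y : Fin c0 → G, (∀ l, ∃ e, orderOf (y l) = p ^ e) ∧
      ∀ hp : p.Prime, S p hp ≤ Subgroup.closure (Set.range y) := by
    intro p hp
    obtain ⟨-, ⟨hpp, y, hy1, hy2⟩, -⟩ := Finset.mem_filter.1 hp
    exact ⟨y, hy1, fun _ => hy2⟩
  choose! yL hyL1 hyL2 using hLow
  obtain ⟨y2, hy2⟩ : ∃ y2 : Fin c0 → G, ∀ hp : (2 : ℕ).Prime, LowP 2 →
      S 2 hp ≤ Subgroup.closure (Set.range y2) := by
    by_cases h : LowP 2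
    · obtain ⟨hpp, y, hy1, hy2⟩ := h
      exact ⟨y, fun _ _ => hy2⟩
    · exact ⟨fun _ => 1, fun _ h' => absurd h' h⟩
  let J : Type := Σ p : PH, Fin (w p)
  let iJ : Fintype J := (inferInstance : Fintype (Σ p : PH, Fin (w p)))
  let B0 : Subgroup G := Subgroup.closure ({g | ∃ j : J, g = x j.1 j.2} ∪ Set.range y2)
  have hgen : B0 ⊔ Subgroup.closure {g | ∃ p ∈ PL, ∃ l, g = yL p l} = ⊤ := by
    apply eq_top_of_sylow
    intro p hp hpd
    refine ⟨S p hp, ?_, hS1 p hp⟩
    have hpF : p ∈ PF := Nat.mem_primeFactors.2 ⟨hp, hpd, Nat.card_pos.ne'⟩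
    by_cases hl : LowP p
    · by_cases h2 : p = 2
      · subst h2
        refine (hy2 hp hl).trans (le_trans ?_ le_sup_left)
        exact Subgroup.closure_mono Set.subset_union_right
      · have hpL : p ∈ PL := Finset.mem_filter.2 ⟨hpF, hl, h2⟩
        refine (hyL2 p hpL hp).trans (le_trans ?_ le_sup_right)
        apply Subgroup.closure_mono
        rintro _ ⟨l, rfl⟩
        exact ⟨p, hpL, l, rfl⟩
    · have hpH : p ∈ PH := Finset.mem_filter.2 ⟨hpF, hl⟩
      refine (hx1 ⟨p, hpH⟩).trans (le_trans ?_ le_sup_left)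
      apply Subgroup.closure_mono
      rintro _ ⟨i, rfl⟩
      exact Or.inl ⟨⟨⟨p, hpH⟩, i⟩, rfl⟩
  obtain ⟨n, z, lab, hz1, hz2, hz3⟩ := low_lemma B0 PL
    (fun p hp => ⟨hPLp p hp, (Finset.mem_filter.1 hp).2.2⟩) c0 yL hyL1 hgen
  let D' : Fin c0 ⊕ Fin c0 → Set G := Sum.elim
    (fun l => if ({i | lab i = l} : Set (Fin n)).Nonempty then z '' {i | lab i = l} else {1})
    (fun l => {y2 l})
  have hsing : ∀ a g g' : G, ({y | ∃ t ∈ ({a} : Set G), y = g * t} ∩
      {y | ∃ t ∈ ({a} : Set G), y = g' * t}).Subsingleton := by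
    rintro a g g' u ⟨⟨t, ht, rfl⟩, -⟩ v ⟨⟨t', ht', rfl⟩, -⟩
    rw [Set.mem_singleton_iff] at ht ht'
    rw [ht, ht']
  let eJ : Fin (Fintype.card J) ≃ J := (Fintype.equivFin J).symm
  have hcross : ∀ a b : J, a ≠ b → (∀ g ∈ H a.1 a.2, g ∈ H b.1 b.2 → g = 1) ∧
      ∀ g ∈ H a.1 a.2, ∀ g' ∈ H b.1 b.2,
        (x a.1 a.2)⁻¹ * g * x a.1 a.2 = (x b.1 b.2)⁻¹ * g' * x b.1 b.2 → g = 1 := by
    rintro ⟨p, i⟩ ⟨q, j⟩ hab
    by_cases hpq : p = q
    · subst hpq
      have hij : i ≠ j := fun h => hab (by rw [h])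
      exact hx5 p i j hij
    · have hpq' : p.1 ≠ q.1 := fun h => hpq (Subtype.ext h)
      constructor
      · intro g hg hg'
        exact coprime_orders (hPHp p.1 p.2) (hPHp q.1 q.2) hpq' g g 1 1 (hx3 p i g hg) (hx3 q j g hg') rfl
      · intro g hg g' hg' e
        exact coprime_orders (hPHp p.1 p.2) (hPHp q.1 q.2) hpq' g g' _ _ (hx3 p i g hg) (hx3 q j g' hg') e
  let X : Dat G :=
    { m := n
      F := fun i => Subgroup.closure (z '' {j : Fin n | j.1 < i})
      F_mono := by
        intro i j hij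
        exact Subgroup.closure_mono (Set.image_mono (fun k (hk : k.1 < i) => (lt_of_lt_of_le hk hij : k.1 < j)))
      e := c0 + c0
      D := fun i => D' (finSumFinEquiv.symm i)
      w := Fintype.card J
      H := fun i => H (eJ i).1 (eJ i).2
      x := fun i => x (eJ i).1 (eJ i).2
      hD_ne := by
        intro i
        generalize finSumFinEquiv.symm i = o
        rcases o with l | l
        · show (if ({i | lab i = l} : Set (Fin n)).Nonempty then z '' {i | lab i = l} else {1}).Nonempty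
          split_ifs with h
          · exact h.image z
          · exact Set.singleton_nonempty 1
        · exact Set.singleton_nonempty _
      hD := by
        intro i g g' hgg
        generalize finSumFinEquiv.symm i = o
        rcases o with l | l
        · show ({y | ∃ t ∈ (if ({i | lab i = l} : Set (Fin n)).Nonempty then z '' {i | lab i = l} else {1}), y = g * t} ∩
            {y | ∃ t ∈ (if ({i | lab i = l} : Set (Fin n)).Nonempty then z '' {i | lab i = l} else {1}), y = g' * t}).Subsingleton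
          split_ifs with h
          · apply sidon z hz2 _ _ g g' hgg
            intro i hi j hj hij
            exact hz3 i j hij (hi.trans hj.symm)
          · exact hsing 1 g g'
        · exact hsing (y2 l) g g'
      hH := by
        intro i j hij
        exact (hcross (eJ i) (eJ j) (fun h => hij (eJ.injective h))).1
      hHx := by
        intro i j hij
        exact (hcross (eJ i) (eJ j) (fun h => hij (eJ.injective h))).2 }
  obtain ⟨L, hL1, hL2, hL3, hL4⟩ := X.exists_lattice (by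
    intro φ _ hF hH hD
    -- the set of good elements
    let T : Subgroup G :=
      { carrier := {t | ∀ g, φ (g * t) = φ g * t}
        one_mem' := by intro g; simp
        mul_mem' := by
          intro a b ha hb g
          rw [← mul_assoc, hb, ha, mul_assoc]
        inv_mem' := by
          intro a ha g
          have h1 : φ (g * a⁻¹ * a) = φ (g * a⁻¹) * a := ha (g * a⁻¹)
          rw [inv_mul_cancel_right] at h1
          rw [h1]; group }
    have hTx : ∀ j : J, x j.1 j.2 ∈ T := by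
      intro j g
      obtain ⟨i', hi'1, hi'2⟩ := hx2 j.1 j.2
      let j' : J := ⟨j.1, i'⟩
      have hjj : j ≠ j' := by
        intro h
        apply hi'1
        have : j.2 = i' := by
          obtain ⟨p, i⟩ := j
          exact eq_of_heq (Sigma.mk.inj_iff.1 h).2
        exact this.symm
      obtain ⟨h1, hh1, e1⟩ := hH (eJ.symm j) g
      obtain ⟨h2, hh2, e2⟩ := hH (eJ.symm j') g
      have hh1' : h1 ∈ H j.1 j.2 := by
        have : h1 ∈ H (eJ (eJ.symm j)).1 (eJ (eJ.symm j)).2 := hh1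
        rwa [Equiv.apply_symm_apply] at this
      have hh2' : h2 ∈ H j'.1 j'.2 := by
        have : h2 ∈ H (eJ (eJ.symm j')).1 (eJ (eJ.symm j')).2 := hh2
        rwa [Equiv.apply_symm_apply] at this
      have e1' : φ (g * x j.1 j.2) = φ g * h1 * x j.1 j.2 := by
        have : φ (g * x (eJ (eJ.symm j)).1 (eJ (eJ.symm j)).2) =
          φ g * h1 * x (eJ (eJ.symm j)).1 (eJ (eJ.symm j)).2 := e1
        rwa [Equiv.apply_symm_apply] at this
      have e2' : φ (g * x j'.1 j'.2) = φ g * h2 * x j'.1 j'.2 := by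
        have : φ (g * x (eJ (eJ.symm j')).1 (eJ (eJ.symm j')).2) =
          φ g * h2 * x (eJ (eJ.symm j')).1 (eJ (eJ.symm j')).2 := e2
        rwa [Equiv.apply_symm_apply] at this
      have hxx : x j'.1 j'.2 = x j.1 j.2 := hi'2
      rw [hxx] at e2'
      have h12 : h1 = h2 := mul_left_cancel (mul_right_cancel (e1'.symm.trans e2'))
      have h1one : h1 = 1 := (hcross j j' hjj).1 h1 hh1' (by rw [h12]; exact hh2')
      rw [e1', h1one, mul_one]
    have hTy : ∀ l, y2 l ∈ T := by
      intro l g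
      have hm : y2 l ∈ X.D (finSumFinEquiv (Sum.inr l)) := by
        show y2 l ∈ D' (finSumFinEquiv.symm (finSumFinEquiv (Sum.inr l)))
        rw [Equiv.symm_apply_apply]
        exact Set.mem_singleton _
      obtain ⟨z', hz', e⟩ := hD _ g _ hm
      have hz'' : z' ∈ D' (finSumFinEquiv.symm (finSumFinEquiv (Sum.inr l))) := hz'
      rw [Equiv.symm_apply_apply] at hz''
      have : z' = y2 l := Set.mem_singleton_iff.1 hz''
      rw [e, this]
    have hTz : ∀ i, z i ∈ T := by
      intro i g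
      have hne : ({i' | lab i' = lab i} : Set (Fin n)).Nonempty := ⟨i, rfl⟩
      have hDe : X.D (finSumFinEquiv (Sum.inl (lab i))) = z '' {i' | lab i' = lab i} := by
        show D' (finSumFinEquiv.symm (finSumFinEquiv (Sum.inl (lab i)))) = _
        rw [Equiv.symm_apply_apply]
        show (if ({i' | lab i' = lab i} : Set (Fin n)).Nonempty then z '' {i' | lab i' = lab i} else {1}) = _
        rw [if_pos hne]
      have hm : z i ∈ X.D (finSumFinEquiv (Sum.inl (lab i))) := by
        rw [hDe]; exact ⟨i, rfl, rfl⟩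
      obtain ⟨z', hz', e⟩ := hD _ g _ hm
      rw [hDe] at hz'
      obtain ⟨i', hi', rfl⟩ := hz'
      have c1 := (hF (i.1 + 1) (Nat.succ_le_of_lt i.2) g (g * z i)).1 (by
        show g⁻¹ * (g * z i) ∈ Subgroup.closure (z '' {j : Fin n | j.1 < i.1 + 1})
        rw [inv_mul_cancel_left]
        exact Subgroup.subset_closure ⟨i, Nat.lt_succ_self _, rfl⟩)
      have c2 : z i' ∈ Subgroup.closure (z '' {j : Fin n | j.1 < i.1 + 1}) := by
        have : (φ g)⁻¹ * φ (g * z i) ∈ Subgroup.closure (z '' {j : Fin n | j.1 < i.1 + 1}) := c1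
        rwa [e, inv_mul_cancel_left] at this
      have c3 : ¬ (z i' ∈ Subgroup.closure (z '' {j : Fin n | j.1 < i.1})) := by
        intro hcon
        have c4 := (hF i.1 i.2.le g (g * z i)).2 (by
          show (φ g)⁻¹ * φ (g * z i) ∈ Subgroup.closure (z '' {j : Fin n | j.1 < i.1})
          rw [e, inv_mul_cancel_left]; exact hcon)
        have c5 : z i ∈ Subgroup.closure (z '' {j : Fin n | j.1 < i.1}) := by
          have : g⁻¹ * (g * z i) ∈ Subgroup.closure (z '' {j : Fin n | j.1 < i.1}) := c4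
          rwa [inv_mul_cancel_left] at this
        apply hz2 i
        refine Subgroup.closure_mono (Set.image_mono ?_) c5
        intro j (hj : j.1 < i.1) hji
        rw [hji] at hj; exact lt_irrefl _ hj
      have c6 : i'.1 < i.1 + 1 := by
        by_contra hge
        apply hz2 i'
        refine Subgroup.closure_mono (Set.image_mono ?_) c2
        intro j (hj : j.1 < i.1 + 1) hji
        rw [hji] at hj; exact hge hj
      have c7 : ¬ i'.1 < i.1 := fun hlt => c3 (Subgroup.subset_closure ⟨i', hlt, rfl⟩)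
      have : i' = i := Fin.ext (by omega)
      rw [e, this]
    have hT : T = ⊤ := by
      rw [eq_top_iff, ← hz1]
      refine sup_le ?_ ?_
      · rw [Subgroup.closure_le]
        rintro g (⟨j, rfl⟩ | ⟨l, rfl⟩)
        · exact hTx j
        · exact hTy l
      · rw [Subgroup.closure_le]
        rintro _ ⟨i, rfl⟩
        exact hTz i
    refine ⟨φ 1, fun g => ?_⟩
    have : g ∈ T := by rw [hT]; exact Subgroup.mem_top g
    have := this 1
    rwa [one_mul] at this)
  refine ⟨L, hL1, hL2, ?_, hL4⟩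
  -- cardinalities
  have hquot : ∀ K : Subgroup G, Nat.card (G ⧸ K) * Nat.card K = Nat.card G := fun K =>
    (Subgroup.card_eq_card_quotient_mul_card_subgroup K).symm
  have hsF : X.sF ≤ 2 * Nat.card G := by
    have e1 : X.sF = ∑ i ∈ Finset.range (n + 1),
        Nat.card (G ⧸ Subgroup.closure (z '' {j : Fin n | j.1 < i})) := by
      rw [Finset.sum_range]; rfl
    rw [e1]
    apply geom_le
    intro i hi
    have h1 := card_chain z hz2 i hi
    calc 2 ^ i * Nat.card (G ⧸ Subgroup.closure (z '' {j : Fin n | j.1 < i}))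
        ≤ Nat.card (Subgroup.closure (z '' {j : Fin n | j.1 < i})) *
          Nat.card (G ⧸ Subgroup.closure (z '' {j : Fin n | j.1 < i})) := by gcongr
      _ = Nat.card G := by rw [mul_comm, hquot]
  have hsH : X.sH ≤ Nat.card G := by
    have e1 : X.sH = ∑ j : J, Nat.card (G ⧸ H j.1 j.2) := by
      show ∑ i : Fin (Fintype.card J), Nat.card (G ⧸ H (eJ i).1 (eJ i).2) = _
      exact Equiv.sum_comp eJ (fun j : J => Nat.card (G ⧸ H j.1 j.2))
    have e2 : ∑ j : J, Nat.card (G ⧸ H j.1 j.2) = ∑ p : PH, ∑ i : Fin (w p), Nat.card (G ⧸ H p i) :=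
      Fintype.sum_sigma (fun j : (Σ p : PH, Fin (w p)) => Nat.card (G ⧸ H j.1 j.2))
    let s : ℕ → ℕ := fun p => if h : p ∈ PH then ∑ i : Fin (w ⟨p, h⟩), Nat.card (G ⧸ H ⟨p, h⟩ i) else 0
    have e3 : ∑ p : PH, ∑ i : Fin (w p), Nat.card (G ⧸ H p i) = ∑ p ∈ PH, s p := by
      rw [← Finset.sum_coe_sort PH s]
      apply Finset.sum_congr rfl
      intro p _
      simp only [s, p.2, dif_pos]
    rw [e1, e2, e3]
    apply sum_sq_le
    · intro p hp; exact (hPHp p hp).two_le
    · intro p hp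
      simp only [s, hp, dif_pos]
      by_cases hw : w ⟨p, hp⟩ = 0
      · have : IsEmpty (Fin (w ⟨p, hp⟩)) := by rw [hw]; infer_instance
        rw [Finset.univ_eq_empty, Finset.sum_empty, mul_zero]; exact Nat.zero_le _
      · have hwpos : 0 < w ⟨p, hp⟩ := Nat.pos_of_ne_zero hw
        apply Nat.le_of_mul_le_mul_left _ hwpos
        calc w ⟨p, hp⟩ * (p ^ 2 * ∑ i : Fin (w ⟨p, hp⟩), Nat.card (G ⧸ H ⟨p, hp⟩ i))
            = ∑ i : Fin (w ⟨p, hp⟩), w ⟨p, hp⟩ * p ^ 2 * Nat.card (G ⧸ H ⟨p, hp⟩ i) := by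
              rw [← mul_assoc, Finset.mul_sum]
          _ ≤ ∑ i : Fin (w ⟨p, hp⟩), Nat.card G := by
              apply Finset.sum_le_sum
              intro i _
              calc w ⟨p, hp⟩ * p ^ 2 * Nat.card (G ⧸ H ⟨p, hp⟩ i)
                  ≤ Nat.card (H ⟨p, hp⟩ i) * Nat.card (G ⧸ H ⟨p, hp⟩ i) := by
                    apply Nat.mul_le_mul_right
                    exact hx4 ⟨p, hp⟩ i
                _ = Nat.card G := by rw [mul_comm, hquot]
          _ = w ⟨p, hp⟩ * Nat.card G := by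
              rw [Finset.sum_const, Finset.card_univ, Fintype.card_fin, smul_eq_mul]
  have hXe : X.e = c0 + c0 := rfl
  rw [hXe] at hL3
  nlinarith [hL3, hsF, hsH]

end Pool.Agent.H227R3.Lat
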