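import Pool.Agent.H227R3.Lat.Rank

set_option autoImplicit false

/-!
Generators of finite `p`-groups and elementary abelian subgroups.
-/

namespace Pool.Agent.H227R3.Lat

open MulAction

lemma exists_central_in_normal {p : ℕ} [Fact p.Prime] {S : Type} [Group S] [Finite S]
    (hS : IsPGroup p S) (N : Subgroup S) (hN : N.Normal) (hne : ∃ x ∈ N, x ≠ 1) :
    ∃ x ∈ N, x ≠ 1 ∧ ∀ s : S, s * x * s⁻¹ = x := by
  let act : MulAction S N :=
    { smul := fun s n => ⟨s * n * s⁻¹, hN.conj_mem n n.2 s⟩
      one_smul := fun n => Subtype.ext (show (1 : S) * n.1 * (1 : S)⁻¹ = n.1 by simp)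
      mul_smul := fun s t n => Subtype.ext (show (s * t) * n.1 * (s * t)⁻¹ = s * (t * n.1 * t⁻¹) * s⁻¹ by group) }
  have hdvd : p ∣ Nat.card N := by
    rcases (hS.to_subgroup N).card_eq_or_dvd with h | h
    · exfalso
      obtain ⟨x, hx, hx1⟩ := hne
      have := Nat.card_eq_one_iff_unique.1 h
      obtain ⟨h1, -⟩ := this
      exact hx1 (congrArg Subtype.val (h1.elim (⟨x, hx⟩ : N) 1))
    · exact h
  have h1 : (1 : N) ∈ fixedPoints S N := by
    intro s
    apply Subtype.ext
    show s * (1 : N).1 * s⁻¹ = (1 : N).1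
    simp
  obtain ⟨b, hb, hb1⟩ := hS.exists_fixed_point_of_prime_dvd_card_of_fixed_point N hdvd h1
  refine ⟨b.1, b.2, fun h => hb1 (Subtype.ext h.symm), fun s => ?_⟩
  exact congrArg Subtype.val (hb s)

/-- a self-centralising normal abelian subgroup -/
lemma exists_selfcentralizing {p : ℕ} [Fact p.Prime] {S : Type} [Group S] [Finite S]
    (hS : IsPGroup p S) : ∃ A : Subgroup S, A.Normal ∧ (∀ a ∈ A, ∀ b ∈ A, a * b = b * a) ∧
      ∀ x : S, (∀ a ∈ A, x * a = a * x) → x ∈ A := by
  classical
  let P : Set (Subgroup S) := {A | A.Normal ∧ ∀ a ∈ A, ∀ b ∈ A, a * b = b * a}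
  have hPne : P.Nonempty := ⟨⊥, inferInstance, by
    intro a ha b hb
    rw [Subgroup.mem_bot] at ha hb
    rw [ha, hb]⟩
  obtain ⟨A, hA, hmax⟩ := P.toFinite.exists_maximal hPne
  obtain ⟨hAn, hAc⟩ := hA
  refine ⟨A, hAn, hAc, ?_⟩
  by_contra hcon
  push_neg at hcon
  obtain ⟨x0, hx0, hx0A⟩ := hcon
  let C : Subgroup S := Subgroup.centralizer (A : Set S)
  have hCn : C.Normal := by
    refine ⟨fun n hn s => ?_⟩
    rw [Subgroup.mem_centralizer_iff] at *
    intro a ha
    have ha' : s⁻¹ * a * s ∈ (A : Set S) := by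
      have := hAn.conj_mem a ha s⁻¹
      simpa using this
    have h1 := hn _ ha'
    calc a * (s * n * s⁻¹) = s * ((s⁻¹ * a * s) * n) * s⁻¹ := by group
      _ = s * (n * (s⁻¹ * a * s)) * s⁻¹ := by rw [h1]
      _ = s * n * s⁻¹ * a := by group
  have hx0C : x0 ∈ C := by
    rw [Subgroup.mem_centralizer_iff]
    intro a ha
    exact (hx0 a ha).symm
  let mk := QuotientGroup.mk' A
  have hNn : (C.map mk).Normal := Subgroup.Normal.map hCn mk (QuotientGroup.mk'_surjective A)
  obtain ⟨y, hy, hy1, hyc⟩ := exists_central_in_normal (hS.to_quotient A) (C.map mk) hNn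
    ⟨mk x0, Subgroup.mem_map_of_mem _ hx0C, by
      intro h
      exact hx0A ((QuotientGroup.eq_one_iff x0).1 h)⟩
  obtain ⟨x, hxC, rfl⟩ := hy
  have hxA : x ∉ A := fun h => hy1 ((QuotientGroup.eq_one_iff x).2 h)
  have hxs : ∀ s : S, x⁻¹ * (s * x * s⁻¹) ∈ A := by
    intro s
    have h1 : ((s * x * s⁻¹ : S) : S ⧸ A) = (x : S ⧸ A) := hyc (s : S ⧸ A)
    exact QuotientGroup.eq.1 h1.symm
  have hxcomm : ∀ a ∈ A, a * x = x * a := fun a ha => (Subgroup.mem_centralizer_iff.1 hxC) a ha
  have hxk : ∀ a ∈ A, ∀ k : ℤ, a * x ^ k = x ^ k * a := by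
    intro a ha k
    exact (Commute.zpow_right (hxcomm a ha) k)
  have hmemA' : ∀ n, n ∈ A ⊔ Subgroup.zpowers x ↔ ∃ a ∈ A, ∃ k : ℤ, n = a * x ^ k := by
    intro n
    rw [Subgroup.mem_sup_of_normal_left]
    constructor
    · rintro ⟨a, ha, z, hz, rfl⟩
      obtain ⟨k, rfl⟩ := Subgroup.mem_zpowers_iff.1 hz
      exact ⟨a, ha, k, rfl⟩
    · rintro ⟨a, ha, k, rfl⟩
      exact ⟨a, ha, x ^ k, Subgroup.zpow_mem_zpowers x k, rfl⟩
  have hA' : (A ⊔ Subgroup.zpowers x) ∈ P := by
    constructor
    · refine ⟨fun n hn s => ?_⟩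
      rw [hmemA'] at hn
      obtain ⟨a, ha, k, rfl⟩ := hn
      have e : s * (a * x ^ k) * s⁻¹ = (s * a * s⁻¹) * (s * x * s⁻¹) ^ k := by
        rw [conj_zpow]; group
      rw [e]
      have h1 : s * x * s⁻¹ ∈ A ⊔ Subgroup.zpowers x := by
        have : s * x * s⁻¹ = x * (x⁻¹ * (s * x * s⁻¹)) := by group
        rw [this]
        exact Subgroup.mul_mem _ (Subgroup.mem_sup_right (Subgroup.mem_zpowers x))
          (Subgroup.mem_sup_left (hxs s))
      exact Subgroup.mul_mem _ (Subgroup.mem_sup_left (hAn.conj_mem a ha s)) (Subgroup.zpow_mem _ h1 k)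
    · intro n hn n' hn'
      rw [hmemA'] at hn hn'
      obtain ⟨a, ha, k, rfl⟩ := hn
      obtain ⟨b, hb, l, rfl⟩ := hn'
      calc a * x ^ k * (b * x ^ l) = a * (x ^ k * b) * x ^ l := by group
        _ = a * (b * x ^ k) * x ^ l := by rw [hxk b hb]
        _ = (a * b) * (x ^ k * x ^ l) := by group
        _ = (b * a) * (x ^ l * x ^ k) := by rw [hAc a ha b hb, ← zpow_add, ← zpow_add, add_comm]
        _ = b * (a * x ^ l) * x ^ k := by group
        _ = b * (x ^ l * a) * x ^ k := by rw [hxk a ha]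
        _ = b * x ^ l * (a * x ^ k) := by group
  have hle := hmax hA' le_sup_left
  exact hxA (hle (Subgroup.mem_sup_right (Subgroup.mem_zpowers x)))

/-- `p`-th powers are in the Frattini subgroup -/
lemma pow_mem_frattini {p : ℕ} [Fact p.Prime] {S : Type} [Group S] [Finite S]
    (hS : IsPGroup p S) (s : S) : s ^ p ∈ frattini S := by
  have key : ∀ M : Subgroup S, IsCoatom M → s ^ p ∈ M := by
    intro M hM
    haveI : Group.IsNilpotent S := hS.isNilpotent
    have hMn : M.Normal := by
      have hN : NormalizerCondition S := normalizerCondition_of_isNilpotent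
      exact Subgroup.NormalizerCondition.normal_of_coatom M hN hM
    have hq := hS.to_quotient M
    have hnt : Nontrivial (S ⧸ M) := by
      rw [← not_subsingleton_iff_nontrivial]
      intro h
      exact hM.1 (QuotientGroup.subgroup_eq_top_of_subsingleton M h)
    have hdvd : p ∣ Nat.card (S ⧸ M) := by
      rcases hq.card_eq_or_dvd with h | h
      · exfalso
        have := Nat.card_eq_one_iff_unique.1 h
        obtain ⟨h1, -⟩ := this
        exact not_subsingleton_iff_nontrivial.2 hnt h1
      · exact h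
    obtain ⟨x, hx⟩ := exists_prime_orderOf_dvd_card' p hdvd
    have hlt : M < (Subgroup.zpowers x).comap (QuotientGroup.mk' M) := by
      refine lt_of_le_of_ne ?_ ?_
      · intro m hm
        rw [Subgroup.mem_comap]
        have : QuotientGroup.mk' M m = 1 := (QuotientGroup.eq_one_iff m).2 hm
        rw [this]; exact Subgroup.one_mem _
      · intro h
        obtain ⟨y, rfl⟩ := QuotientGroup.mk'_surjective M x
        have hy : y ∈ (Subgroup.zpowers (QuotientGroup.mk' M y)).comap (QuotientGroup.mk' M) :=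
          Subgroup.mem_zpowers _
        rw [← h] at hy
        have : QuotientGroup.mk' M y = 1 := (QuotientGroup.eq_one_iff y).2 hy
        rw [this, orderOf_one] at hx
        exact (Fact.out : p.Prime).one_lt.ne hx
    have htop := hM.2 _ hlt
    have hs : s ∈ (Subgroup.zpowers x).comap (QuotientGroup.mk' M) := by
      rw [htop]; exact Subgroup.mem_top _
    rw [Subgroup.mem_comap] at hs
    obtain ⟨k, hk⟩ := Subgroup.mem_zpowers_iff.1 hs
    apply (QuotientGroup.eq_one_iff (s ^ p)).1
    have : ((s ^ p : S) : S ⧸ M) = (QuotientGroup.mk' M s) ^ p := rfl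
    rw [this, ← hk, ← zpow_natCast, ← zpow_mul, mul_comm, zpow_mul, zpow_natCast, ← hx,
      pow_orderOf_eq_one, one_zpow]
  unfold frattini Order.radical
  rw [Subgroup.mem_iInf]
  intro M
  rw [Subgroup.mem_iInf]
  intro hM
  exact key M hM

/-- generation -/
lemma gen_aux {p : ℕ} [Fact p.Prime] {S : Type} [Group S] [Finite S]
    (hS : IsPGroup p S) : ∀ (n : ℕ) (K : Subgroup S), Nat.card S ≤ Nat.card K * p ^ n →
      ∃ y : Fin n → S, K ⊔ Subgroup.closure (Set.range y) = ⊤ := by
  intro n
  induction n with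
  | zero =>
    intro K hK
    refine ⟨Fin.elim0, ?_⟩
    rw [pow_zero, mul_one] at hK
    have : K = ⊤ := Subgroup.eq_top_of_le_card K hK
    rw [this]; simp
  | succ n ih =>
    intro K hK
    by_cases hT : K = ⊤
    · exact ⟨fun _ => 1, by rw [hT]; simp⟩
    · obtain ⟨y0, hy0⟩ : ∃ y, y ∉ K := by
        by_contra h
        push_neg at h
        exact hT (by rw [eq_top_iff]; intro y _; exact h y)
      set K' := K ⊔ Subgroup.zpowers y0 with hK'
      have hlt : K < K' := by
        refine lt_of_le_of_ne le_sup_left (fun h => hy0 ?_)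
        rw [h]; exact Subgroup.mem_sup_right (Subgroup.mem_zpowers y0)
      have hcard : Nat.card K * p ≤ Nat.card K' := by
        have h1 : Nat.card K * K.relIndex K' = Nat.card K' := by
          have := Subgroup.card_mul_index (K.subgroupOf K')
          rw [Nat.card_congr (Subgroup.subgroupOfEquivOfLe hlt.le).toEquiv] at this
          exact this
        obtain ⟨m, hm⟩ := (hS.to_subgroup K').index (K.subgroupOf K')
        have hm' : K.relIndex K' = p ^ m := hm
        have hm0 : m ≠ 0 := by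
          intro h
          rw [h, pow_zero] at hm'
          have := Subgroup.relIndex_eq_one.1 hm'
          exact absurd this hlt.not_ge
        rw [← h1, hm']
        apply Nat.mul_le_mul_left
        calc p = p ^ 1 := (pow_one p).symm
          _ ≤ p ^ m := Nat.pow_le_pow_right (Fact.out : p.Prime).pos (by omega)
      obtain ⟨y, hy⟩ := ih K' (by
        calc Nat.card S ≤ Nat.card K * p ^ (n + 1) := hK
          _ = (Nat.card K * p) * p ^ n := by ring
          _ ≤ Nat.card K' * p ^ n := by gcongr)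
      refine ⟨Fin.cons y0 y, ?_⟩
      rw [eq_top_iff, ← hy, hK']
      refine sup_le (sup_le le_sup_left ?_) ?_
      · rw [Subgroup.zpowers_le]
        exact Subgroup.mem_sup_right (Subgroup.subset_closure ⟨0, rfl⟩)
      · rw [Subgroup.closure_le]
        rintro _ ⟨i, rfl⟩
        exact Subgroup.mem_sup_right (Subgroup.subset_closure ⟨i.succ, rfl⟩)

/-- the rank theorem -/
theorem rank_theorem {p : ℕ} [Fact p.Prime] {S : Type} [Group S] [Finite S]
    (hS : IsPGroup p S) : ∃ (r : ℕ) (E : Subgroup S), (∀ a ∈ E, a ^ p = 1) ∧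
      (∀ a ∈ E, ∀ b ∈ E, a * b = b * a) ∧ Nat.card E = p ^ r ∧
      ∃ y : Fin (3 * r ^ 2 + r) → S, Subgroup.closure (Set.range y) = ⊤ := by
  obtain ⟨A, hAn, hAc, hAs⟩ := exists_selfcentralizing hS
  let cg : CommGroup A := { (inferInstance : Group A) with
    mul_comm := fun a b => Subtype.ext (hAc a.1 a.2 b.1 b.2) }
  let ac : DistribMulAction S (Additive A) :=
    { smul := fun s a => Additive.ofMul ⟨s * (Additive.toMul a).1 * s⁻¹, hAn.conj_mem _ (Additive.toMul a).2 s⟩
      one_smul := fun a => Subtype.ext (show (1 : S) * (Additive.toMul a).1 * (1 : S)⁻¹ = (Additive.toMul a).1 by simp)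
      mul_smul := fun s t a => Subtype.ext (show (s * t) * (Additive.toMul a).1 * (s * t)⁻¹ = s * (t * (Additive.toMul a).1 * t⁻¹) * s⁻¹ by group)
      smul_zero := fun s => Subtype.ext (show s * (1 : S) * s⁻¹ = 1 by simp)
      smul_add := fun s a b => Subtype.ext (show s * ((Additive.toMul a).1 * (Additive.toMul b).1) * s⁻¹ =
        (s * (Additive.toMul a).1 * s⁻¹) * (s * (Additive.toMul b).1 * s⁻¹) by group) }
  -- E
  let E : Subgroup S :=
    { carrier := {a | a ∈ A ∧ a ^ p = 1}
      one_mem' := ⟨A.one_mem, one_pow p⟩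
      mul_mem' := by
        rintro a b ⟨ha, ha'⟩ ⟨hb, hb'⟩
        refine ⟨A.mul_mem ha hb, ?_⟩
        rw [(show Commute a b from hAc a ha b hb).mul_pow, ha', hb', one_mul]
      inv_mem' := by
        rintro a ⟨ha, ha'⟩
        exact ⟨A.inv_mem ha, by rw [inv_pow, ha', inv_one]⟩ }
  obtain ⟨r, hr⟩ := IsPGroup.iff_card.1 (hS.to_subgroup E)
  have hr' : Nat.card {a : Additive A // p • a = 0} = p ^ r := by
    rw [← hr]
    refine Nat.card_congr ⟨fun a => ⟨(Additive.toMul a.1).1, (Additive.toMul a.1).2, ?_⟩,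
      fun a => ⟨Additive.ofMul ⟨a.1, a.2.1⟩, ?_⟩, fun a => rfl, fun a => rfl⟩
    · exact congrArg (fun z : Additive A => (Additive.toMul z).1) a.2
    · exact Subtype.ext a.2.2
  obtain ⟨N, hNcard⟩ := IsPGroup.iff_card.1 hS
  have hN : ∀ a : Additive A, p ^ N • a = 0 := by
    intro a
    apply Subtype.ext
    show ((Additive.toMul a).1) ^ (p ^ N) = 1
    rw [← hNcard]; exact pow_card_eq_one'
  -- kappa
  have hκ : Nat.card (Rank.fx (⊤ : Subgroup S) (Set.univ : Set (Additive A))) ≤
      Nat.card (Rank.fx (frattini S) (Set.univ : Set (Additive A))) * p ^ r := by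
    -- Kr = A
    have hmem : ∀ s : S, (∀ b ∈ (Set.univ : Set (Additive A)), s • b = b) ↔ s ∈ A := by
      intro s
      constructor
      · intro h
        apply hAs
        intro a ha
        have h1 := congrArg (fun z : Additive A => (Additive.toMul z).1) (h (Additive.ofMul ⟨a, ha⟩) trivial)
        have h2 : s * a * s⁻¹ = a := h1
        calc s * a = (s * a * s⁻¹) * s := by group
          _ = a * s := by rw [h2]
      · intro hs b _
        apply Subtype.ext
        show s * (Additive.toMul b).1 * s⁻¹ = (Additive.toMul b).1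
        rw [hAc s hs _ (Additive.toMul b).2]; group
    have c1 : Nat.card (Rank.fx (⊤ : Subgroup S) (Set.univ : Set (Additive A))) = Nat.card (Additive A) := by
      refine Nat.card_congr ⟨fun s => Additive.ofMul ⟨s.1, (hmem s.1).1 ((Rank.mem_fx _ _ _).1 s.2).2⟩,
        fun a => ⟨(Additive.toMul a).1, (Rank.mem_fx _ _ _).2 ⟨trivial, (hmem _).2 (Additive.toMul a).2⟩⟩,
        fun _ => rfl, fun _ => rfl⟩
    have h1 := AddSubgroup.card_eq_card_quotient_mul_card_addSubgroup (nsmulAddMonoidHom (α := Additive A) p).ker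
    have h2 : Nat.card (Additive A ⧸ (nsmulAddMonoidHom (α := Additive A) p).ker) =
        Nat.card (Rank.mp (A := Additive A) p) :=
      Nat.card_congr (QuotientAddGroup.quotientKerEquivRange _).toEquiv
    have h3 : Nat.card (nsmulAddMonoidHom (α := Additive A) p).ker = p ^ r := by
      rw [← hr']
      exact Nat.card_congr (Equiv.subtypeEquivRight (fun a => Iff.rfl))
    rw [c1, h1, h2, h3]
    apply Nat.mul_le_mul_right
    refine Nat.card_le_card_of_injective (fun x : Rank.mp (A := Additive A) p =>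
      (⟨(Additive.toMul x.1).1, ?_⟩ : Rank.fx (frattini S) (Set.univ : Set (Additive A)))) ?_
    · rw [Rank.mem_fx]
      refine ⟨?_, (hmem _).2 (Additive.toMul x.1).2⟩
      obtain ⟨b, hb⟩ := x.2
      have hb' : ((Additive.toMul b).1) ^ p = (Additive.toMul x.1).1 :=
        congrArg (fun z : Additive A => (Additive.toMul z).1) hb
      rw [← hb']
      exact pow_mem_frattini hS _
    · intro x y hxy
      have h : (Additive.toMul x.1).1 = (Additive.toMul y.1).1 :=
        congrArg (fun z : Rank.fx (frattini S) (Set.univ : Set (Additive A)) => z.1) hxy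
      exact Subtype.ext (Subtype.ext h)
  have hcard := Rank.card_le (A := Additive A) (S := S) (Fact.out : p.Prime) r hr' (frattini S)
    (fun s => pow_mem_frattini hS s) (p ^ r) hκ N hN
  obtain ⟨y, hy⟩ := gen_aux hS (3 * r ^ 2 + r) (frattini S) (by
    rw [pow_add, ← mul_assoc]; exact hcard)
  refine ⟨r, E, fun a ha => ha.2, fun a ha b hb => hAc a ha.1 b hb.1, hr, y, ?_⟩
  apply frattini_nongenerating
  rw [sup_comm]; exact hy

end Pool.Agent.H227R3.Lat
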