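import Mathlib

set_option autoImplicit false

/-!
Bounding the Frattini quotient of a `p`-group acting on a finite abelian `p`-group.
-/

namespace Pool.Agent.H227R3.Lat.Rank

lemma card_lin (p : ℕ) [Fact p.Prime] (X Y : Type) [AddCommGroup X] [AddCommGroup Y]
    [Module (ZMod p) X] [Module (ZMod p) Y] [Finite X] [Finite Y] (r : ℕ)
    (hr : Nat.card Y = p ^ r) : Nat.card (X →ₗ[ZMod p] Y) = Nat.card X ^ r := by
  have : Module.Finite (ZMod p) X := Module.Finite.of_finite
  have : Module.Finite (ZMod p) Y := Module.Finite.of_finite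
  have c1 := Module.natCard_eq_pow_finrank (K := ZMod p) (V := X)
  have c2 := Module.natCard_eq_pow_finrank (K := ZMod p) (V := Y)
  have c3 := Module.natCard_eq_pow_finrank (K := ZMod p) (V := (X →ₗ[ZMod p] Y))
  rw [Nat.card_zmod] at c1 c2 c3
  have hrr : Module.finrank (ZMod p) Y = r := by
    apply Nat.pow_right_injective (Fact.out : p.Prime).two_le
    show p ^ _ = p ^ r
    rw [← c2, hr]
  rw [c3, Module.finrank_linearMap, hrr, c1, ← pow_mul]

/-- number of homomorphisms between elementary abelian groups -/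
lemma card_hom {p : ℕ} (hp : p.Prime) (X Y : Type) [AddCommGroup X] [AddCommGroup Y] [Finite X]
    [Finite Y] (hX : ∀ x : X, p • x = 0) (hY : ∀ y : Y, p • y = 0) (r : ℕ)
    (hr : Nat.card Y = p ^ r) : Nat.card (X →+ Y) = Nat.card X ^ r := by
  have : Fact p.Prime := ⟨hp⟩
  let mX : Module (ZMod p) X := AddCommGroup.zmodModule hX
  let mY : Module (ZMod p) Y := AddCommGroup.zmodModule hY
  rw [← card_lin p X Y r hr]
  exact Nat.card_congr (AddMonoidHom.toZModLinearMapEquiv p).toEquiv

section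

variable {A : Type} [AddCommGroup A] [Finite A] {S : Type} [Group S] [Finite S]
  [DistribMulAction S A]

/-- the inclusion function -/
def inc (B : Set A) : B → A := fun b => b.1

/-- orbit size of the inclusion of `B` under `T` -/
noncomputable def os (T : Subgroup S) (B : Set A) : ℕ := Nat.card (MulAction.orbit T (inc B))

/-- elements of `T` fixing `B` pointwise -/
def fx (T : Subgroup S) (B : Set A) : Subgroup S := T ⊓ fixingSubgroup S B

omit [Finite A] [Finite S] in
lemma mem_fx (T : Subgroup S) (B : Set A) (s : S) : s ∈ fx T B ↔ s ∈ T ∧ ∀ b ∈ B, s • b = b := by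
  unfold fx
  rw [Subgroup.mem_inf, mem_fixingSubgroup_iff]

omit [Finite A] in
lemma card_eq_os_mul (T : Subgroup S) (B : Set A) : Nat.card T = os T B * Nat.card (fx T B) := by
  classical
  have h1 : Nat.card T = Nat.card (MulAction.orbit T (inc B)) *
      Nat.card (MulAction.stabilizer T (inc B)) := by
    haveI : Fintype T := Fintype.ofFinite _
    haveI : Finite (MulAction.orbit T (inc B)) := Finite.Set.finite_range _
    haveI : Fintype (MulAction.orbit T (inc B)) := Fintype.ofFinite _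
    haveI : Fintype (MulAction.stabilizer T (inc B)) := Fintype.ofFinite _
    rw [Nat.card_eq_fintype_card, Nat.card_eq_fintype_card, Nat.card_eq_fintype_card,
      MulAction.card_orbit_mul_card_stabilizer_eq_card_group]
  rw [h1]
  unfold os
  congr 1
  refine Nat.card_congr ⟨fun s => ⟨s.1.1, ?_⟩, fun s => ⟨⟨s.1, ?_⟩, ?_⟩, ?_, ?_⟩
  · rw [mem_fx]
    refine ⟨s.1.2, fun b hb => ?_⟩
    have := congrFun s.2 ⟨b, hb⟩
    exact this
  · exact ((mem_fx T B s.1).1 s.2).1
  · rw [MulAction.mem_stabilizer_iff]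
    funext b
    exact ((mem_fx T B s.1).1 s.2).2 b.1 b.2
  · intro s; rfl
  · intro s; rfl

/-- first counting lemma -/
lemma os_le {p : ℕ} (hp : p.Prime) (r : ℕ)
    (hr : Nat.card {a : A // p • a = 0} = p ^ r) (T : Subgroup S) (B C : AddSubgroup A)
    (hCB : C ≤ B) (hpB : ∀ b ∈ B, p • b ∈ C) (hTC : ∀ s ∈ T, ∀ c ∈ C, s • c = c) :
    os T (B : Set A) * Nat.card C ^ r ≤ Nat.card B ^ r := by
  -- Y = p-torsion
  let Yg : AddSubgroup A := (nsmulAddMonoidHom (α := A) p).ker
  have hY : ∀ y : Yg, p • y = 0 := by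
    intro y
    apply Subtype.ext
    have := y.2
    rw [AddMonoidHom.mem_ker] at this
    exact this
  have hYc : Nat.card Yg = p ^ r := by
    rw [← hr]
    exact Nat.card_congr ⟨fun y => ⟨y.1, y.2⟩, fun y => ⟨y.1, y.2⟩, fun _ => rfl, fun _ => rfl⟩
  let Cb : AddSubgroup B := C.addSubgroupOf B
  have hX : ∀ x : B ⧸ Cb, p • x = 0 := by
    intro x
    induction x using QuotientAddGroup.induction_on with
    | H b =>
      rw [← QuotientAddGroup.mk_nsmul, QuotientAddGroup.eq_zero_iff]
      show (p • b : B).1 ∈ C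
      exact hpB b.1 b.2
  have hcard : Nat.card (B ⧸ Cb) * Nat.card C = Nat.card B := by
    rw [AddSubgroup.card_eq_card_quotient_mul_card_addSubgroup Cb]
    congr 1
    exact Nat.card_congr (AddSubgroup.addSubgroupOfEquivOfLe hCB).toEquiv.symm
  have hhom := card_hom hp (B ⧸ Cb) Yg hX hY r hYc
  have hinj : os T (B : Set A) ≤ Nat.card ((B ⧸ Cb) →+ Yg) := by
    -- for each element of the orbit choose s
    have hδ : ∀ s ∈ T, ∃ f : (B ⧸ Cb) →+ Yg, ∀ b : B, ((f b : Yg) : A) = s • (b : A) - b := by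
      intro s hs
      let f0 : B →+ Yg :=
        { toFun := fun b => ⟨s • (b : A) - b, by
            rw [AddMonoidHom.mem_ker]
            show p • (s • (b : A) - b) = 0
            rw [smul_sub, ← smul_comm s p (b : A), hTC s hs _ (hpB b.1 b.2), sub_self]⟩
          map_zero' := by
            apply Subtype.ext
            show s • ((0 : B) : A) - ((0 : B) : A) = 0
            simp
          map_add' := by
            intro a b
            apply Subtype.ext
            show s • ((a + b : B) : A) - ((a + b : B) : A) = (s • (a : A) - a) + (s • (b : A) - b)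
            rw [AddSubgroup.coe_add, smul_add]; abel }
      refine ⟨QuotientAddGroup.lift Cb f0 ?_, fun b => rfl⟩
      intro b hb
      apply Subtype.ext
      show s • (b : A) - b = 0
      rw [hTC s hs b.1 hb, sub_self]
    have hch : ∀ x : MulAction.orbit T (inc (B : Set A)), ∃ f : (B ⧸ Cb) →+ Yg,
        ∀ b : B, ((f b : Yg) : A) = x.1 b - b := by
      rintro ⟨x, s, rfl⟩
      exact hδ s.1 s.2
    choose F hF using hch
    haveI : Finite ((B ⧸ Cb) →+ Yg) := DFunLike.finite _
    refine Nat.card_le_card_of_injective F ?_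
    intro x y hxy
    apply Subtype.ext
    funext b
    have h1 := hF x b
    have h2 := hF y b
    rw [hxy] at h1
    have := h1.symm.trans h2
    exact sub_left_injective this
  calc os T (B : Set A) * Nat.card C ^ r ≤ Nat.card (B ⧸ Cb) ^ r * Nat.card C ^ r := by
        rw [← hhom]; exact Nat.mul_le_mul_right _ hinj
    _ = Nat.card B ^ r := by rw [← mul_pow, hcard]

/-- torsion subgroups -/
def tor (p k : ℕ) : AddSubgroup A := (nsmulAddMonoidHom (α := A) (p ^ k)).ker

omit [Finite A] in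
lemma mem_tor (p k : ℕ) (a : A) : a ∈ tor (A := A) p k ↔ p ^ k • a = 0 := Iff.rfl

/-- multiples of p -/
def mp (p : ℕ) : AddSubgroup A := (nsmulAddMonoidHom (α := A) p).range

omit [Finite A] in
lemma mem_mp (p : ℕ) (a : A) : a ∈ mp (A := A) p ↔ ∃ b, p • b = a := Iff.rfl

omit [Finite A] in
lemma tor_mono (p : ℕ) : Monotone (tor (A := A) p) := by
  apply monotone_nat_of_le_succ
  intro k a ha
  rw [mem_tor] at *
  rw [pow_succ, mul_comm, mul_smul, ha, smul_zero]

lemma card_mul_card (H K : AddSubgroup A) :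
    Nat.card H * Nat.card K = Nat.card (H ⊓ K : AddSubgroup A) * Nat.card (H ⊔ K : AddSubgroup A) := by
  have h1 : K.relIndex (H ⊔ K) = K.relIndex H := AddSubgroup.relIndex_sup_right H K
  have h2 : Nat.card K * K.relIndex (H ⊔ K) = Nat.card (H ⊔ K : AddSubgroup A) := by
    have := AddSubgroup.card_mul_index (K.addSubgroupOf (H ⊔ K))
    rw [Nat.card_congr (AddSubgroup.addSubgroupOfEquivOfLe (le_sup_right : K ≤ H ⊔ K)).toEquiv] at this
    exact this
  have h3 : Nat.card (H ⊓ K : AddSubgroup A) * K.relIndex H = Nat.card H := by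
    have e : K.relIndex H = (H ⊓ K).relIndex H := by
      rw [inf_comm, AddSubgroup.inf_relIndex_right]
    rw [e]
    have := AddSubgroup.card_mul_index ((H ⊓ K).addSubgroupOf H)
    rw [Nat.card_congr (AddSubgroup.addSubgroupOfEquivOfLe (inf_le_left : H ⊓ K ≤ H)).toEquiv] at this
    exact this
  rw [← h2, ← h3, h1]; ring

/-- power formula -/
lemma pow_smul_eq {p k : ℕ} (hk : 2 ≤ k) (s : S) (hs : ∀ a ∈ tor (A := A) p k, s • a = a) (a : A)
    (ha : a ∈ tor (A := A) p (k + 2)) (n : ℕ) : s ^ n • a = a + n • (s • a - a) := by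
  have h1 : s • a - a ∈ tor (A := A) p k := by
    have h2 : s • a - a ∈ tor (A := A) p 2 := by
      rw [mem_tor, smul_sub, ← smul_comm s (p ^ 2) a, hs _ _, sub_self]
      rw [mem_tor, ← mul_smul, ← pow_add]; exact ha
    exact tor_mono p hk h2
  induction n with
  | zero => simp
  | succ n ih =>
    rw [pow_succ', mul_smul, ih, smul_add, smul_comm s n, hs _ h1, succ_nsmul]
    abel

lemma pow_smul_p {p k : ℕ} (hk : 2 ≤ k) (s : S) (hs : ∀ a ∈ tor (A := A) p k, s • a = a) (a : A)
    (ha : a ∈ tor (A := A) p (k + 2)) : s ^ p • a - a = s • (p • a) - p • a := by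
  rw [pow_smul_eq hk s hs a ha p, smul_sub, smul_comm s p a]; abel

/-- second counting lemma -/
lemma os_le_os {p : ℕ} {k : ℕ} (hk : 2 ≤ k) (Q : Subgroup S) (hQ : ∀ s, s ^ p ∈ Q) :
    os (fx (⊤ : Subgroup S) (tor (A := A) p k : Set A)) {a : A | ∃ b ∈ tor (A := A) p (k + 2), p • b = a} ≤
    os (fx Q (tor (A := A) p (k + 1) : Set A)) (tor (A := A) p (k + 2) : Set A) := by
  classical
  set T := fx (⊤ : Subgroup S) (tor (A := A) p k : Set A) with hT
  set B1 : Set A := {a : A | ∃ b ∈ tor (A := A) p (k + 2), p • b = a}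
  have hch : ∀ x : MulAction.orbit T (inc B1), ∃ y : MulAction.orbit
      (fx Q (tor (A := A) p (k + 1) : Set A)) (inc (tor (A := A) p (k + 2) : Set A)),
      ∀ (a : A) (ha : a ∈ tor (A := A) p (k + 2)), y.1 ⟨a, ha⟩ - a = x.1 ⟨p • a, a, ha, rfl⟩ - p • a := by
    rintro ⟨x, s, rfl⟩
    have hs : ∀ a ∈ tor (A := A) p k, s.1 • a = a := ((mem_fx _ _ _).1 s.2).2
    have hsp : s.1 ^ p ∈ fx Q (tor (A := A) p (k + 1) : Set A) := by
      rw [mem_fx]
      refine ⟨hQ _, fun a ha => ?_⟩
      have ha2 : a ∈ tor (A := A) p (k + 2) := tor_mono p (by omega) ha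
      have := pow_smul_p hk s.1 hs a ha2
      have hpa : p • a ∈ tor (A := A) p k := by
        rw [mem_tor, ← mul_smul, ← pow_succ]; exact ha
      rw [hs _ hpa, sub_self] at this
      exact sub_eq_zero.1 this
    refine ⟨⟨_, ⟨⟨s.1 ^ p, hsp⟩, rfl⟩⟩, fun a ha => ?_⟩
    exact pow_smul_p hk s.1 hs a ha
  choose F hF using hch
  haveI : Finite (MulAction.orbit (fx Q (tor (A := A) p (k + 1) : Set A))
    (inc (tor (A := A) p (k + 2) : Set A))) := Finite.Set.finite_range _
  refine Nat.card_le_card_of_injective F ?_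
  intro x y hxy
  apply Subtype.ext
  funext b
  obtain ⟨b, a, ha, rfl⟩ := b
  have h1 := hF x a ha
  have h2 := hF y a ha
  rw [hxy] at h1
  have := h1.symm.trans h2
  exact sub_left_injective this

omit [Finite A] [Finite S] in
lemma fx_fx (T : Subgroup S) (B B' : Set A) : fx (fx T B) B' = fx T (B ∪ B') := by
  ext s
  rw [mem_fx, mem_fx, mem_fx]
  constructor
  · rintro ⟨⟨h1, h2⟩, h3⟩
    exact ⟨h1, fun b hb => hb.elim (h2 b) (h3 b)⟩
  · rintro ⟨h1, h2⟩
    exact ⟨⟨h1, fun b hb => h2 b (Or.inl hb)⟩, fun b hb => h2 b (Or.inr hb)⟩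

omit [Finite A] in
lemma fx_mono {T T' : Subgroup S} (h : T ≤ T') (B : Set A) : Nat.card (fx T B) ≤ Nat.card (fx T' B) :=
  Nat.card_le_card_of_injective (fun s : fx T B => (⟨s.1, by
    have := s.2
    rw [mem_fx] at *
    exact ⟨h this.1, this.2⟩⟩ : fx T' B)) (by
      intro a b hab
      have h : a.1 = b.1 := congrArg (fun z : fx T' B => z.1) hab
      exact Subtype.ext h)

lemma step {p : ℕ} (hp : p.Prime) (r : ℕ)
    (hr : Nat.card {a : A // p • a = 0} = p ^ r) (Q : Subgroup S) (hQ : ∀ s, s ^ p ∈ Q)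
    (κ : ℕ) {k : ℕ} (hk : 2 ≤ k)
    (ih : Nat.card (fx (⊤ : Subgroup S) (tor (A := A) p (k + 1) : Set A)) *
      Nat.card (tor (A := A) p (k + 1) ⊔ mp p : AddSubgroup A) ^ r ≤
      Nat.card (fx Q (tor (A := A) p (k + 2) : Set A)) * Nat.card A ^ r * κ) :
    Nat.card (fx (⊤ : Subgroup S) (tor (A := A) p k : Set A)) *
      Nat.card (tor (A := A) p k ⊔ mp p : AddSubgroup A) ^ r ≤
      Nat.card (fx Q (tor (A := A) p (k + 1) : Set A)) * Nat.card A ^ r * κ := by
  set B1 : Set A := {a : A | ∃ b ∈ tor (A := A) p (k + 2), p • b = a} with hB1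
  set T := fx (⊤ : Subgroup S) (tor (A := A) p k : Set A) with hT
  set C : AddSubgroup A := tor (A := A) p (k + 1) ⊓ (tor (A := A) p k ⊔ mp p) with hC
  have hB1sub : B1 ⊆ (tor (A := A) p (k + 1) : Set A) := by
    rintro a ⟨b, hb, rfl⟩
    show p ^ (k + 1) • (p • b) = 0
    rw [← mul_smul, ← pow_succ]; exact hb
  have e1 := card_eq_os_mul T B1
  have e2 := card_eq_os_mul (fx T B1) (tor (A := A) p (k + 1) : Set A)
  have e3 : fx (fx T B1) (tor (A := A) p (k + 1) : Set A) =
      fx (⊤ : Subgroup S) (tor (A := A) p (k + 1) : Set A) := by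
    rw [hT, fx_fx, fx_fx]
    congr 1
    have h1 : (tor (A := A) p k : Set A) ⊆ (tor (A := A) p (k + 1) : Set A) :=
      tor_mono p (Nat.le_succ k)
    rw [← Set.union_assoc]
    exact Set.union_eq_right.2 (Set.union_subset h1 hB1sub)
  have e4 := card_eq_os_mul (fx Q (tor (A := A) p (k + 1) : Set A)) (tor (A := A) p (k + 2) : Set A)
  have e5 : fx (fx Q (tor (A := A) p (k + 1) : Set A)) (tor (A := A) p (k + 2) : Set A) =
      fx Q (tor (A := A) p (k + 2) : Set A) := by
    rw [fx_fx]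
    congr 1
    exact Set.union_eq_right.2 (tor_mono p (Nat.le_succ (k + 1)))
  rw [e3] at e2
  rw [e5] at e4
  have i1 := os_le_os (A := A) hk Q hQ
  have i2 : os (fx T B1) (tor (A := A) p (k + 1) : Set A) * Nat.card C ^ r ≤
      Nat.card (tor (A := A) p (k + 1)) ^ r := by
    apply os_le hp r hr (fx T B1) (tor (A := A) p (k + 1)) C inf_le_left
    · intro b hb
      have h1 : p • b ∈ tor (A := A) p k := by
        rw [mem_tor, ← mul_smul, ← pow_succ]; exact hb
      exact ⟨tor_mono p (Nat.le_succ k) h1, AddSubgroup.mem_sup_left h1⟩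
    · intro s hs c hc
      rw [mem_fx] at hs
      obtain ⟨hs1, hs2⟩ := hs
      rw [hT, mem_fx] at hs1
      obtain ⟨hc1, hc2⟩ := hc
      obtain ⟨a, ha, y, hy, hay⟩ := AddSubgroup.mem_sup.1 hc2
      obtain ⟨b, hb⟩ := hy
      have hb' : p • b = y := hb
      have hy2 : y ∈ tor (A := A) p (k + 1) := by
        have : y = c - a := by rw [← hay]; abel
        rw [this]
        exact AddSubgroup.sub_mem _ hc1 (tor_mono p (Nat.le_succ k) ha)
      have hb2 : b ∈ tor (A := A) p (k + 2) := by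
        rw [mem_tor, ← hb', ← mul_smul, ← pow_succ] at hy2
        exact hy2
      rw [← hay, smul_add, hs1.2 a ha, hs2 y ⟨b, hb2, hb'⟩]
  have i3 : Nat.card (tor (A := A) p (k + 1)) * Nat.card (tor (A := A) p k ⊔ mp p : AddSubgroup A) =
      Nat.card C * Nat.card (tor (A := A) p (k + 1) ⊔ mp p : AddSubgroup A) := by
    have := card_mul_card (tor (A := A) p (k + 1)) (tor (A := A) p k ⊔ mp p)
    rw [this]
    congr 2
    rw [← sup_assoc, sup_eq_left.2 (tor_mono (A := A) p (Nat.le_succ k))]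
  have hCpos : 0 < Nat.card C ^ r := pow_pos Nat.card_pos r
  apply Nat.le_of_mul_le_mul_left _ hCpos
  set t1 := Nat.card (fx (⊤ : Subgroup S) (tor (A := A) p (k + 1) : Set A))
  set q2 := Nat.card (fx Q (tor (A := A) p (k + 2) : Set A))
  set o1 := os T B1
  set o2 := os (fx T B1) (tor (A := A) p (k + 1) : Set A)
  set o3 := os (fx Q (tor (A := A) p (k + 1) : Set A)) (tor (A := A) p (k + 2) : Set A)
  set c := Nat.card C
  set a1 := Nat.card (tor (A := A) p (k + 1))
  set M0 := Nat.card (tor (A := A) p k ⊔ mp p : AddSubgroup A)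
  set M1 := Nat.card (tor (A := A) p (k + 1) ⊔ mp p : AddSubgroup A)
  rw [e1, e2, e4]
  calc c ^ r * (o1 * (o2 * t1) * M0 ^ r) = o1 * (o2 * c ^ r) * t1 * M0 ^ r := by ring
    _ ≤ o3 * (a1 ^ r) * t1 * M0 ^ r := by gcongr
    _ = o3 * (a1 * M0) ^ r * t1 := by rw [mul_pow]; ring
    _ = o3 * (c * M1) ^ r * t1 := by rw [i3]
    _ = o3 * c ^ r * (t1 * M1 ^ r) := by rw [mul_pow]; ring
    _ ≤ o3 * c ^ r * (q2 * Nat.card A ^ r * κ) := by gcongr
    _ = c ^ r * (o3 * q2 * Nat.card A ^ r * κ) := by ring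

lemma allk {p : ℕ} (hp : p.Prime) (r : ℕ)
    (hr : Nat.card {a : A // p • a = 0} = p ^ r) (Q : Subgroup S) (hQ : ∀ s, s ^ p ∈ Q)
    (κ : ℕ) (hκ : Nat.card (fx (⊤ : Subgroup S) (Set.univ : Set A)) ≤
      Nat.card (fx Q (Set.univ : Set A)) * κ) (N : ℕ) (hN : ∀ a : A, p ^ N • a = 0) :
    ∀ j k : ℕ, 2 ≤ k → N ≤ k + j →
    Nat.card (fx (⊤ : Subgroup S) (tor (A := A) p k : Set A)) *
      Nat.card (tor (A := A) p k ⊔ mp p : AddSubgroup A) ^ r ≤
      Nat.card (fx Q (tor (A := A) p (k + 1) : Set A)) * Nat.card A ^ r * κ := by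
  intro j
  induction j with
  | zero =>
    intro k hk hNk
    have h1 : ∀ l, N ≤ l → (tor (A := A) p l) = ⊤ := by
      intro l hl
      rw [eq_top_iff]
      intro a _
      exact tor_mono p hl (hN a)
    rw [h1 k (by omega), h1 (k + 1) (by omega), AddSubgroup.coe_top, top_sup_eq,
      AddSubgroup.card_top]
    calc _ ≤ Nat.card (fx Q (Set.univ : Set A)) * κ * Nat.card A ^ r := by gcongr
      _ = _ := by ring
  | succ j ih =>
    intro k hk hNk
    exact step hp r hr Q hQ κ hk (ih (k + 1) (by omega) (by omega))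

theorem card_le {p : ℕ} (hp : p.Prime) (r : ℕ)
    (hr : Nat.card {a : A // p • a = 0} = p ^ r) (Q : Subgroup S) (hQ : ∀ s, s ^ p ∈ Q)
    (κ : ℕ) (hκ : Nat.card (fx (⊤ : Subgroup S) (Set.univ : Set A)) ≤
      Nat.card (fx Q (Set.univ : Set A)) * κ) (N : ℕ) (hN : ∀ a : A, p ^ N • a = 0) :
    Nat.card S ≤ Nat.card Q * p ^ (3 * r ^ 2) * κ := by
  have hA1 : Nat.card (tor (A := A) p 1) = p ^ r := by
    rw [← hr]
    refine Nat.card_congr (Equiv.subtypeEquivRight (fun a => ?_))
    rw [mem_tor, pow_one]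
  have key := allk hp r hr Q hQ κ hκ N hN N 2 le_rfl (by omega)
  -- T_0 to T_1
  have a1 := card_eq_os_mul (⊤ : Subgroup S) (tor (A := A) p 1 : Set A)
  have b1 : os (⊤ : Subgroup S) (tor (A := A) p 1 : Set A) ≤ p ^ (r ^ 2) := by
    have := os_le hp r hr (⊤ : Subgroup S) (tor (A := A) p 1) ⊥ bot_le (by
      intro b hb
      rw [mem_tor, pow_one] at hb
      rw [hb]; exact AddSubgroup.zero_mem _) (by
      intro s _ c hc
      rw [AddSubgroup.mem_bot] at hc
      rw [hc, smul_zero])
    rw [hA1] at this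
    simpa [← pow_mul, sq] using this
  have a2 := card_eq_os_mul (fx (⊤ : Subgroup S) (tor (A := A) p 1 : Set A)) (tor (A := A) p 2 : Set A)
  have e2 : fx (fx (⊤ : Subgroup S) (tor (A := A) p 1 : Set A)) (tor (A := A) p 2 : Set A) =
      fx (⊤ : Subgroup S) (tor (A := A) p 2 : Set A) := by
    rw [fx_fx]
    congr 1
    exact Set.union_eq_right.2 (tor_mono p (by norm_num))
  rw [e2] at a2
  have b2 : os (fx (⊤ : Subgroup S) (tor (A := A) p 1 : Set A)) (tor (A := A) p 2 : Set A) ≤ p ^ (r ^ 2) := by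
    have := os_le hp r hr (fx (⊤ : Subgroup S) (tor (A := A) p 1 : Set A)) (tor (A := A) p 2)
      (tor (A := A) p 1) (tor_mono p (by norm_num)) (by
      intro b hb
      rw [mem_tor] at *
      rw [← mul_smul, ← pow_succ]; exact hb) (by
      intro s hs c hc
      exact ((mem_fx _ _ _).1 hs).2 c hc)
    have hA2 : Nat.card (tor (A := A) p 2) ≤ Nat.card (tor (A := A) p 1) * Nat.card (tor (A := A) p 1) := by
      let f : tor (A := A) p 2 →+ tor (A := A) p 1 :=
        { toFun := fun a => ⟨p • a.1, by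
            have := a.2
            rw [mem_tor] at *
            rw [← mul_smul, ← pow_succ]; exact this⟩
          map_zero' := by apply Subtype.ext; simp
          map_add' := by intro a b; apply Subtype.ext; simp }
      have h1 := AddSubgroup.card_eq_card_quotient_mul_card_addSubgroup f.ker
      have h2 : Nat.card (tor (A := A) p 2 ⧸ f.ker) ≤ Nat.card (tor (A := A) p 1) := by
        rw [Nat.card_congr (QuotientAddGroup.quotientKerEquivRange f).toEquiv]
        exact Nat.card_le_card_of_injective _ Subtype.val_injective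
      have h3 : Nat.card f.ker ≤ Nat.card (tor (A := A) p 1) := by
        refine Nat.card_le_card_of_injective (fun x : f.ker => (⟨x.1.1, ?_⟩ : tor (A := A) p 1)) ?_
        · have := x.2
          rw [AddMonoidHom.mem_ker] at this
          have h4 := congrArg Subtype.val this
          rw [mem_tor, pow_one]
          exact h4
        · intro x y hxy
          have h : x.1.1 = y.1.1 := congrArg (fun z : tor (A := A) p 1 => z.1) hxy
          exact Subtype.ext (Subtype.ext h)
      rw [h1]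
      exact Nat.mul_le_mul h2 h3
    have hpos : 0 < Nat.card (tor (A := A) p 1) ^ r := pow_pos Nat.card_pos r
    have h5 : os (fx (⊤ : Subgroup S) (tor (A := A) p 1 : Set A)) (tor (A := A) p 2 : Set A) *
        Nat.card (tor (A := A) p 1) ^ r ≤ Nat.card (tor (A := A) p 1) ^ r * Nat.card (tor (A := A) p 1) ^ r := by
      refine this.trans ?_
      rw [← mul_pow]
      exact Nat.pow_le_pow_left hA2 r
    have h6 := Nat.le_of_mul_le_mul_right h5 hpos
    rw [hA1, ← pow_mul, ← sq] at h6
    exact h6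
  -- final
  have hM : Nat.card A ≤ Nat.card (tor (A := A) p 2 ⊔ mp p : AddSubgroup A) * p ^ r := by
    have h1 := AddSubgroup.card_eq_card_quotient_mul_card_addSubgroup (nsmulAddMonoidHom (α := A) p).ker
    have h2 : Nat.card (A ⧸ (nsmulAddMonoidHom (α := A) p).ker) = Nat.card (mp (A := A) p) :=
      Nat.card_congr (QuotientAddGroup.quotientKerEquivRange _).toEquiv
    have h3 : Nat.card (nsmulAddMonoidHom (α := A) p).ker = p ^ r := by
      rw [← hr]
      exact Nat.card_congr (Equiv.subtypeEquivRight (fun a => Iff.rfl))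
    rw [h1, h2, h3]
    apply Nat.mul_le_mul_right
    exact Nat.card_le_card_of_injective (fun x : mp (A := A) p =>
      (⟨x.1, AddSubgroup.mem_sup_right x.2⟩ : (tor (A := A) p 2 ⊔ mp p : AddSubgroup A))) (by
        intro x y hxy
        have h : x.1 = y.1 :=
          congrArg (fun z : (tor (A := A) p 2 ⊔ mp p : AddSubgroup A) => z.1) hxy
        exact Subtype.ext h)
  have hMr : Nat.card A ^ r ≤ Nat.card (tor (A := A) p 2 ⊔ mp p : AddSubgroup A) ^ r * p ^ (r ^ 2) := by
    have := Nat.pow_le_pow_left hM r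
    rwa [mul_pow, ← pow_mul, ← sq] at this
  have hq : Nat.card (fx Q (tor (A := A) p (2 + 1) : Set A)) ≤ Nat.card Q := by
    refine Nat.card_le_card_of_injective (fun s => (⟨s.1, ((mem_fx _ _ _).1 s.2).1⟩ : Q)) ?_
    intro x y hxy
    have h : x.1 = y.1 := congrArg (fun z : Q => z.1) hxy
    exact Subtype.ext h
  have hMpos : 0 < Nat.card (tor (A := A) p 2 ⊔ mp p : AddSubgroup A) ^ r := pow_pos Nat.card_pos r
  have h2 : Nat.card (fx (⊤ : Subgroup S) (tor (A := A) p 2 : Set A)) ≤ Nat.card Q * p ^ (r ^ 2) * κ := by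
    apply Nat.le_of_mul_le_mul_right _ hMpos
    calc _ ≤ _ := key
      _ ≤ Nat.card Q * (Nat.card (tor (A := A) p 2 ⊔ mp p : AddSubgroup A) ^ r * p ^ (r ^ 2)) * κ := by
          gcongr
      _ = _ := by ring
  rw [Subgroup.card_top] at a1
  rw [a1, a2]
  calc _ ≤ p ^ (r ^ 2) * (p ^ (r ^ 2) * (Nat.card Q * p ^ (r ^ 2) * κ)) := by gcongr
    _ = Nat.card Q * p ^ (3 * r ^ 2) * κ := by
      rw [show 3 * r ^ 2 = r ^ 2 + r ^ 2 + r ^ 2 by ring, pow_add, pow_add]; ring

end

end Pool.Agent.H227R3.Lat.Rank
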