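import Pool.Agent.H227R3.Lat.PGrp

set_option autoImplicit false

/-!
Partial spreads in elementary abelian groups.
-/

namespace Pool.Agent.H227R3.Lat

lemma card_sup_le {E : Type} [CommGroup E] [Finite E] (H K : Subgroup E) :
    Nat.card (H ⊔ K : Subgroup E) ≤ Nat.card H * Nat.card K := by
  rw [← Nat.card_prod]
  refine Nat.card_le_card_of_surjective (fun x : H × K =>
    (⟨x.1.1 * x.2.1, Subgroup.mul_mem_sup x.1.2 x.2.2⟩ : (H ⊔ K : Subgroup E))) ?_
  rintro ⟨x, hx⟩
  obtain ⟨a, ha, b, hb, rfl⟩ := Subgroup.mem_sup.1 hx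
  exact ⟨(⟨a, ha⟩, ⟨b, hb⟩), rfl⟩

lemma spread_aux {p : ℕ} (hp : p.Prime) {E : Type} [CommGroup E] [Finite E]
    (hE : ∀ a : E, a ^ p = 1) (h n : ℕ) (W : Fin n → Subgroup E)
    (hW : ∀ i, Nat.card (W i) ≤ p ^ h) (hn : (n + 1) * p ^ (2 * h) ≤ Nat.card E) :
    ∀ t ≤ h, ∃ H : Subgroup E, Nat.card H = p ^ t ∧ ∀ i, ∀ g ∈ H, g ∈ W i → g = 1 := by
  haveI : Fact p.Prime := ⟨hp⟩
  intro t
  induction t with
  | zero =>
    intro _
    refine ⟨⊥, by simp, fun i g hg _ => Subgroup.mem_bot.1 hg⟩
  | succ t ih =>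
    intro ht
    obtain ⟨H, hH, hHW⟩ := ih (by omega)
    let W' : Option (Fin n) → Subgroup E := fun o => o.elim ⊥ W
    have hW' : ∀ o, Nat.card (W' o) ≤ p ^ h := by
      intro o
      cases o with
      | none => 
        show Nat.card (⊥ : Subgroup E) ≤ p ^ h
        simp only [Subgroup.card_bot]
        exact Nat.one_le_pow _ _ hp.pos
      | some i => exact hW i
    obtain ⟨v, hv⟩ : ∃ v : E, ∀ o, v ∉ H ⊔ W' o := by
      by_contra hcon
      push Not at hcon
      have hsurj : Function.Surjective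
          (fun x : (Σ o : Option (Fin n), (H ⊔ W' o : Subgroup E)) => x.2.1) := by
        intro v
        obtain ⟨o, ho⟩ := hcon v
        exact ⟨⟨o, v, ho⟩, rfl⟩
      have h1 := Nat.card_le_card_of_surjective _ hsurj
      rw [Nat.card_sigma] at h1
      have h2 : ∑ o : Option (Fin n), Nat.card (H ⊔ W' o : Subgroup E) ≤
          ∑ o : Option (Fin n), p ^ t * p ^ h := by
        apply Finset.sum_le_sum
        intro o _
        refine (card_sup_le H (W' o)).trans ?_
        rw [hH]
        exact Nat.mul_le_mul_left _ (hW' o)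
      rw [Finset.sum_const, Finset.card_univ, Fintype.card_option, Fintype.card_fin, smul_eq_mul] at h2
      have h3 : p ^ t * p ^ h < p ^ (2 * h) := by
        rw [← pow_add]
        exact Nat.pow_lt_pow_right hp.one_lt (by omega)
      have h4 : (n + 1) * (p ^ t * p ^ h) < (n + 1) * p ^ (2 * h) :=
        Nat.mul_lt_mul_of_pos_left h3 (Nat.succ_pos n)
      omega
    have hvH : v ∉ H := fun h => hv none (Subgroup.mem_sup_left h)
    refine ⟨H ⊔ Subgroup.zpowers v, ?_, ?_⟩
    · -- cardinality
      have hvp : orderOf v = p := by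
        have h1 : orderOf v ∣ p := orderOf_dvd_of_pow_eq_one (hE v)
        rcases (Nat.dvd_prime hp).1 h1 with h2 | h2
        · exfalso
          rw [orderOf_eq_one_iff] at h2
          exact hvH (h2 ▸ H.one_mem)
        · exact h2
      have hup : Nat.card (H ⊔ Subgroup.zpowers v : Subgroup E) ≤ p ^ (t + 1) := by
        refine (card_sup_le H _).trans ?_
        rw [hH, Nat.card_zpowers, hvp, pow_succ]
      have hEp : IsPGroup p E := by
        intro a
        exact ⟨1, by rw [pow_one]; exact hE a⟩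
      obtain ⟨k, hk⟩ := IsPGroup.iff_card.1 (hEp.to_subgroup (H ⊔ Subgroup.zpowers v))
      have hlt : H < H ⊔ Subgroup.zpowers v := by
        refine lt_of_le_of_ne le_sup_left (fun h => hvH ?_)
        rw [h]; exact Subgroup.mem_sup_right (Subgroup.mem_zpowers v)
      have hcl : Nat.card H < Nat.card (H ⊔ Subgroup.zpowers v : Subgroup E) := by
        have := Set.ncard_lt_ncard (show (H : Set E) ⊂ ((H ⊔ Subgroup.zpowers v : Subgroup E) : Set E) from hlt)
          (Set.toFinite _)
        exact this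
      rw [hH, hk] at hcl
      rw [hk] at hup ⊢
      have h1 := (Nat.pow_lt_pow_iff_right hp.one_lt).1 hcl
      have h2 := (Nat.pow_le_pow_iff_right hp.one_lt).1 hup
      congr 1; omega
    · intro i g hg hgW
      obtain ⟨a, ha, z, hz, rfl⟩ := Subgroup.mem_sup.1 hg
      obtain ⟨k, rfl⟩ := Subgroup.mem_zpowers_iff.1 hz
      by_cases hk : (p : ℤ) ∣ k
      · obtain ⟨l, rfl⟩ := hk
        have : v ^ ((p : ℤ) * l) = 1 := by
          rw [zpow_mul, zpow_natCast, hE, one_zpow]
        rw [this, mul_one] at hgW ⊢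
        exact hHW i a ha hgW
      · exfalso
        have hcop : IsCoprime k (p : ℤ) := by
          rw [isCoprime_comm]
          exact (Nat.prime_iff_prime_int.1 hp).coprime_iff_not_dvd.2 hk
        obtain ⟨a', b', hab⟩ := hcop
        have hvk : v ^ k ∈ H ⊔ W i := by
          have : v ^ k = a⁻¹ * (a * v ^ k) := by group
          rw [this]
          exact Subgroup.mul_mem_sup (H.inv_mem ha) hgW
        have hv1 : v = (v ^ k) ^ a' := by
          have h2 : v ^ (a' * k + b' * p) = v := by rw [hab, zpow_one]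
          rw [zpow_add, mul_comm a' k, zpow_mul, mul_comm b' (p : ℤ), zpow_mul v (p : ℤ) b', zpow_natCast, hE,
            one_zpow, mul_one] at h2
          exact h2.symm
        apply hv (some i)
        rw [hv1]
        exact Subgroup.zpow_mem _ hvk a'

/-- partial spread in a group -/
lemma spread {p : ℕ} (hp : p.Prime) {G : Type} [Group G] [Finite G] (E : Subgroup G)
    (hE : ∀ a ∈ E, a ^ p = 1) (hEc : ∀ a ∈ E, ∀ b ∈ E, a * b = b * a) (h : ℕ) (x : ℕ → G) :
    ∀ m : ℕ, (2 * m + 1) * p ^ (2 * h) ≤ Nat.card E →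
    ∃ H : ℕ → Subgroup G, (∀ i < m, H i ≤ E ∧ Nat.card (H i) = p ^ h) ∧
      (∀ i < m, ∀ j < m, i ≠ j → (∀ g ∈ H i, g ∈ H j → g = 1) ∧
        ∀ g ∈ H i, ∀ g' ∈ H j, (x i)⁻¹ * g * x i = (x j)⁻¹ * g' * x j → g = 1) := by
  intro m
  induction m with
  | zero => intro _; exact ⟨fun _ => ⊥, by intro i hi; omega, by intro i hi; omega⟩
  | succ m ih =>
    intro hm
    obtain ⟨H, hH1, hH2⟩ := ih (by
      refine le_trans ?_ hm
      apply Nat.mul_le_mul_right; omega)
    let cg : CommGroup E := { (inferInstance : Group E) with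
      mul_comm := fun a b => Subtype.ext (hEc a.1 a.2 b.1 b.2) }
    let W : Fin (2 * m) → Subgroup E := fun i =>
      if i.1 < m then (H i.1).subgroupOf E else
        ((H (i.1 - m)).map (MulAut.conj (x m * (x (i.1 - m))⁻¹)).toMonoidHom).subgroupOf E
    have hsub : ∀ K : Subgroup G, Nat.card (K.subgroupOf E) ≤ Nat.card K := by
      intro K
      refine Nat.card_le_card_of_injective (fun s : K.subgroupOf E => (⟨s.1.1, s.2⟩ : K)) ?_
      intro a b hab
      have : a.1.1 = b.1.1 := congrArg (fun z : K => z.1) hab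
      exact Subtype.ext (Subtype.ext this)
    have hW : ∀ i, Nat.card (W i) ≤ p ^ h := by
      intro i
      show Nat.card (if i.1 < m then (H i.1).subgroupOf E else
        ((H (i.1 - m)).map (MulAut.conj (x m * (x (i.1 - m))⁻¹)).toMonoidHom).subgroupOf E : Subgroup E) ≤ _
      by_cases hi : i.1 < m
      · rw [if_pos hi]
        exact (hsub _).trans (hH1 i.1 hi).2.le
      · rw [if_neg hi]
        refine (hsub _).trans ?_
        have h1 : i.1 - m < m := by have := i.2; omega
        rw [← (hH1 _ h1).2]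
        refine Nat.card_le_card_of_surjective (fun s : H (i.1 - m) =>
          (⟨(MulAut.conj (x m * (x (i.1 - m))⁻¹)).toMonoidHom s.1, Subgroup.mem_map_of_mem _ s.2⟩ :
            ((H (i.1 - m)).map (MulAut.conj (x m * (x (i.1 - m))⁻¹)).toMonoidHom))) ?_
        rintro ⟨_, s, hs, rfl⟩
        exact ⟨⟨s, hs⟩, rfl⟩
    obtain ⟨H0, hH0, hH0W⟩ := spread_aux hp (E := E) (fun a => Subtype.ext (hE a.1 a.2)) h (2 * m) W hW
      (le_trans (Nat.mul_le_mul_right _ (by omega)) hm) h le_rfl
    let Hn : Subgroup G := H0.map E.subtype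
    have hHn : Nat.card Hn = p ^ h := by
      rw [← hH0]
      exact (Nat.card_congr (H0.equivMapOfInjective E.subtype E.subtype_injective).toEquiv).symm
    have hHnE : Hn ≤ E := by
      rintro _ ⟨a, -, rfl⟩
      exact a.2
    have key1 : ∀ j < m, ∀ g ∈ Hn, g ∈ H j → g = 1 := by
      rintro j hj _ ⟨a, ha, rfl⟩ hg
      have : a ∈ W ⟨j, by omega⟩ := by
        show a ∈ (if j < m then (H j).subgroupOf E else _ : Subgroup E)
        rw [if_pos hj]
        exact hg
      have := hH0W _ a ha this
      rw [this]; rfl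
    have key2 : ∀ j < m, ∀ g ∈ Hn, ∀ g' ∈ H j, (x m)⁻¹ * g * x m = (x j)⁻¹ * g' * x j → g = 1 := by
      rintro j hj _ ⟨a, ha, rfl⟩ g' hg' e
      have : a ∈ W ⟨m + j, by omega⟩ := by
        show a ∈ (if m + j < m then (H (m + j)).subgroupOf E else
          ((H (m + j - m)).map (MulAut.conj (x m * (x (m + j - m))⁻¹)).toMonoidHom).subgroupOf E : Subgroup E)
        rw [if_neg (by omega), Nat.add_sub_cancel_left]
        show a.1 ∈ (H j).map (MulAut.conj (x m * (x j)⁻¹)).toMonoidHom
        refine ⟨g', hg', ?_⟩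
        show (x m * (x j)⁻¹) * g' * (x m * (x j)⁻¹)⁻¹ = a.1
        have e' : (x m)⁻¹ * a.1 * x m = (x j)⁻¹ * g' * x j := e
        have : a.1 = x m * ((x j)⁻¹ * g' * x j) * (x m)⁻¹ := by rw [← e']; group
        rw [this]; group
      have := hH0W _ a ha this
      rw [this]; rfl
    refine ⟨Function.update H m Hn, ?_, ?_⟩
    · intro i hi
      by_cases him : i = m
      · subst him
        rw [Function.update_self]; exact ⟨hHnE, hHn⟩
      · rw [Function.update_of_ne him]
        exact hH1 i (by omega)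
    · intro i hi j hj hij
      by_cases him : i = m
      · subst him
        rw [Function.update_self, Function.update_of_ne (Ne.symm hij)]
        exact ⟨key1 j (by omega), key2 j (by omega)⟩
      · rw [Function.update_of_ne him]
        by_cases hjm : j = m
        · subst hjm
          rw [Function.update_self]
          refine ⟨fun g hg hg' => key1 i (by omega) g hg' hg, fun g hg g' hg' e => ?_⟩
          have h1 := key2 i (by omega) g' hg' g hg e.symm
          rw [h1] at e
          have : g = x i * ((x i)⁻¹ * g * x i) * (x i)⁻¹ := by group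
          rw [this, e]; group
        · rw [Function.update_of_ne hjm]
          exact hH2 i (by omega) j (by omega) hij

end Pool.Agent.H227R3.Lat
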