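import Pool.Agent.H227R3.Lat.Latt

set_option autoImplicit false

/-!
Sorted systems and the partial linear space they define.
-/

namespace Pool.Agent.H227R3.Lat

/-- a sorted system of `G`-sets with equivariant relations -/
structure Sys (G : Type) [Group G] where
  ι : Type
  W : ι → Type
  act : ∀ i, MulAction G (W i)
  co : ι → ℕ
  co_inj : Function.Injective co
  s : ℕ
  co_lt : ∀ i, co i < s
  K : Type
  nm : K → ι
  tg : K → ι
  tn : ∀ k, co (tg k) < co (nm k)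
  pair : ∀ k l, nm k = nm l → tg k = tg l → k = l
  R : ∀ k, W (nm k) → W (tg k) → Prop
  R_ex : ∀ k c, ∃ d, R k c d
  R_eq : ∀ k (g : G) c d, R k c d → R k (g • c) (g • d)
  inter : ∀ k (c : W (nm k)) l (c' : W (nm l)),
    (⟨k, c⟩ : Σ k, W (nm k)) ≠ ⟨l, c'⟩ →
    ({x : Σ i, W i | ∃ d, R k c d ∧ x = ⟨tg k, d⟩} ∩ {x | ∃ d, R l c' d ∧ x = ⟨tg l, d⟩}).Subsingleton

namespace Sys

variable {G : Type} [Group G] (Y : Sys G)

instance (i : Y.ι) : MulAction G (Y.W i) := Y.act i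

/-- the points -/
abbrev V : Type := Σ i, Y.W i

/-- target part of a block -/
def tp (k : Y.K) (c : Y.W (Y.nm k)) : Set Y.V := {x | ∃ d, Y.R k c d ∧ x = ⟨Y.tg k, d⟩}

/-- the blocks -/
def blk (k : Y.K) (c : Y.W (Y.nm k)) : Set Y.V := insert ⟨Y.nm k, c⟩ (Y.tp k c)

lemma tp_fst {k : Y.K} {c : Y.W (Y.nm k)} {x : Y.V} (h : x ∈ Y.tp k c) : x.1 = Y.tg k := by
  obtain ⟨d, -, rfl⟩ := h; rfl

lemma tg_ne_nm (k : Y.K) : Y.tg k ≠ Y.nm k := fun h => by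
  have := Y.tn k; rw [h] at this; exact lt_irrefl _ this

lemma blk_eq {k : Y.K} {c : Y.W (Y.nm k)} {l : Y.K} {c' : Y.W (Y.nm l)}
    (h : (⟨Y.nm k, c⟩ : Y.V) ∈ Y.blk l c') (h2 : ∃ d, (⟨Y.tg k, d⟩ : Y.V) ∈ Y.blk l c') :
    (⟨k, c⟩ : Σ k, Y.W (Y.nm k)) = ⟨l, c'⟩ := by
  have hkl : k = l := by
    obtain ⟨d, hd⟩ := h2
    have hk := Y.tn k
    have hl := Y.tn l
    rcases h with h | h
    · have e1 : Y.nm k = Y.nm l := congrArg Sigma.fst h
      rcases hd with hd | hd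
      · have e2 : Y.tg k = Y.nm l := congrArg Sigma.fst hd
        rw [e1, e2] at hk
        exact absurd hk (lt_irrefl _)
      · exact Y.pair k l e1 (Y.tp_fst hd)
    · have e1 : Y.nm k = Y.tg l := Y.tp_fst h
      rcases hd with hd | hd
      · have e2 : Y.tg k = Y.nm l := congrArg Sigma.fst hd
        rw [e1, e2] at hk
        exact absurd (hk.trans hl) (lt_irrefl _)
      · have e2 : Y.tg k = Y.tg l := Y.tp_fst hd
        rw [e1, e2] at hk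
        exact absurd hk (lt_irrefl _)
  subst hkl
  rcases h with h | h
  · have : c = c' := by
      have := (Sigma.mk.inj_iff.1 h).2
      exact eq_of_heq this
    rw [this]
  · exact absurd (Y.tp_fst h) (Y.tg_ne_nm k).symm

/-- the partial linear space -/
def toPLS : PLS Y.V where
  col x := Y.co x.1
  s := Y.s
  col_lt x := Y.co_lt x.1
  blocks := {b | ∃ k c, b = Y.blk k c}
  two := by
    rintro b ⟨k, c, rfl⟩
    obtain ⟨d, hd⟩ := Y.R_ex k c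
    refine ⟨⟨Y.nm k, c⟩, Or.inl rfl, ⟨Y.tg k, d⟩, Or.inr ⟨d, hd, rfl⟩, fun h => ?_⟩
    exact Y.tg_ne_nm k (congrArg Sigma.fst h).symm
  inter := by
    rintro b ⟨k, c, rfl⟩ b' ⟨l, c', rfl⟩ hne
    have hne' : (⟨k, c⟩ : Σ k, Y.W (Y.nm k)) ≠ ⟨l, c'⟩ := by
      intro h
      apply hne
      cases h
      rfl
    have hT := Y.inter k c l c' hne'
    have hk := Y.tn k
    have hl := Y.tn l
    rintro x ⟨hx1, hx2⟩ y ⟨hy1, hy2⟩
    rcases hx1 with hx1 | hx1 <;> rcases hx2 with hx2 | hx2 <;> rcases hy1 with hy1 | hy1 <;>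
      rcases hy2 with hy2 | hy2
    · rw [hx1, hy1]
    · rw [hx1, hy1]
    · rw [hx2, hy2]
    · exfalso
      apply hne'
      apply Y.blk_eq
      · rw [← hx1]; exact Or.inl hx2
      · obtain ⟨d, hd, rfl⟩ := hy1
        exact ⟨d, Or.inr hy2⟩
    · rw [hx1, hy1]
    · rw [hx1, hy1]
    · exfalso
      have e1 : Y.nm k = Y.tg l := by rw [hx1] at hx2; exact Y.tp_fst hx2
      have e2 : Y.nm l = Y.tg k := by rw [hy2] at hy1; exact Y.tp_fst hy1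
      rw [e1] at hk; rw [e2] at hl
      exact absurd (hk.trans hl) (lt_irrefl _)
    · exfalso
      have e1 : Y.nm k = Y.tg l := by rw [hx1] at hx2; exact Y.tp_fst hx2
      have e2 : Y.tg k = Y.tg l := (Y.tp_fst hy1).symm.trans (Y.tp_fst hy2)
      rw [e1, e2] at hk
      exact absurd hk (lt_irrefl _)
    · rw [hx2, hy2]
    · exfalso
      have e1 : Y.nm l = Y.tg k := by rw [hx2] at hx1; exact Y.tp_fst hx1
      have e2 : Y.nm k = Y.tg l := by rw [hy1] at hy2; exact Y.tp_fst hy2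
      rw [e2] at hk; rw [e1] at hl
      exact absurd (hk.trans hl) (lt_irrefl _)
    · rw [hx2, hy2]
    · exfalso
      have e1 : Y.nm l = Y.tg k := by rw [hx2] at hx1; exact Y.tp_fst hx1
      have e2 : Y.tg k = Y.tg l := (Y.tp_fst hy1).symm.trans (Y.tp_fst hy2)
      rw [e1, e2] at hl
      exact absurd hl (lt_irrefl _)
    · exfalso
      apply hne'
      apply Y.blk_eq
      · rw [← hy1]; exact Or.inl hy2
      · obtain ⟨d, hd, rfl⟩ := hx1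
        exact ⟨d, Or.inr hx2⟩
    · exfalso
      have e1 : Y.nm k = Y.tg l := by rw [hy1] at hy2; exact Y.tp_fst hy2
      have e2 : Y.tg k = Y.tg l := (Y.tp_fst hx1).symm.trans (Y.tp_fst hx2)
      rw [e1, e2] at hk
      exact absurd hk (lt_irrefl _)
    · exfalso
      have e1 : Y.nm l = Y.tg k := by rw [hy2] at hy1; exact Y.tp_fst hy1
      have e2 : Y.tg k = Y.tg l := (Y.tp_fst hx1).symm.trans (Y.tp_fst hx2)
      rw [e1, e2] at hl
      exact absurd hl (lt_irrefl _)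
    · exact hT ⟨hx1, hx2⟩ ⟨hy1, hy2⟩
  thr := by
    rintro b ⟨k, c, rfl⟩ i
    by_cases h : i ≤ Y.co (Y.tg k)
    · left
      rintro x (hx | hx)
      · rw [hx]; exact h.trans (Y.tn k).le
      · show i ≤ Y.co x.1
        rw [Y.tp_fst hx]; exact h
    · right
      have key : ∀ x, x ∈ Y.blk k c ∩ {v | i ≤ Y.co v.1} → x = ⟨Y.nm k, c⟩ := by
        rintro x ⟨hx | hx, h2⟩
        · exact hx
        · exfalso
          have h3 : i ≤ Y.co x.1 := h2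
          rw [Y.tp_fst hx] at h3
          exact h h3
      intro x hx y hy
      rw [key x hx, key y hy]

lemma smul_def (g : G) (i : Y.ι) (c : Y.W i) : g • (⟨i, c⟩ : Y.V) = ⟨i, g • c⟩ := rfl

lemma col_smul (g : G) (v : Y.V) : Y.toPLS.col (g • v) = Y.toPLS.col v := rfl

lemma blk_smul (g : G) (b : Set Y.V) (hb : b ∈ Y.toPLS.blocks) :
    (fun v => g • v) '' b ∈ Y.toPLS.blocks := by
  obtain ⟨k, c, rfl⟩ := hb
  refine ⟨k, g • c, ?_⟩
  ext x
  constructor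
  · rintro ⟨y, hy | hy, rfl⟩
    · left; rw [hy]; rfl
    · right
      obtain ⟨d, hd, rfl⟩ := hy
      exact ⟨g • d, Y.R_eq k g c d hd, rfl⟩
  · rintro (hx | ⟨d, hd, rfl⟩)
    · exact ⟨⟨Y.nm k, c⟩, Or.inl rfl, hx.symm⟩
    · refine ⟨⟨Y.tg k, g⁻¹ • d⟩, Or.inr ⟨_, ?_, rfl⟩, ?_⟩
      · have := Y.R_eq k g⁻¹ _ _ hd
        rwa [inv_smul_smul] at this
      · show (⟨Y.tg k, g • g⁻¹ • d⟩ : Y.V) = _
        rw [smul_inv_smul]

/-- relations are preserved -/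
lemma rel_preserved (π : Equiv.Perm Y.V)
    (hbl : ∀ b ∈ Y.toPLS.blocks, π '' b ∈ Y.toPLS.blocks) (k : Y.K)
    (c c' : Y.W (Y.nm k)) (d d' : Y.W (Y.tg k)) (hR : Y.R k c d)
    (h1 : π ⟨Y.nm k, c⟩ = ⟨Y.nm k, c'⟩) (h2 : π ⟨Y.tg k, d⟩ = ⟨Y.tg k, d'⟩) : Y.R k c' d' := by
  obtain ⟨l, c'', hl⟩ := hbl (Y.blk k c) ⟨k, c, rfl⟩
  have e1 : (⟨Y.nm k, c'⟩ : Y.V) ∈ Y.blk l c'' := by
    rw [← hl, ← h1]; exact ⟨_, Or.inl rfl, rfl⟩
  have e2 : (⟨Y.tg k, d'⟩ : Y.V) ∈ Y.blk l c'' := by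
    rw [← hl, ← h2]; exact ⟨_, Or.inr ⟨d, hR, rfl⟩, rfl⟩
  have e3 := Y.blk_eq e1 ⟨d', e2⟩
  cases e3
  rcases e2 with e2 | e2
  · exact absurd (congrArg Sigma.fst e2) (Y.tg_ne_nm k)
  · obtain ⟨d'', hd'', e⟩ := e2
    have : d' = d'' := eq_of_heq (Sigma.mk.inj_iff.1 e).2
    rw [this]; exact hd''

lemma sort_preserved (π : Equiv.Perm Y.V) (hcol : ∀ v, Y.toPLS.col (π v) = Y.toPLS.col v)
    (i : Y.ι) (c : Y.W i) : ∃ c' : Y.W i, π ⟨i, c⟩ = ⟨i, c'⟩ := by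
  have h1 : (π ⟨i, c⟩).1 = i := Y.co_inj (hcol ⟨i, c⟩)
  generalize π ⟨i, c⟩ = y at h1
  obtain ⟨j, y⟩ := y
  subst h1
  exact ⟨y, rfl⟩

end Sys

end Pool.Agent.H227R3.Lat
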